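import Pool.Agent.H99.L.Count
import Pool.Agent.H99.L.Block

/-!
Annulus crossings: the probability that a cluster of any configuration space crosses an annulus.
-/

set_option maxHeartbeats 400000

namespace H99L

open Finset

/-- Fair coins. -/
noncomputable abbrev hf : Edg → ℝ := fun _ => (1/2 : ℝ)

theorem okh : Ok hf := okq (q := 1/2) (by norm_num) (by norm_num)

/-- The vertex `u` lies in the box of radius `m` around `c`. -/
def In (c : Vtx) (m : ℤ) (u : Vtx) : Prop :=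
  c.1 - m ≤ u.1 ∧ u.1 ≤ c.1 + m ∧ c.2 - m ≤ u.2 ∧ u.2 ≤ c.2 + m

/-- The vertex `u` does not lie in the interior of the box of radius `m` around `c`. -/
def Out (c : Vtx) (m : ℤ) (u : Vtx) : Prop :=
  u.1 ≤ c.1 - m ∨ c.1 + m ≤ u.1 ∨ u.2 ≤ c.2 - m ∨ c.2 + m ≤ u.2

noncomputable def lam : ℝ := 1 - (1/2 : ℝ)^188

theorem lam_nonneg : 0 ≤ lam := by unfold lam; norm_num
theorem lam_pos : 0 < lam := by unfold lam; norm_num
theorem lam_lt : lam < 1 := by unfold lam; norm_num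

theorem not_blk_of_arm' {F : Finset Edg} {R1 R2 : ℤ} (h1 : 0 ≤ R1) (h2 : R1 < R2) {u v : Vtx}
    (hu : In (0, 0) R1 u)
    (h : Reach (↑F : Set Edg) u v) (hv : Out (0, 0) R2 v) :
    ¬ Blk R1 R2 F := by
  simp only [In, Out] at hu hv
  obtain ⟨w, k1, k2, k3⟩ := first_exit (a := -R2) (b := R2) (c := -R2) (d := R2)
    (by unfold inR; omega) h (by omega)
  rintro ⟨hb1, hb2⟩
  rcases k2 with k2 | k2 | k2 | k2
  · apply hb1
    right
    obtain ⟨y1, y2, m1, m2, m3, -⟩ := sub_LR (a := -R2) (b := -R1) (c := -R2) (d := R2) (by omega)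
      (by rintro x y ⟨-, h⟩ _ _; simp only [mem_coe, mem_RE_true] at h; omega)
      (by rintro x y ⟨-, h⟩ _ _; simp only [mem_coe, mem_RE_false] at h; omega)
      k3.symm k2.le (show -R1 ≤ u.1 by omega)
    exact ⟨y1, y2, m1, m2, m3.mono (by rintro e ⟨⟨h4, -⟩, h5⟩; exact ⟨h4, h5⟩)⟩
  · apply hb1
    left
    obtain ⟨y1, y2, m1, m2, m3, -⟩ := sub_LR (a := R1) (b := R2) (c := -R2) (d := R2) (by omega)
      (by rintro x y ⟨-, h⟩ _ _; simp only [mem_coe, mem_RE_true] at h; omega)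
      (by rintro x y ⟨-, h⟩ _ _; simp only [mem_coe, mem_RE_false] at h; omega)
      k3 (show u.1 ≤ R1 by omega) k2.ge
    exact ⟨y1, y2, m1, m2, m3.mono (by rintro e ⟨⟨h4, -⟩, h5⟩; exact ⟨h4, h5⟩)⟩
  · apply hb2
    right
    obtain ⟨y1, y2, m1, m2, m3, -⟩ := sub_TB (a := -R2) (b := R2) (c := -R2) (d := -R1) (by omega)
      (by rintro x y ⟨-, h⟩ _ _; simp only [mem_coe, mem_RE_false] at h; omega)
      (by rintro x y ⟨-, h⟩ _ _; simp only [mem_coe, mem_RE_true] at h; omega)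
      k3.symm k2.le (show -R1 ≤ u.2 by omega)
    exact ⟨y1, y2, m1, m2, m3.mono (by rintro e ⟨⟨h4, -⟩, h5⟩; exact ⟨h4, h5⟩)⟩
  · apply hb2
    left
    obtain ⟨y1, y2, m1, m2, m3, -⟩ := sub_TB (a := -R2) (b := R2) (c := R1) (d := R2) (by omega)
      (by rintro x y ⟨-, h⟩ _ _; simp only [mem_coe, mem_RE_false] at h; omega)
      (by rintro x y ⟨-, h⟩ _ _; simp only [mem_coe, mem_RE_true] at h; omega)
      k3 (show u.2 ≤ R1 by omega) k2.ge
    exact ⟨y1, y2, m1, m2, m3.mono (by rintro e ⟨⟨h4, -⟩, h5⟩; exact ⟨h4, h5⟩)⟩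

theorem pr_ann' {m : ℕ} (hm : 5 ≤ m) (K : ℕ) {U : Finset Edg} (hU : boxE (m * 3^K) ⊆ U) :
    Pr hf U (fun F => ∀ k < K, ¬ Blk (m * 3^k : ℕ) (m * 3^(k + 1) : ℕ) F) ≤ lam^K := by
  induction K with
  | zero =>
    simp only [pow_zero]
    exact Pr_le_one okh _ _
  | succ K ih =>
    have hpos : ∀ k : ℕ, 1 ≤ 3^k := fun k => Nat.one_le_pow _ _ (by norm_num)
    have hs : ∀ k, m * 3^(k+1) = 3 * (m * 3^k) := fun k => by ring
    have hm3 : ∀ k, 5 ≤ m * 3^k := fun k => by nlinarith [hpos k]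
    have hlt : m * 3^K < m * 3^(K+1) := by rw [hs]; have := hm3 K; omega
    have hU' : boxE (m * 3^K) ⊆ U := (boxE_mono hlt.le).trans hU
    have i1 := ih hU'
    have hann : annE (m * 3^K) (m * 3^(K+1)) ⊆ U := Finset.sdiff_subset.trans hU
    have e1 : Pr hf U (fun F => ∀ k < K + 1, ¬ Blk (m * 3^k : ℕ) (m * 3^(k + 1) : ℕ) F) =
        Pr hf U (fun F => (∀ k < K, ¬ Blk (m * 3^k : ℕ) (m * 3^(k + 1) : ℕ) F) ∧
          ¬ Blk (m * 3^K : ℕ) (m * 3^(K + 1) : ℕ) F) := by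
      apply Pr_congr
      intro F _
      constructor
      · intro h
        exact ⟨fun k hk => h k (by omega), h K (by omega)⟩
      · rintro ⟨h, h'⟩ k hk
        rcases Nat.lt_or_ge k K with hlt | hge
        · exact h k hlt
        · have : k = K := by omega
          rw [this]; exact h'
    have mono3 : ∀ {j k : ℕ}, j ≤ k → m * 3^j ≤ m * 3^k := fun h =>
      Nat.mul_le_mul_left _ (Nat.pow_le_pow_right (by norm_num) h)
    have i2 := Pr_indep (p := hf) (A := fun F => ∀ k < K, ¬ Blk (m * 3^k : ℕ) (m * 3^(k + 1) : ℕ) F)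
      (B := fun F => ¬ Blk (m * 3^K : ℕ) (m * 3^(K + 1) : ℕ) F) hU' hann (Finset.disjoint_sdiff)
      (fun F _ => forall_congr' fun k => forall_congr' fun hk => not_congr
        (Blk_local (by rw [hs]; have := hm3 k; omega)
          (Finset.sdiff_subset.trans (boxE_mono (mono3 (by omega)))) F))
      (fun F _ => not_congr (Blk_local hlt (Finset.Subset.refl _) F))
    rw [e1, i2, Pr_not, pow_succ]
    have hb : (1/2 : ℝ)^188 ≤ Pr hf U (Blk (m * 3^K : ℕ) (m * 3^(K+1) : ℕ)) := by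
      rw [hs] at hann ⊢
      exact pr_Blk (hm3 K) hann
    have hb' : 1 - Pr hf U (fun F => Blk (m * 3^K : ℕ) (m * 3^(K+1) : ℕ) F) ≤ lam := by
      unfold lam; exact sub_le_sub_left hb 1
    apply mul_le_mul i1 hb'
    · have := Pr_le_one okh U (Blk (m * 3^K : ℕ) (m * 3^(K+1) : ℕ))
      linarith
    · exact pow_nonneg lam_nonneg _

theorem trl_mp_neg (a b : ℤ) (S : Finset Edg) : (trl a b).mp ((trl (-a) (-b)).mp S) = S := by
  have := trl_trl (-a) (-b) S
  simpa using this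

/-- The probability that some vertex at distance at most `m` from `c` is connected to distance
`m 3 ^ K`. -/
theorem annK (S : Finset Edg) (c : Vtx) {m : ℕ} (hm : 5 ≤ m) (K : ℕ) :
    Pr hf S (fun F => ∃ u v, In c m u ∧ Out c (m * 3^K : ℕ) v ∧ Reach (↑F) u v) ≤ lam^K := by
  obtain ⟨a, b⟩ := c
  set S' := (trl (-a) (-b)).mp S with hS'
  have hS : S = (trl a b).mp S' := (trl_mp_neg a b S).symm
  rw [hS, LSym.pr]
  set A : Finset Edg → Prop := fun F => ∃ u v, In (0, 0) m u ∧ Out (0, 0) (m * 3^K : ℕ) v ∧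
    Reach (↑F) u v with hA
  have s1 : Pr hf S' (fun F => ∃ u v, In (a, b) m u ∧ Out (a, b) (m * 3^K : ℕ) v ∧
      Reach (↑((trl a b).mp F)) u v) = Pr hf S' A := by
    apply Pr_congr
    intro F _
    rw [LSym.coe_mp]
    constructor
    · rintro ⟨u, v, h1, h2, h3⟩
      refine ⟨(u.1 - a, u.2 - b), (v.1 - a, v.2 - b), ?_, ?_, ?_⟩
      · simp only [In] at h1 ⊢; omega
      · simp only [Out] at h2 ⊢; omega
      · rw [← (trl a b).reach_iff, trl_ψ, trl_ψ]
        simpa using h3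
    · rintro ⟨⟨u1, u2⟩, ⟨v1, v2⟩, h1, h2, h3⟩
      refine ⟨(u1 + a, u2 + b), (v1 + a, v2 + b), ?_, ?_, ?_⟩
      · simp only [In] at h1 ⊢; omega
      · simp only [Out] at h2 ⊢; omega
      · rw [← (trl a b).reach_iff, trl_ψ, trl_ψ] at h3
        exact h3
  rw [s1]
  set U := S' ∪ boxE (m * 3^K) with hU
  have hAi : IncrE U A := by
    rintro F G h _ ⟨u, v, k1, k2, k3⟩
    exact ⟨u, v, k1, k2, k3.mono (by exact_mod_cast h)⟩
  refine (Pr_mono_set okh (Finset.subset_union_left : S' ⊆ U) hAi).trans ?_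
  refine le_trans ?_ (pr_ann' hm K (U := U) Finset.subset_union_right)
  apply Pr_mono okh
  rintro F _ ⟨u, v, k1, k2, k3⟩ k hk
  have hpos : 1 ≤ 3^k := Nat.one_le_pow _ _ (by norm_num)
  have h1 : m ≤ m * 3^k := Nat.le_mul_of_pos_right _ (by positivity)
  have h2 : m * 3^(k+1) ≤ m * 3^K := Nat.mul_le_mul_left _ (Nat.pow_le_pow_right (by norm_num) hk)
  have h3 : m * 3^k < m * 3^(k+1) := by
    have : m * 3^(k+1) = 3 * (m * 3^k) := by ring
    omega
  refine not_blk_of_arm' (by positivity) (by exact_mod_cast h3) (u := u) (v := v) ?_ k3 ?_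
  · have h1' : (m : ℤ) ≤ (m * 3^k : ℕ) := by exact_mod_cast h1
    simp only [In] at k1 ⊢; omega
  · have h2' : ((m * 3^(k+1) : ℕ) : ℤ) ≤ (m * 3^K : ℕ) := by exact_mod_cast h2
    simp only [Out] at k2 ⊢; omega

theorem ann1 (S : Finset Edg) (c : Vtx) {m : ℕ} (hm : 5 ≤ m) :
    Pr hf S (fun F => ∃ u v, In c m u ∧ Out c (3 * m : ℕ) v ∧ Reach (↑F) u v) ≤ lam := by
  have := annK S c hm 1
  rw [pow_one, pow_one, mul_comm m 3] at this
  exact this

/-- The bound on the expected number of clusters across an annulus of ratio three. -/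
noncomputable def N2 : ℝ := 2 / (1 - lam)^2

theorem N2_pos : 0 < N2 := by
  unfold N2
  have : 0 < 1 - lam := by linarith [lam_lt]
  positivity

/-- Expected number of clusters meeting `K` and reaching `B`. -/
theorem exNC (S : Finset Edg) (c : Vtx) {m : ℕ} (hm : 5 ≤ m) {K : Finset Vtx} {B : Set Vtx}
    (hK : ∀ u ∈ K, In c m u) (hB : ∀ v ∈ B, Out c (3 * m : ℕ) v) :
    Ex hf S (fun F => ((NC src tgt K B (↑F : Set Edg) : ℕ) : ℝ)) ≤ N2 := by
  have h1 : Pr hf S (fun G : Finset Edg => ∃ x ∈ K, RB src tgt B (↑G : Set Edg) x) ≤ lam := by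
    refine le_trans ?_ (ann1 S c hm)
    apply Pr_mono okh
    rintro F _ ⟨x, hx, b, hb, hr⟩
    exact ⟨x, b, hK x hx, hB b hb, hr⟩
  refine le_trans ?_ (NC_sq okh S src tgt K B lam_lt h1)
  apply Ex_mono okh
  intro F _
  have : (NC src tgt K B (↑F : Set Edg)) ≤ (NC src tgt K B (↑F : Set Edg))^2 := by
    rcases Nat.eq_zero_or_pos (NC src tgt K B (↑F : Set Edg)) with h | h
    · rw [h]; norm_num
    · nlinarith
  exact_mod_cast this

end H99L
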