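import Mathlib

set_option autoImplicit false

/-!
Critical bond percolation on the square lattice in a box, and its clusters as subsets of the plane.
-/

namespace Pool.Agent.H99.DR

/-- The edges of the square lattice: `(x, y, true)` is the edge from `(x, y)` to `(x + 1, y)` and
`(x, y, false)` is the edge from `(x, y)` to `(x, y + 1)`. -/
abbrev Edge := ℤ × ℤ × Bool

/-- First endpoint of an edge. -/
def fst (e : Edge) : ℤ × ℤ := (e.1, e.2.1)

/-- Second endpoint of an edge. -/
def snd (e : Edge) : ℤ × ℤ := if e.2.2 = true then (e.1 + 1, e.2.1) else (e.1, e.2.1 + 1)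

/-- The box `Λ_n = {0, …, n}²`. -/
noncomputable def box (n : ℕ) : Finset (ℤ × ℤ) := Finset.Icc (0 : ℤ) n ×ˢ Finset.Icc (0 : ℤ) n

/-- The edges with both endpoints in `Λ_n`. -/
noncomputable def edges (n : ℕ) : Finset Edge :=
  ((Finset.Icc (0 : ℤ) n) ×ˢ ((Finset.Icc (0 : ℤ) n) ×ˢ Finset.univ)).filter
    (fun e => fst e ∈ box n ∧ snd e ∈ box n)

open Classical in
/-- Probability of the event `A` for critical bond percolation in `Λ_n`: the set `F` of open edges
is uniformly distributed on the subsets of `edges n` (all edges are open with probability `1/2`,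
independently). -/
noncomputable def prob (n : ℕ) (A : Finset Edge → Prop) : ℝ :=
  (((edges n).powerset.filter A).card : ℝ) / 2 ^ (edges n).card

/-- The graph of the open edges. -/
def openGraph (F : Finset Edge) : SimpleGraph (ℤ × ℤ) :=
  SimpleGraph.fromRel (fun u w => ∃ e ∈ F, fst e = u ∧ snd e = w)

/-- The vertices of the cluster of `v`. -/
def cluster (F : Finset Edge) (v : ℤ × ℤ) : Set (ℤ × ℤ) := {w | (openGraph F).Reachable v w}

/-- A vertex as a point of the plane. -/
def pt (w : ℤ × ℤ) : ℂ := ⟨(w.1 : ℝ), (w.2 : ℝ)⟩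

/-- The cluster of `v` as a closed subset of the plane: its vertices together with the closed
segments of its open edges. -/
def body (F : Finset Edge) (v : ℤ × ℤ) : Set ℂ :=
  pt '' cluster F v ∪ ⋃ e ∈ {e : Edge | e ∈ F ∧ fst e ∈ cluster F v},
    segment ℝ (pt (fst e)) (pt (snd e))

/-- The Euclidean diameter of the cluster of `v`. -/
noncomputable def diam (F : Finset Edge) (v : ℤ × ℤ) : ℝ := Metric.diam (body F v)

/-- The cluster of the vertex `v` of `Λ_n` has the largest Euclidean diameter among all clusters
in `Λ_n`. -/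
def Largest (n : ℕ) (F : Finset Edge) (v : ℤ × ℤ) : Prop :=
  v ∈ box n ∧ ∀ w ∈ box n, diam F w ≤ diam F v

end Pool.Agent.H99.DR
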