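import Pool.Agent.H99.DR.Low
import Pool.Agent.H99.DR.Defs

/-!
The plain definitions and the working definitions.
-/

set_option maxHeartbeats 400000

namespace Pool.Agent.H99.DR

open Finset H99L

theorem fst_eq : (fst : Edge → ℤ × ℤ) = src := rfl

theorem snd_eq (e : Edge) : snd e = tgt e := by
  unfold snd tgt
  rfl

theorem box_eq (n : ℕ) : box n = bxV n := rfl

theorem mem_box {n : ℕ} {v : ℤ × ℤ} : v ∈ box n ↔ inR 0 n 0 n v := by
  rw [box_eq, mem_bxV]

theorem edges_eq (n : ℕ) : edges n = RE 0 n 0 n := by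
  ext ⟨x, y, b⟩
  simp only [edges, Finset.mem_filter, Finset.mem_product, Finset.mem_Icc, Finset.mem_univ,
    and_true, mem_box, inR, fst, snd]
  cases b
  · rw [mem_RE_false]
    simp only [Bool.false_eq_true, if_false]
    omega
  · rw [mem_RE_true]
    simp only [if_true]
    omega

theorem Ex_half (S : Finset Edg) (f : Finset Edg → ℝ) :
    Ex hf S f = (∑ F ∈ S.powerset, f F) / 2 ^ S.card := by
  unfold Ex
  rw [Finset.sum_div]
  apply Finset.sum_congr rfl
  intro F hF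
  rw [Finset.mem_powerset] at hF
  have h0 : ∏ e ∈ S \ F, (1 - hf e) = (1/2 : ℝ)^(S \ F).card := by
    rw [← Finset.prod_const]
    apply Finset.prod_congr rfl
    intro e _
    norm_num [hf]
  have h1 : ∏ e ∈ F, hf e = (1/2 : ℝ)^F.card := by
    rw [← Finset.prod_const]
  rw [h0, h1, ← pow_add, Finset.card_sdiff_of_subset hF]
  have h2 : F.card + (S.card - F.card) = S.card := by
    have := Finset.card_le_card hF
    omega
  rw [h2, one_div, inv_pow]
  rw [div_eq_mul_inv, mul_comm]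

theorem prob_eq (n : ℕ) (A : Finset Edge → Prop) : prob n A = Pr hf (RE 0 n 0 n) A := by
  classical
  unfold Pr
  rw [Ex_half]
  unfold prob
  rw [edges_eq]
  congr 1
  rw [Finset.card_filter]
  push_cast
  apply Finset.sum_congr rfl
  intro F _
  by_cases h : A F
  · rw [ind_of h, if_pos h]
  · rw [ind_not_of h, if_neg h]

theorem src_ne_tgt (e : Edg) : src e ≠ tgt e := by
  obtain ⟨x, y, b⟩ := e
  cases b <;> simp

theorem openGraph_adj {F : Finset Edge} {u w : ℤ × ℤ} :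
    (openGraph F).Adj u w ↔ Adj (↑F) u w := by
  unfold openGraph
  rw [SimpleGraph.fromRel_adj]
  constructor
  · rintro ⟨_, ⟨e, he, h1, h2⟩ | ⟨e, he, h1, h2⟩⟩
    · exact ⟨e, by exact_mod_cast he, Or.inl ⟨h1, by rw [← snd_eq]; exact h2⟩⟩
    · exact ⟨e, by exact_mod_cast he, Or.inr ⟨h1, by rw [← snd_eq]; exact h2⟩⟩
  · rintro ⟨e, he, ⟨h1, h2⟩ | ⟨h1, h2⟩⟩
    · refine ⟨?_, Or.inl ⟨e, by exact_mod_cast he, h1, by rw [snd_eq]; exact h2⟩⟩
      rw [← h1, ← h2]; exact src_ne_tgt e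
    · refine ⟨?_, Or.inr ⟨e, by exact_mod_cast he, h1, by rw [snd_eq]; exact h2⟩⟩
      rw [← h1, ← h2]; exact (src_ne_tgt e).symm

theorem mem_cluster {F : Finset Edge} {v w : ℤ × ℤ} : w ∈ cluster F v ↔ Reach (↑F) v w := by
  unfold cluster
  rw [Set.mem_ofPred_eq, SimpleGraph.reachable_iff_reflTransGen]
  unfold Reach
  constructor
  · intro h
    exact Relation.ReflTransGen.mono (fun _ _ h => openGraph_adj.mp h) _ _ h
  · intro h
    exact Relation.ReflTransGen.mono (fun _ _ h => openGraph_adj.mpr h) _ _ h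

theorem cluster_eq_of_mem {F : Finset Edge} {v w : ℤ × ℤ} (h : w ∈ cluster F v) :
    cluster F w = cluster F v := by
  rw [mem_cluster] at h
  ext z
  rw [mem_cluster, mem_cluster]
  exact ⟨fun h1 => h.trans h1, fun h1 => h.symm.trans h1⟩

theorem body_eq_of_mem {F : Finset Edge} {v w : ℤ × ℤ} (h : w ∈ cluster F v) :
    body F w = body F v := by
  unfold body
  rw [cluster_eq_of_mem h]

theorem dist_pt (u v : ℤ × ℤ) : dist (pt u) (pt v) = ed u v := by
  rw [Complex.dist_eq_re_im]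
  unfold ed pt H99L.sq
  push_cast
  rfl

/-- The cluster of `v` as a finite set. -/
noncomputable def clF (n : ℕ) (F : Finset Edge) (v : ℤ × ℤ) : Finset (ℤ × ℤ) := by
  classical
  exact (bxV n).filter (fun w => w ∈ cluster F v)

theorem mem_clF {n : ℕ} {F : Finset Edge} {v w : ℤ × ℤ} :
    w ∈ clF n F v ↔ w ∈ bxV n ∧ w ∈ cluster F v := by
  classical
  unfold clF
  rw [Finset.mem_filter]

theorem reach_box {n : ℕ} {F : Finset Edge} (hF : F ⊆ RE 0 n 0 n) {v w : ℤ × ℤ}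
    (hv : v ∈ bxV n) (h : Reach (↑F) v w) : w ∈ bxV n := by
  by_cases hne : w = v
  · rw [hne]; exact hv
  · rw [mem_bxV]
    exact reach_inR hF h.symm hne

theorem clF_isCl {n : ℕ} {F : Finset Edge} (hF : F ⊆ RE 0 n 0 n) {v : ℤ × ℤ}
    (hv : v ∈ bxV n) : IsCl (clF n F v) F := by
  refine ⟨v, mem_clF.mpr ⟨hv, mem_cluster.mpr (Reach.refl _ _)⟩, fun u => ?_⟩
  rw [mem_clF, mem_cluster]
  exact ⟨fun h => ⟨reach_box hF hv h, h⟩, fun h => h.2⟩

theorem coe_clF {n : ℕ} {F : Finset Edge} (hF : F ⊆ RE 0 n 0 n) {v : ℤ × ℤ}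
    (hv : v ∈ bxV n) : (↑(clF n F v) : Set (ℤ × ℤ)) = cluster F v := by
  ext w
  rw [Finset.mem_coe, mem_clF]
  exact ⟨fun h => h.2, fun h => ⟨reach_box hF hv (mem_cluster.mp h), h⟩⟩

theorem body_subset (F : Finset Edge) (v : ℤ × ℤ) :
    body F v ⊆ convexHull ℝ (pt '' cluster F v) := by
  unfold body
  apply Set.union_subset
  · exact subset_convexHull ℝ _
  · intro z hz
    simp only [Set.mem_iUnion, Set.mem_ofPred_eq] at hz
    obtain ⟨e, ⟨he, hc⟩, hz⟩ := hz
    have h1 : pt (fst e) ∈ convexHull ℝ (pt '' cluster F v) :=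
      subset_convexHull ℝ _ ⟨_, hc, rfl⟩
    have hs : snd e ∈ cluster F v := by
      rw [mem_cluster] at hc ⊢
      refine hc.trans (Adj.reach ⟨e, by exact_mod_cast he, Or.inl ⟨rfl, by rw [snd_eq]⟩⟩)
    have h2 : pt (snd e) ∈ convexHull ℝ (pt '' cluster F v) :=
      subset_convexHull ℝ _ ⟨_, hs, rfl⟩
    exact (convex_convexHull ℝ _).segment_subset h1 h2 hz

theorem diam_eq {n : ℕ} {F : Finset Edge} (hF : F ⊆ RE 0 n 0 n) {v : ℤ × ℤ}
    (hv : v ∈ bxV n) : diam F v = dm (clF n F v) := by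
  have hcoe := coe_clF hF hv
  have hne : (clF n F v).Nonempty := ⟨v, mem_clF.mpr ⟨hv, mem_cluster.mpr (Reach.refl _ _)⟩⟩
  obtain ⟨h1, h2, h3⟩ := dp_spec hne
  have hfin : (pt '' cluster F v).Finite := by
    rw [← hcoe]
    exact (Finset.finite_toSet _).image _
  have hb : Bornology.IsBounded (pt '' cluster F v) := hfin.isBounded
  have hbc : Bornology.IsBounded (convexHull ℝ (pt '' cluster F v)) := isBounded_convexHull.mpr hb
  have hbb : Bornology.IsBounded (body F v) := hbc.subset (body_subset F v)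
  have e1 : Metric.diam (pt '' cluster F v) = dm (clF n F v) := by
    apply le_antisymm
    · apply Metric.diam_le_of_forall_dist_le (ed_nonneg _ _)
      rintro _ ⟨x, hx, rfl⟩ _ ⟨y, hy, rfl⟩
      rw [dist_pt, ed_le_iff]
      rw [← hcoe, Finset.mem_coe] at hx hy
      exact h3 x hx y hy
    · unfold dm
      rw [← dist_pt]
      apply Metric.dist_le_diam_of_mem hb
      · exact ⟨_, by rw [← hcoe]; exact h1, rfl⟩
      · exact ⟨_, by rw [← hcoe]; exact h2, rfl⟩
  unfold diam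
  apply le_antisymm
  · rw [← e1, ← convexHull_diam (pt '' cluster F v)]
    exact Metric.diam_mono (body_subset F v) hbc
  · rw [← e1]
    exact Metric.diam_mono Set.subset_union_left hbb

theorem clF_mac {n : ℕ} {F : Finset Edge} (hF : F ⊆ RE 0 n 0 n) {v : ℤ × ℤ}
    (hv : v ∈ bxV n) {L : ℝ} (hL : L ≤ diam F v) : clF n F v ∈ mac n L := by
  rw [mem_mac]
  have hne : (clF n F v).Nonempty := ⟨v, mem_clF.mpr ⟨hv, mem_cluster.mpr (Reach.refl _ _)⟩⟩
  obtain ⟨h1, h2, h3⟩ := dp_spec hne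
  refine ⟨fun w hw => (mem_clF.mp hw).1, _, h1, _, h2, ?_⟩
  rw [diam_eq hF hv] at hL
  exact hL

theorem clF_tip {n : ℕ} {F : Finset Edge} (hF : F ⊆ RE 0 n 0 n) {v : ℤ × ℤ}
    (hv : v ∈ bxV n) : ∃ x y, Tip F x y ∧ ed x y = diam F v := by
  refine ⟨_, _, Tip_of_cl (clF_isCl hF hv), ?_⟩
  rw [diam_eq hF hv]; rfl

theorem ed_le_diam {n : ℕ} {F : Finset Edge} (hF : F ⊆ RE 0 n 0 n) {v x y : ℤ × ℤ}
    (hv : v ∈ bxV n) (hx : x ∈ cluster F v) (hy : y ∈ cluster F v) : ed x y ≤ diam F v := by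
  rw [diam_eq hF hv]
  have hne : (clF n F v).Nonempty := ⟨v, mem_clF.mpr ⟨hv, mem_cluster.mpr (Reach.refl _ _)⟩⟩
  obtain ⟨h1, h2, h3⟩ := dp_spec hne
  have hcoe := coe_clF hF hv
  rw [← hcoe, Finset.mem_coe] at hx hy
  exact ed_le_iff.mpr (h3 x hx y hy)

end Pool.Agent.H99.DR
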