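import Pool.Agent.H99.DR.TypeII

/-!
Exploring a cluster.
-/

set_option maxHeartbeats 400000

namespace H99L

open Finset

open Classical in
/-- The edges of `S` touching `Z`. -/
noncomputable def EZ (S : Finset Edg) (Z : Finset Vtx) : Finset Edg :=
  S.filter (fun e => src e ∈ Z ∨ tgt e ∈ Z)

theorem mem_EZ {S : Finset Edg} {Z : Finset Vtx} {e : Edg} :
    e ∈ EZ S Z ↔ e ∈ S ∧ (src e ∈ Z ∨ tgt e ∈ Z) := by
  classical
  simp only [EZ, Finset.mem_filter]

/-- `Z` is a cluster of `F`. -/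
def IsCl (Z : Finset Vtx) (F : Finset Edg) : Prop := ∃ v ∈ Z, ∀ u, Reach (↑F) v u ↔ u ∈ Z

theorem IsCl.reach {Z : Finset Vtx} {F : Finset Edg} (h : IsCl Z F) {x z : Vtx} (hx : x ∈ Z) :
    Reach (↑F) x z ↔ z ∈ Z := by
  obtain ⟨v, _, h2⟩ := h
  have h3 := (h2 x).mpr hx
  rw [← h2 z]
  exact ⟨fun h => h3.trans h, fun h => h3.symm.trans h⟩

theorem adj_ends {F : Set Edg} {u v : Vtx} (h : Adj F u v) : ∃ e ∈ F, (src e = u ∨ tgt e = u) ∧
    (src e = v ∨ tgt e = v) := by
  obtain ⟨e, he, h⟩ := h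
  refine ⟨e, he, ?_, ?_⟩ <;> tauto

theorem IsCl_local {S : Finset Edg} {Z : Finset Vtx} {F : Finset Edg} (hF : F ⊆ S) :
    IsCl Z F ↔ IsCl Z (F ∩ EZ S Z) := by
  unfold IsCl
  apply exists_congr; intro v
  apply and_congr_right; intro hv
  constructor
  · intro h u
    rw [← h u]
    constructor
    · intro h1
      apply h1.mono
      rw [Finset.coe_inter]; exact Set.inter_subset_left
    · intro h1
      apply GR_restrict h1
      intro e he hse
      rw [Finset.mem_coe, Finset.mem_inter, mem_EZ]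
      exact ⟨he, hF he, Or.inl ((h _).mp hse)⟩
  · intro h u
    rw [← h u]
    constructor
    · intro h1
      induction h1 with
      | refl => exact Reach.refl _ _
      | @tail z z' _ hs ih =>
        have hz : z ∈ Z := (h z).mp ih
        obtain ⟨e, he, hcase⟩ := hs
        refine ih.trans (Adj.reach ⟨e, ?_, hcase⟩)
        rw [Finset.mem_coe, Finset.mem_inter, mem_EZ]
        refine ⟨he, hF he, ?_⟩
        rcases hcase with ⟨h3, _⟩ | ⟨_, h3⟩
        · left; rw [h3]; exact hz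
        · right; rw [h3]; exact hz
    · intro h1
      apply h1.mono
      rw [Finset.coe_inter]; exact Set.inter_subset_left

/-- Outside an explored cluster nothing changes. -/
theorem reach_sdiff {S : Finset Edg} {Z : Finset Vtx} {F : Finset Edg} (hF : F ⊆ S)
    (hZ : IsCl Z F) {x z : Vtx} (hx : x ∉ Z) :
    Reach (↑F) x z ↔ Reach (↑(F \ EZ S Z)) x z := by
  have hout : ∀ w, Reach (↑F) x w → w ∉ Z := by
    intro w hw hwZ
    exact hx ((hZ.reach hwZ).mp hw.symm)
  constructor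
  · intro h
    apply GR_restrict h
    intro e he hse
    have he' : e ∈ F := he
    rw [Finset.mem_coe, Finset.mem_sdiff, mem_EZ]
    refine ⟨he', ?_⟩
    rintro ⟨_, h1 | h1⟩
    · exact hout _ hse h1
    · have h2 : Reach (↑F) x (src e) := hse
      exact hout _ (h2.trans (Adj.reach ⟨e, he, Or.inl ⟨rfl, rfl⟩⟩)) h1
  · intro h
    apply h.mono
    rw [Finset.coe_sdiff]; exact Set.sdiff_subset

/-- Conditioning on a cluster. -/
theorem condCl {S : Finset Edg} (ZZ : Finset (Finset Vtx)) (Ev : Finset Vtx → Finset Edg → Prop)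
    {q : ℝ} (hq : ∀ Z ∈ ZZ, Pr hf (S \ EZ S Z) (Ev Z) ≤ q) :
    Pr hf S (fun F => ∃ Z ∈ ZZ, IsCl Z F ∧ Ev Z (F \ EZ S Z)) ≤
      q * Ex hf S (fun F => ∑ Z ∈ ZZ, ind (IsCl Z F)) := by
  classical
  refine (Pr_exists_le okh S ZZ (fun Z F => IsCl Z F ∧ Ev Z (F \ EZ S Z))).trans ?_
  rw [Ex_sum hf S ZZ (fun Z F => ind (IsCl Z F)), Finset.mul_sum]
  apply Finset.sum_le_sum
  intro Z hZ
  have hsub : EZ S Z ⊆ S := fun e he => (mem_EZ.mp he).1
  have e1 : Pr hf S (fun F => IsCl Z F ∧ Ev Z (F \ EZ S Z)) =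
      Pr hf S (fun F => IsCl Z F) * Pr hf S (fun F => Ev Z (F \ EZ S Z)) := by
    apply Pr_indep hsub (Finset.sdiff_subset (t := EZ S Z)) Finset.disjoint_sdiff
    · intro F hF; exact IsCl_local hF
    · intro F hF
      have : (F ∩ (S \ EZ S Z)) \ EZ S Z = F \ EZ S Z := by
        ext e
        simp only [Finset.mem_sdiff, Finset.mem_inter]
        constructor
        · rintro ⟨⟨h1, h2, h3⟩, _⟩; exact ⟨h1, h3⟩
        · rintro ⟨h1, h2⟩; exact ⟨⟨h1, hF h1, h2⟩, h2⟩
      rw [this]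
  have e2 : Pr hf S (fun F => Ev Z (F \ EZ S Z)) = Pr hf (S \ EZ S Z) (Ev Z) := by
    rw [Pr_local (S' := S \ EZ S Z) Finset.sdiff_subset]
    · apply Pr_congr
      intro F hF
      have : F \ EZ S Z = F := by
        rw [Finset.sdiff_eq_self_iff_disjoint]
        exact Finset.disjoint_of_subset_left hF Finset.sdiff_disjoint
      rw [this]
    · intro F hF
      have : (F ∩ (S \ EZ S Z)) \ EZ S Z = F \ EZ S Z := by
        ext e
        simp only [Finset.mem_sdiff, Finset.mem_inter]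
        constructor
        · rintro ⟨⟨h1, h2, h3⟩, _⟩; exact ⟨h1, h3⟩
        · rintro ⟨h1, h2⟩; exact ⟨⟨h1, hF h1, h2⟩, h2⟩
      rw [this]
  rw [e1, e2]
  have h1 : Pr hf S (fun F => IsCl Z F) = Ex hf S (fun F => ind (IsCl Z F)) := rfl
  rw [h1, mul_comm]
  apply mul_le_mul_of_nonneg_right (hq Z hZ)
  rw [← h1]
  exact Pr_nonneg okh _ _

/-- The vertices of the box. -/
noncomputable def bxV (n : ℕ) : Finset Vtx := Finset.Icc (0 : ℤ) n ×ˢ Finset.Icc (0 : ℤ) n

theorem mem_bxV {n : ℕ} {x : Vtx} : x ∈ bxV n ↔ inR 0 n 0 n x := by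
  unfold bxV
  rw [Finset.mem_product, Finset.mem_Icc, Finset.mem_Icc]
  rfl

open Classical in
/-- Macroscopic vertex sets. -/
noncomputable def mac (n : ℕ) (L : ℝ) : Finset (Finset Vtx) :=
  (bxV n).powerset.filter (fun Z => ∃ u ∈ Z, ∃ v ∈ Z, L ≤ ed u v)

theorem mem_mac {n : ℕ} {L : ℝ} {Z : Finset Vtx} :
    Z ∈ mac n L ↔ Z ⊆ bxV n ∧ ∃ u ∈ Z, ∃ v ∈ Z, L ≤ ed u v := by
  classical
  simp only [mac, Finset.mem_filter, Finset.mem_powerset]

/-- The expected number of macroscopic clusters. -/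
theorem ex_mac (S : Finset Edg) (n : ℕ) {s : ℕ} (hs : 5 ≤ s) {L : ℝ} (hL : 7 * (s : ℝ) ≤ L) :
    Ex hf S (fun F => ∑ Z ∈ mac n L, ind (IsCl Z F)) ≤ ((n : ℝ) / s + 1)^2 * N2 := by
  classical
  set K : Vtx → Finset Vtx := fun c => Finset.Icc (c.1 - s) (c.1 + s) ×ˢ
    Finset.Icc (c.2 - s) (c.2 + s) with hK
  set B : Vtx → Set Vtx := fun c => {v | Out c (3 * s : ℕ) v} with hB
  have hs0 : (0 : ℝ) < s := by exact_mod_cast (by omega : 0 < s)
  have key : ∀ F : Finset Edg, F ⊆ S → ∑ Z ∈ mac n L, ind (IsCl Z F) ≤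
      ∑ c ∈ grid n s, ((NC src tgt (K c) (B c) (↑F : Set Edg) : ℕ) : ℝ) := by
    intro F _
    set A := (mac n L).filter (fun Z => IsCl Z F) with hA
    have c1 : ∑ Z ∈ mac n L, ind (IsCl Z F) = (A.card : ℝ) := by
      rw [hA, Finset.card_filter]
      push_cast
      apply Finset.sum_congr rfl
      intro Z _
      by_cases h : IsCl Z F
      · rw [ind_of h, if_pos h]
      · rw [ind_not_of h, if_neg h]
    rw [c1]
    set f : Finset Vtx → Set Vtx := fun Z => (↑Z : Set Vtx) with hf'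
    have hinj : Function.Injective f := fun Z Z' h => Finset.coe_injective h
    have c2 : A.image f ⊆ (grid n s).biUnion (fun c => TC src tgt (K c) (B c) (↑F : Set Edg)) := by
      intro C hC
      rw [Finset.mem_image] at hC
      obtain ⟨Z, hZ, rfl⟩ := hC
      rw [hA, Finset.mem_filter, mem_mac] at hZ
      obtain ⟨⟨hZB, u, hu, v, hv, huv⟩, hcl⟩ := hZ
      have hub := mem_bxV.mp (hZB hu)
      simp only [inR] at hub
      obtain ⟨c, hc, hucs⟩ := grid_cover (n := n) (m := s) (by omega) (x := u) hub.1 hub.2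
      rw [mem_Bx] at hucs
      rw [Finset.mem_biUnion]
      refine ⟨c, hc, ?_⟩
      rw [mem_TC]
      refine ⟨u, ?_, ⟨v, ?_, (hcl.reach hu).mpr hv⟩, ?_⟩
      · rw [hK]
        simp only [Finset.mem_product, Finset.mem_Icc]
        omega
      · simp only [hB, Set.mem_ofPred_eq]
        apply out_of_ed (by positivity)
        have h1 : ed c u ≤ 3/2 * s := by
          have : In c (s : ℤ) u := by simp only [In]; omega
          have := ed_le_of_in this
          exact_mod_cast this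
        have h2 := ed_triangle u c v
        rw [ed_comm u c] at h2
        push_cast
        linarith
      · ext w
        exact hcl.reach hu
    have c3 : A.card ≤ ∑ c ∈ grid n s, NC src tgt (K c) (B c) (↑F : Set Edg) := by
      rw [← Finset.card_image_of_injective A hinj]
      refine (Finset.card_le_card c2).trans ?_
      exact Finset.card_biUnion_le
    exact_mod_cast c3
  refine (Ex_mono okh key).trans ?_
  rw [Ex_sum hf S (grid n s) (fun c F => ((NC src tgt (K c) (B c) (↑F : Set Edg) : ℕ) : ℝ))]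
  have h1 : ∀ c ∈ grid n s, Ex hf S (fun F => ((NC src tgt (K c) (B c) (↑F : Set Edg) : ℕ) : ℝ)) ≤
      N2 := by
    intro c _
    apply exNC S c hs
    · intro u hu
      simp only [hK, Finset.mem_product, Finset.mem_Icc] at hu
      simp only [In]
      omega
    · intro v hv
      exact hv
  calc ∑ c ∈ grid n s, Ex hf S (fun F => ((NC src tgt (K c) (B c) (↑F : Set Edg) : ℕ) : ℝ))
      ≤ ∑ _c ∈ grid n s, N2 := Finset.sum_le_sum h1
    _ = (grid n s).card * N2 := by rw [Finset.sum_const, nsmul_eq_mul]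
    _ ≤ ((n : ℝ) / s + 1)^2 * N2 := by
        apply mul_le_mul_of_nonneg_right _ N2_pos.le
        have h1 : ((grid n s).card : ℝ) ≤ (((n / s : ℕ) : ℝ) + 1)^2 := by
          exact_mod_cast grid_card n s
        refine h1.trans ?_
        have h2 : ((n / s : ℕ) : ℝ) ≤ (n : ℝ) / s := Nat.cast_div_le
        have h3 : (0 : ℝ) ≤ ((n / s : ℕ) : ℝ) := Nat.cast_nonneg _
        apply pow_le_pow_left₀ (by positivity)
        linarith

/-- A diametral pair. -/
theorem exists_dp (Z : Finset Vtx) (hZ : Z.Nonempty) :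
    ∃ p : Vtx × Vtx, p.1 ∈ Z ∧ p.2 ∈ Z ∧ ∀ z ∈ Z, ∀ z' ∈ Z, sq z z' ≤ sq p.1 p.2 := by
  obtain ⟨p, hp, h⟩ := Finset.exists_max_image (Z ×ˢ Z) (fun p => sq p.1 p.2) (hZ.product hZ)
  rw [Finset.mem_product] at hp
  refine ⟨p, hp.1, hp.2, fun z hz z' hz' => h (z, z') (Finset.mem_product.mpr ⟨hz, hz'⟩)⟩

open Classical in
/-- The chosen diametral pair. -/
noncomputable def dp (Z : Finset Vtx) : Vtx × Vtx :=
  if h : Z.Nonempty then (exists_dp Z h).choose else ((0, 0), (0, 0))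

theorem dp_spec {Z : Finset Vtx} (hZ : Z.Nonempty) :
    (dp Z).1 ∈ Z ∧ (dp Z).2 ∈ Z ∧ ∀ z ∈ Z, ∀ z' ∈ Z, sq z z' ≤ sq (dp Z).1 (dp Z).2 := by
  unfold dp
  rw [dif_pos hZ]
  exact (exists_dp Z hZ).choose_spec

/-- The diameter of a finite vertex set. -/
noncomputable def dm (Z : Finset Vtx) : ℝ := ed (dp Z).1 (dp Z).2

theorem Tip_of_cl {Z : Finset Vtx} {F : Finset Edg} (h : IsCl Z F) : Tip F (dp Z).1 (dp Z).2 := by
  have hne : Z.Nonempty := by obtain ⟨v, hv, _⟩ := h; exact ⟨v, hv⟩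
  obtain ⟨h1, h2, h3⟩ := dp_spec hne
  refine ⟨(h.reach h1).mpr h2, fun z z' hz hz' => ?_⟩
  exact h3 z ((h.reach h1).mp hz) z' ((h.reach h1).mp hz')

theorem mac_dm {n : ℕ} {L : ℝ} {Z : Finset Vtx} (h : Z ∈ mac n L) : Z.Nonempty ∧ L ≤ dm Z := by
  rw [mem_mac] at h
  obtain ⟨_, u, hu, v, hv, huv⟩ := h
  have hne : Z.Nonempty := ⟨u, hu⟩
  refine ⟨hne, huv.trans ?_⟩
  exact ed_le_iff.mpr ((dp_spec hne).2.2 u hu v hv)

theorem dm_le {n : ℕ} {Z : Finset Vtx} (hZ : Z ⊆ bxV n) (hne : Z.Nonempty) :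
    dm Z ≤ 3/2 * n := by
  obtain ⟨h1, h2, _⟩ := dp_spec hne
  have k1 := mem_bxV.mp (hZ h1)
  have k2 := mem_bxV.mp (hZ h2)
  simp only [inR] at k1 k2
  have : In (dp Z).1 (n : ℤ) (dp Z).2 := by simp only [In]; omega
  have := ed_le_of_in this
  unfold dm
  exact_mod_cast this

end H99L
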