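import Pool.Agent.H99.DR.Bridge

/-!
The statements about the plain model.
-/

set_option maxHeartbeats 400000

namespace Pool.Agent.H99.DR

open Finset H99L

theorem eta {δ : ℝ} (hδ : 0 < δ) : ∃ η : ℝ, 0 < η ∧ η^48 = δ ∧ η^cz = δ^(cz/48) := by
  refine ⟨δ^(1/48 : ℝ), Real.rpow_pos_of_pos hδ _, ?_, ?_⟩
  · rw [← Real.rpow_natCast, ← Real.rpow_mul hδ.le]
    norm_num
  · rw [← Real.rpow_mul hδ.le]
    congr 1
    ring

/-- Two clusters. -/
theorem rep {n : ℕ} (hn : 1 ≤ n) {ε δ : ℝ} (hε : 0 < ε) (hε1 : ε ≤ 1) (hδ : 1 / (n : ℝ) ≤ δ) :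
    prob n (fun F => ∃ v ∈ box n, ∃ w ∈ box n, w ∉ cluster F v ∧ ε * n ≤ diam F v ∧
      ε * n ≤ diam F w ∧ |diam F v - diam F w| ≤ δ * n) ≤ CCst * δ^(cz/48) / ε^3 := by
  have hn0 : (0 : ℝ) < n := by exact_mod_cast hn
  have hδ0 : 0 < δ := lt_of_lt_of_le (by positivity) hδ
  have hδn : 1 ≤ δ * n := by
    rw [div_le_iff₀ hn0] at hδ; exact hδ
  obtain ⟨η, h1, h2, h3⟩ := eta hδ0
  rw [prob_eq]
  have h4 := repulsion (n := n) hε hε1 h1 (by rw [h2]; exact hδn)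
  rw [h2, h3] at h4
  have h5 : CCst * ε⁻¹^3 * δ^(cz/48) = CCst * δ^(cz/48) / ε^3 := by
    rw [inv_pow]; field_simp
  rw [h5] at h4
  refine le_trans ?_ h4
  apply Pr_mono okh
  rintro F hF ⟨v, hv, w, hw, hvw, h6, h7, h8⟩
  refine ⟨clF n F v, clF_mac hF hv h6, clF n F w, clF_mac hF hw h7, ?_, clF_isCl hF hv,
    clF_isCl hF hw, ?_⟩
  · intro h
    apply hvw
    have : w ∈ clF n F w := mem_clF.mpr ⟨hw, mem_cluster.mpr (Reach.refl _ _)⟩
    rw [← h] at this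
    exact (mem_clF.mp this).2
  · rw [← diam_eq hF hv, ← diam_eq hF hw]
    exact h8

/-- Anti-concentration. -/
theorem anti {n : ℕ} (hn : 1 ≤ n) {ε δ : ℝ} (hε : 0 < ε) (hε1 : ε ≤ 1) (hδ : 1 / (n : ℝ) ≤ δ)
    (a : ℝ) :
    prob n (fun F => ∃ v ∈ box n, ε * n ≤ diam F v ∧ |diam F v - a| ≤ δ * n) ≤
      CCst * δ^(cz/48) / ε^3 := by
  have hn0 : (0 : ℝ) < n := by exact_mod_cast hn
  have hδ0 : 0 < δ := lt_of_lt_of_le (by positivity) hδ
  have hδn : 1 ≤ δ * n := by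
    rw [div_le_iff₀ hn0] at hδ; exact hδ
  obtain ⟨η, h1, h2, h3⟩ := eta hδ0
  rw [prob_eq]
  have h4 := anticonc (n := n) hε hε1 h1 (by rw [h2]; exact hδn) a
  rw [h2, h3] at h4
  have h5 : CCst * ε⁻¹^3 * δ^(cz/48) = CCst * δ^(cz/48) / ε^3 := by
    rw [inv_pow]; field_simp
  rw [h5] at h4
  refine le_trans ?_ h4
  apply Pr_mono okh
  rintro F hF ⟨v, hv, h6, h7⟩
  obtain ⟨x, y, hT, hxy⟩ := clF_tip hF hv
  exact ⟨x, y, hT, by rw [hxy]; exact h6, by rw [hxy]; exact h7⟩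

theorem small_or {n : ℕ} {F : Finset Edge} (hF : F ⊆ RE 0 n 0 n) {L : ℝ} (hL : 0 < L)
    (h : ¬ ∀ x y, Reach (↑F) x y → ed x y < L) : ∃ u ∈ box n, L ≤ diam F u := by
  push Not at h
  obtain ⟨x, y, hr, hxy⟩ := h
  have hne : x ≠ y := by
    rintro rfl
    rw [ed_self] at hxy; linarith
  have hx : x ∈ bxV n := mem_bxV.mpr (reach_inR hF hr hne)
  refine ⟨x, hx, hxy.trans ?_⟩
  exact ed_le_diam hF hx (mem_cluster.mpr (Reach.refl _ _)) (mem_cluster.mpr hr)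

theorem eps0 {δ : ℝ} (hδ0 : 0 < δ) (hδ1 : δ ≤ 1) : δ ≤ δ^(cz/192) ∧ δ^(cz/192) ≤ 1 ∧
    δ^(cz/48) / (δ^(cz/192))^3 = δ^(cz/192) := by
  have hc := cz_pos
  refine ⟨?_, Real.rpow_le_one hδ0.le hδ1 (by positivity), ?_⟩
  · calc δ = δ^(1 : ℝ) := (Real.rpow_one _).symm
      _ ≤ δ^(cz/192) := Real.rpow_le_rpow_of_exponent_ge hδ0 hδ1 (by linarith [cz_le])
  · rw [← Real.rpow_natCast, ← Real.rpow_mul hδ0.le, ← Real.rpow_sub hδ0]
    congr 1
    push_cast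
    ring

/-- Near ties for the largest diameter. -/
theorem near_max {n : ℕ} (hn : 1 ≤ n) {δ : ℝ} (hδ : 1 / (n : ℝ) ≤ δ) (hδ1 : δ ≤ 1) :
    prob n (fun F => ∃ v ∈ box n, ∃ w ∈ box n, w ∉ cluster F v ∧
      ∀ u ∈ box n, diam F u ≤ diam F v + δ * n ∧ diam F u ≤ diam F w + δ * n) ≤
      (CCst + 8) * δ^(cz/192) := by
  have hn0 : (0 : ℝ) < n := by exact_mod_cast hn
  have hδ0 : 0 < δ := lt_of_lt_of_le (by positivity) hδ
  have hδn : 1 ≤ δ * n := by
    rw [div_le_iff₀ hn0] at hδ; exact hδ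
  obtain ⟨e1, e2, e3⟩ := eps0 hδ0 hδ1
  set ε := δ^(cz/192) with hε
  have hε0 : 0 < ε := lt_of_lt_of_le hδ0 e1
  have hεn : δ * n ≤ ε * n := mul_le_mul_of_nonneg_right e1 hn0.le
  have h1 := rep hn hε0 e2 hδ
  have h2 := small_diam (n := n) (ε := 2 * ε) (by positivity) (by linarith)
  rw [prob_eq] at h1 ⊢
  have h3 : CCst * δ^(cz/48) / ε^3 = CCst * ε := by rw [mul_div_assoc, e3]
  rw [h3] at h1
  have h4 : (CCst + 8) * ε = 4 * (2 * ε) + CCst * ε := by ring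
  rw [h4]
  refine le_trans ?_ (add_le_add h2 h1)
  refine le_trans ?_ (Pr_or_le okh _ _ _)
  apply Pr_mono okh
  rintro F hF ⟨v, hv, w, hw, hvw, h5⟩
  by_cases hs : ∀ x y, Reach (↑F) x y → ed x y < 2 * ε * n
  · exact Or.inl hs
  · right
    obtain ⟨u, hu, hLu⟩ := small_or hF (by positivity) hs
    have k1 := h5 u hu
    have k2 := h5 v hv
    have k3 := h5 w hw
    refine ⟨v, hv, w, hw, hvw, by linarith [k1.1], by linarith [k1.2], ?_⟩
    rw [abs_le]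
    constructor
    · linarith [k3.1]
    · linarith [k2.2]

/-- Anti-concentration of the largest diameter. -/
theorem anti_max {n : ℕ} (hn : 1 ≤ n) {δ : ℝ} (hδ : 1 / (n : ℝ) ≤ δ) (hδ1 : δ ≤ 1) (a : ℝ) :
    prob n (fun F => ∃ v, Largest n F v ∧ |diam F v - a| ≤ δ * n) ≤
      (CCst + 8) * δ^(cz/192) := by
  have hn0 : (0 : ℝ) < n := by exact_mod_cast hn
  have hδ0 : 0 < δ := lt_of_lt_of_le (by positivity) hδ
  have hδn : 1 ≤ δ * n := by
    rw [div_le_iff₀ hn0] at hδ; exact hδ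
  obtain ⟨e1, e2, e3⟩ := eps0 hδ0 hδ1
  set ε := δ^(cz/192) with hε
  have hε0 : 0 < ε := lt_of_lt_of_le hδ0 e1
  have hεn : δ * n ≤ ε * n := mul_le_mul_of_nonneg_right e1 hn0.le
  have h1 := anti hn hε0 e2 hδ a
  have h2 := small_diam (n := n) (ε := 2 * ε) (by positivity) (by linarith)
  rw [prob_eq] at h1 ⊢
  have h3 : CCst * δ^(cz/48) / ε^3 = CCst * ε := by rw [mul_div_assoc, e3]
  rw [h3] at h1
  have h4 : (CCst + 8) * ε = 4 * (2 * ε) + CCst * ε := by ring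
  rw [h4]
  refine le_trans ?_ (add_le_add h2 h1)
  refine le_trans ?_ (Pr_or_le okh _ _ _)
  apply Pr_mono okh
  rintro F hF ⟨v, ⟨hv, hmax⟩, h5⟩
  by_cases hs : ∀ x y, Reach (↑F) x y → ed x y < 2 * ε * n
  · exact Or.inl hs
  · right
    obtain ⟨u, hu, hLu⟩ := small_or hF (by positivity) hs
    have k1 := hmax u hu
    refine ⟨v, hv, ?_, h5⟩
    have : 0 ≤ ε * n := by positivity
    linarith

/-- Asymptotic uniqueness of the largest cluster. -/
theorem uniq {n : ℕ} (hn : 1 ≤ n) :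
    prob n (fun F => ∃ v w, Largest n F v ∧ Largest n F w ∧ w ∉ cluster F v) ≤
      (CCst + 8) * (n : ℝ)^(-(cz/192)) := by
  have hn0 : (0 : ℝ) < n := by exact_mod_cast hn
  have h1 := near_max hn (δ := 1 / (n : ℝ)) le_rfl (by
    rw [div_le_one hn0]; exact_mod_cast hn)
  have h2 : (1 / (n : ℝ))^(cz/192) = (n : ℝ)^(-(cz/192)) := by
    rw [one_div, Real.inv_rpow hn0.le, Real.rpow_neg hn0.le]
  rw [h2] at h1
  refine le_trans ?_ h1
  rw [prob_eq, prob_eq]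
  apply Pr_mono okh
  rintro F _ ⟨v, w, hv, hw, hvw⟩
  have h3 : (1 / (n : ℝ)) * n = 1 := by field_simp
  refine ⟨v, hv.1, w, hw.1, hvw, fun u hu => ?_⟩
  rw [h3]
  have k1 := hv.2 u hu
  have k2 := hw.2 u hu
  constructor <;> linarith

/-- The rule for the choice of a largest cluster does not matter. -/
theorem rules {n : ℕ} (hn : 1 ≤ n) {sel sel' : Finset Edge → ℤ × ℤ}
    (h : ∀ F, F ⊆ edges n → Largest n F (sel F)) (h' : ∀ F, F ⊆ edges n → Largest n F (sel' F))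
    (A : Set (Set ℂ)) :
    |prob n (fun F => body F (sel F) ∈ A) - prob n (fun F => body F (sel' F) ∈ A)| ≤
      (CCst + 8) * (n : ℝ)^(-(cz/192)) := by
  have hu := uniq hn
  rw [prob_eq] at hu ⊢
  rw [prob_eq]
  rw [edges_eq] at h h'
  have key : ∀ s s' : Finset Edge → ℤ × ℤ, (∀ F, F ⊆ RE 0 n 0 n → Largest n F (s F)) →
      (∀ F, F ⊆ RE 0 n 0 n → Largest n F (s' F)) →
      Pr hf (RE 0 n 0 n) (fun F => body F (s F) ∈ A) ≤
      Pr hf (RE 0 n 0 n) (fun F => body F (s' F) ∈ A) +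
      Pr hf (RE 0 n 0 n) (fun F => ∃ v w, Largest n F v ∧ Largest n F w ∧ w ∉ cluster F v) := by
    intro s s' hs hs'
    refine le_trans ?_ (Pr_or_le okh _ _ _)
    apply Pr_mono okh
    intro F hF hA
    by_cases hc : s F ∈ cluster F (s' F)
    · left
      rw [← body_eq_of_mem hc]
      exact hA
    · right
      exact ⟨s' F, s F, hs' F hF, hs F hF, hc⟩
  have k1 := key sel sel' h h'
  have k2 := key sel' sel h' h
  rw [abs_le]
  constructor <;> linarith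

/-! ### Symmetries of the box -/

section Symm

variable {n : ℕ} {φ : ℂ ≃ᵢ ℂ}

theorem exists_sigma (hφ : φ '' (pt '' ↑(box n)) = pt '' ↑(box n)) :
    ∃ σ : ℤ × ℤ → ℤ × ℤ, ∀ v ∈ box n, σ v ∈ box n ∧ pt (σ v) = φ (pt v) := by
  have : ∀ v : ℤ × ℤ, ∃ w : ℤ × ℤ, v ∈ box n → w ∈ box n ∧ pt w = φ (pt v) := by
    intro v
    by_cases hv : v ∈ box n
    · have h1 : φ (pt v) ∈ pt '' (↑(box n) : Set (ℤ × ℤ)) := by
        rw [← hφ]
        exact ⟨pt v, ⟨v, hv, rfl⟩, rfl⟩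
      obtain ⟨w, hw, h2⟩ := h1
      exact ⟨w, fun _ => ⟨hw, h2⟩⟩
    · exact ⟨v, fun h => absurd h hv⟩
  choose σ hσ using this
  exact ⟨σ, hσ⟩

theorem pt_inj {u v : ℤ × ℤ} (h : pt u = pt v) : u = v := by
  unfold pt at h
  rw [Complex.ext_iff] at h
  obtain ⟨h1, h2⟩ := h
  simp only at h1 h2
  exact Prod.ext (by exact_mod_cast h1) (by exact_mod_cast h2)

theorem ed_edge (e : Edge) : ed (fst e) (snd e) = 1 := by
  have : H99L.sq (fst e) (snd e) = 1 := by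
    obtain ⟨x, y, b⟩ := e
    cases b <;> simp [H99L.sq, fst, snd]
  unfold ed
  rw [this]
  simp

theorem edge_of_ed {u v : ℤ × ℤ} (hu : u ∈ box n) (hv : v ∈ box n) (h : ed u v = 1) :
    ∃ e ∈ RE 0 n 0 n, (fst e = u ∧ snd e = v) ∨ (fst e = v ∧ snd e = u) := by
  rw [mem_box] at hu hv
  simp only [inR] at hu hv
  have h1 : H99L.sq u v = 1 := by
    have := ed_sq u v
    rw [h] at this
    have : ((H99L.sq u v : ℤ) : ℝ) = 1 := by rw [← this]; norm_num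
    exact_mod_cast this
  obtain ⟨u1, u2⟩ := u
  obtain ⟨v1, v2⟩ := v
  simp only [H99L.sq] at h1 hu hv
  have h2 : -1 ≤ u1 - v1 ∧ u1 - v1 ≤ 1 := by constructor <;> nlinarith [sq_nonneg (u2 - v2)]
  have h3 : -1 ≤ u2 - v2 ∧ u2 - v2 ≤ 1 := by constructor <;> nlinarith [sq_nonneg (u1 - v1)]
  have h4 : (u1 - v1 = -1 ∨ u1 - v1 = 0 ∨ u1 - v1 = 1) := by omega
  have h5 : (u2 - v2 = -1 ∨ u2 - v2 = 0 ∨ u2 - v2 = 1) := by omega
  rcases h4 with h4 | h4 | h4 <;> rcases h5 with h5 | h5 | h5 <;> rw [h4, h5] at h1 <;>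
    norm_num at h1
  · refine ⟨(u1, u2, true), ?_, Or.inl ?_⟩
    · rw [mem_RE_true]; omega
    · exact ⟨rfl, Prod.ext (show u1 + 1 = v1 by omega) (show u2 = v2 by omega)⟩
  · refine ⟨(u1, u2, false), ?_, Or.inl ?_⟩
    · rw [mem_RE_false]; omega
    · exact ⟨rfl, Prod.ext (show u1 = v1 by omega) (show u2 + 1 = v2 by omega)⟩
  · refine ⟨(v1, v2, false), ?_, Or.inr ?_⟩
    · rw [mem_RE_false]; omega
    · exact ⟨rfl, Prod.ext (show v1 = u1 by omega) (show v2 + 1 = u2 by omega)⟩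
  · refine ⟨(v1, v2, true), ?_, Or.inr ?_⟩
    · rw [mem_RE_true]; omega
    · exact ⟨rfl, Prod.ext (show v1 + 1 = u1 by omega) (show v2 = u2 by omega)⟩

theorem ends_box {e : Edge} (he : e ∈ RE 0 (n : ℤ) 0 n) : fst e ∈ box n ∧ snd e ∈ box n := by
  have := RE_ends he
  rw [mem_box, mem_box, snd_eq]
  exact this

theorem edge_ext {e e' : Edge} (h : (fst e = fst e' ∧ snd e = snd e') ∨
    (fst e = snd e' ∧ snd e = fst e')) : e = e' := by
  obtain ⟨x, y, b⟩ := e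
  obtain ⟨x', y', b'⟩ := e'
  cases b <;> cases b' <;> simp [fst, snd, Prod.ext_iff] at h ⊢ <;> omega

/-- The data of a symmetry. -/
structure Sy (n : ℕ) (φ : ℂ ≃ᵢ ℂ) (σ : ℤ × ℤ → ℤ × ℤ) (τ : Edge ↪ Edge) : Prop where
  s1 : ∀ v ∈ box n, σ v ∈ box n
  s2 : ∀ v ∈ box n, pt (σ v) = φ (pt v)
  t1 : (RE 0 (n : ℤ) 0 n).map τ = RE 0 n 0 n
  t2 : ∀ e ∈ RE 0 (n : ℤ) 0 n, (fst (τ e) = σ (fst e) ∧ snd (τ e) = σ (snd e)) ∨
    (fst (τ e) = σ (snd e) ∧ snd (τ e) = σ (fst e))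

theorem exists_Sy (hφ : φ '' (pt '' ↑(box n)) = pt '' ↑(box n)) : ∃ σ τ, Sy n φ σ τ := by
  classical
  obtain ⟨σ, hσ⟩ := exists_sigma hφ
  have inj : ∀ u ∈ box n, ∀ v ∈ box n, σ u = σ v → u = v := by
    intro u hu v hv h
    apply pt_inj
    apply φ.injective
    rw [← (hσ u hu).2, ← (hσ v hv).2, h]
  have ex : ∀ e : Edge, ∃ e' : Edge, (e ∈ RE 0 (n : ℤ) 0 n → e' ∈ RE 0 (n : ℤ) 0 n ∧
      ((fst e' = σ (fst e) ∧ snd e' = σ (snd e)) ∨ (fst e' = σ (snd e) ∧ snd e' = σ (fst e)))) ∧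
      (e ∉ RE 0 (n : ℤ) 0 n → e' = e) := by
    intro e
    by_cases he : e ∈ RE 0 (n : ℤ) 0 n
    · obtain ⟨h1, h2⟩ := ends_box he
      have h3 : ed (σ (fst e)) (σ (snd e)) = 1 := by
        rw [← dist_pt, (hσ _ h1).2, (hσ _ h2).2, φ.dist_eq, dist_pt, ed_edge]
      obtain ⟨e', he', h4⟩ := edge_of_ed (hσ _ h1).1 (hσ _ h2).1 h3
      exact ⟨e', fun _ => ⟨he', h4⟩, fun h => absurd he h⟩
    · exact ⟨e, fun h => absurd h he, fun _ => rfl⟩
  choose τ hτ using ex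
  have τinj : Function.Injective τ := by
    intro e e' h
    by_cases he : e ∈ RE 0 (n : ℤ) 0 n
    · by_cases he' : e' ∈ RE 0 (n : ℤ) 0 n
      · obtain ⟨a1, a2⟩ := ends_box he
        obtain ⟨b1, b2⟩ := ends_box he'
        have k1 := ((hτ e).1 he).2
        have k2 := ((hτ e').1 he').2
        rw [h] at k1
        apply edge_ext
        rcases k1 with ⟨k1, k1'⟩ | ⟨k1, k1'⟩ <;> rcases k2 with ⟨k2, k2'⟩ | ⟨k2, k2'⟩
        · left; exact ⟨inj _ a1 _ b1 (k1.symm.trans k2), inj _ a2 _ b2 (k1'.symm.trans k2')⟩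
        · right; exact ⟨inj _ a1 _ b2 (k1.symm.trans k2), inj _ a2 _ b1 (k1'.symm.trans k2')⟩
        · right; exact ⟨inj _ a1 _ b2 (k1'.symm.trans k2'), inj _ a2 _ b1 (k1.symm.trans k2)⟩
        · left; exact ⟨inj _ a1 _ b1 (k1'.symm.trans k2'), inj _ a2 _ b2 (k1.symm.trans k2)⟩
      · exfalso
        apply he'
        rw [← (hτ e').2 he', ← h]
        exact ((hτ e).1 he).1
    · by_cases he' : e' ∈ RE 0 (n : ℤ) 0 n
      · exfalso
        apply he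
        rw [← (hτ e).2 he, h]
        exact ((hτ e').1 he').1
      · rw [(hτ e).2 he, (hτ e').2 he'] at h
        exact h
  refine ⟨σ, ⟨τ, τinj⟩, fun v hv => (hσ v hv).1, fun v hv => (hσ v hv).2, ?_,
    fun e he => ((hτ e).1 he).2⟩
  apply Finset.eq_of_subset_of_card_le
  · intro e he
    rw [Finset.mem_map] at he
    obtain ⟨e', he', rfl⟩ := he
    exact ((hτ e').1 he').1
  · rw [Finset.card_map]

variable {σ : ℤ × ℤ → ℤ × ℤ} {τ : Edge ↪ Edge}

theorem Sy.inj (h : Sy n φ σ τ) {u v : ℤ × ℤ} (hu : u ∈ box n) (hv : v ∈ box n)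
    (huv : σ u = σ v) : u = v := by
  apply pt_inj
  apply φ.injective
  rw [← h.s2 u hu, ← h.s2 v hv, huv]

theorem cluster_box {F : Finset Edge} (hF : F ⊆ RE 0 n 0 n) {v w : ℤ × ℤ} (hv : v ∈ box n)
    (hw : w ∈ cluster F v) : w ∈ box n := reach_box hF hv (mem_cluster.mp hw)

theorem cluster_step {F : Finset Edge} {v w z : ℤ × ℤ} (hw : w ∈ cluster F v)
    (h : Adj (↑F) w z) : z ∈ cluster F v := by
  rw [mem_cluster] at hw ⊢
  exact hw.trans h.reach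

theorem Sy.cluster (h : Sy n φ σ τ) {F : Finset Edge} (hF : F ⊆ RE 0 n 0 n) {v : ℤ × ℤ}
    (hv : v ∈ box n) : cluster (F.map τ) (σ v) = σ '' cluster F v := by
  ext w
  constructor
  · intro hw
    rw [mem_cluster] at hw
    induction hw with
    | refl => exact ⟨v, mem_cluster.mpr (Reach.refl _ _), rfl⟩
    | @tail z z' _ hs ih =>
      obtain ⟨u, hu, rfl⟩ := ih
      have hub := cluster_box hF hv hu
      obtain ⟨e', he', hc⟩ := hs
      rw [Finset.mem_coe, Finset.mem_map] at he'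
      obtain ⟨e, he, rfl⟩ := he'
      obtain ⟨b1, b2⟩ := ends_box (hF he)
      have hsd : snd (τ e) = tgt (τ e) := snd_eq _
      have hfd : fst (τ e) = src (τ e) := rfl
      rw [← hsd, ← hfd] at hc
      have t2 := h.t2 e (hF he)
      have st : ∀ a b : ℤ × ℤ, a ∈ box n → ((fst e = a ∧ snd e = b) ∨ (fst e = b ∧ snd e = a)) →
          σ a = σ u → σ b ∈ σ '' DR.cluster F v := by
        intro a b ha hab hau
        have hau' := h.inj ha hub hau
        refine ⟨b, ?_, rfl⟩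
        apply cluster_step hu
        rw [← hau']
        refine ⟨e, by exact_mod_cast he, ?_⟩
        rw [← snd_eq]
        rcases hab with ⟨k1, k2⟩ | ⟨k1, k2⟩
        · exact Or.inl ⟨k1, k2⟩
        · exact Or.inr ⟨k1, k2⟩
      rcases t2 with ⟨t2, t3⟩ | ⟨t2, t3⟩ <;> rcases hc with ⟨c1, c2⟩ | ⟨c1, c2⟩
      · rw [← c2, t3]
        exact st (fst e) (snd e) b1 (Or.inl ⟨rfl, rfl⟩) (by rw [← t2, c1])
      · rw [← c1, t2]
        exact st (snd e) (fst e) b2 (Or.inr ⟨rfl, rfl⟩) (by rw [← t3, c2])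
      · rw [← c2, t3]
        exact st (snd e) (fst e) b2 (Or.inr ⟨rfl, rfl⟩) (by rw [← t2, c1])
      · rw [← c1, t2]
        exact st (fst e) (snd e) b1 (Or.inl ⟨rfl, rfl⟩) (by rw [← t3, c2])
  · rintro ⟨u, hu, rfl⟩
    rw [mem_cluster] at hu
    induction hu with
    | refl => exact mem_cluster.mpr (Reach.refl _ _)
    | @tail z z' _ hs ih =>
      apply cluster_step ih
      obtain ⟨e, he, hc⟩ := hs
      refine ⟨τ e, ?_, ?_⟩
      · rw [Finset.mem_coe, Finset.mem_map]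
        exact ⟨e, by exact_mod_cast he, rfl⟩
      · have t2 := h.t2 e (hF (by exact_mod_cast he))
        have hfd : src (τ e) = fst (τ e) := rfl
        have hfd' : src e = fst e := rfl
        rw [← snd_eq, hfd]
        rw [← snd_eq, hfd'] at hc
        rcases t2 with ⟨t2, t3⟩ | ⟨t2, t3⟩ <;> rcases hc with ⟨c1, c2⟩ | ⟨c1, c2⟩
        · left; rw [t2, t3, c1, c2]; exact ⟨rfl, rfl⟩
        · right; rw [t2, t3, c1, c2]; exact ⟨rfl, rfl⟩
        · right; rw [t2, t3, c1, c2]; exact ⟨rfl, rfl⟩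
        · left; rw [t2, t3, c1, c2]; exact ⟨rfl, rfl⟩

theorem image_seg (φ : ℂ ≃ᵢ ℂ) (a b : ℂ) : φ '' segment ℝ a b = segment ℝ (φ a) (φ b) := by
  have := image_segment ℝ (φ.toRealAffineIsometryEquiv.toAffineIsometry.toAffineMap) a b
  simpa using this

theorem Sy.body (h : Sy n φ σ τ) {F : Finset Edge} (hF : F ⊆ RE 0 n 0 n) {v : ℤ × ℤ}
    (hv : v ∈ box n) : body (F.map τ) (σ v) = φ '' body F v := by
  unfold DR.body
  rw [h.cluster hF hv, Set.image_union]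
  congr 1
  · rw [Set.image_image, Set.image_image]
    apply Set.image_congr
    intro w hw
    exact h.s2 w (cluster_box hF hv hw)
  · rw [Set.image_iUnion₂]
    have both : ∀ e ∈ F, (fst e ∈ DR.cluster F v ↔ snd e ∈ DR.cluster F v) := by
      intro e he
      constructor
      · intro h1
        exact cluster_step h1 ⟨e, by exact_mod_cast he, Or.inl ⟨rfl, by rw [snd_eq]⟩⟩
      · intro h1
        exact cluster_step h1 ⟨e, by exact_mod_cast he, Or.inr ⟨rfl, by rw [snd_eq]⟩⟩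
    have seg : ∀ e ∈ F, segment ℝ (pt (fst (τ e))) (pt (snd (τ e))) =
        φ '' segment ℝ (pt (fst e)) (pt (snd e)) := by
      intro e he
      obtain ⟨b1, b2⟩ := ends_box (hF he)
      rw [image_seg, ← h.s2 _ b1, ← h.s2 _ b2]
      rcases h.t2 e (hF he) with ⟨t2, t3⟩ | ⟨t2, t3⟩
      · rw [t2, t3]
      · rw [t2, t3, segment_symm]
    have mem : ∀ e ∈ F, (fst (τ e) ∈ σ '' DR.cluster F v ↔ fst e ∈ DR.cluster F v) := by
      intro e he
      obtain ⟨b1, b2⟩ := ends_box (hF he)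
      have im : ∀ a ∈ box n, (σ a ∈ σ '' DR.cluster F v ↔ a ∈ DR.cluster F v) := by
        intro a ha
        constructor
        · rintro ⟨b, hb, hab⟩
          have := h.inj (cluster_box hF hv hb) ha hab
          rw [← this]; exact hb
        · intro ha'; exact ⟨a, ha', rfl⟩
      rcases h.t2 e (hF he) with ⟨t2, t3⟩ | ⟨t2, t3⟩
      · rw [t2]; exact im _ b1
      · rw [t2, im _ b2]; exact (both e he).symm
    ext z
    simp only [Set.mem_iUnion, Set.mem_ofPred_eq, exists_prop]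
    constructor
    · rintro ⟨e', ⟨he', h1⟩, h2⟩
      rw [Finset.mem_map] at he'
      obtain ⟨e, he, rfl⟩ := he'
      exact ⟨e, ⟨he, (mem e he).mp h1⟩, by rw [← seg e he]; exact h2⟩
    · rintro ⟨e, ⟨he, h1⟩, h2⟩
      refine ⟨τ e, ⟨?_, (mem e he).mpr h1⟩, by rw [seg e he]; exact h2⟩
      rw [Finset.mem_map]
      exact ⟨e, he, rfl⟩

theorem Sy.diam (h : Sy n φ σ τ) {F : Finset Edge} (hF : F ⊆ RE 0 n 0 n) {v : ℤ × ℤ}
    (hv : v ∈ box n) : diam (F.map τ) (σ v) = diam F v := by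
  unfold DR.diam
  rw [h.body hF hv, φ.diam_image]

theorem Sy.surj (h : Sy n φ σ τ) {w : ℤ × ℤ} (hw : w ∈ box n) : ∃ v ∈ box n, σ v = w := by
  classical
  have h1 : (box n).image σ = box n := by
    apply Finset.eq_of_subset_of_card_le
    · intro w hw
      rw [Finset.mem_image] at hw
      obtain ⟨v, hv, rfl⟩ := hw
      exact h.s1 v hv
    · rw [Finset.card_image_of_injOn]
      intro u hu v hv huv
      exact h.inj hu hv huv
  rw [← h1, Finset.mem_image] at hw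
  exact hw

theorem Sy.largest (h : Sy n φ σ τ) {F : Finset Edge} (hF : F ⊆ RE 0 n 0 n) {v : ℤ × ℤ}
    (hv : Largest n F v) : Largest n (F.map τ) (σ v) := by
  refine ⟨h.s1 v hv.1, fun w hw => ?_⟩
  obtain ⟨u, hu, rfl⟩ := h.surj hw
  rw [h.diam hF hu, h.diam hF hv.1]
  exact hv.2 u hu

/-- The law of the largest cluster is almost invariant under the symmetries of the box. -/
theorem symm_law (hn : 1 ≤ n) (hφ : φ '' (pt '' ↑(box n)) = pt '' ↑(box n))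
    {sel : Finset Edge → ℤ × ℤ} (hs : ∀ F, F ⊆ edges n → Largest n F (sel F))
    (A : Set (Set ℂ)) :
    |prob n (fun F => body F (sel F) ∈ A) - prob n (fun F => φ '' body F (sel F) ∈ A)| ≤
      (CCst + 8) * (n : ℝ)^(-(cz/192)) := by
  classical
  obtain ⟨σ, τ, h⟩ := exists_Sy hφ
  have hs' := hs
  rw [edges_eq] at hs'
  -- the transported rule
  have ex : ∀ G : Finset Edge, ∃ w : ℤ × ℤ, G ⊆ RE 0 n 0 n →
      ∃ F, F ⊆ RE 0 n 0 n ∧ F.map τ = G ∧ w = σ (sel F) := by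
    intro G
    by_cases hG : G ⊆ RE 0 n 0 n
    · have hG' : G ⊆ (RE 0 (n : ℤ) 0 n).map τ := by rw [h.t1]; exact hG
      rw [Finset.subset_map_iff] at hG'
      obtain ⟨F, hF, rfl⟩ := hG'
      exact ⟨σ (sel F), fun _ => ⟨F, hF, rfl, rfl⟩⟩
    · exact ⟨(0, 0), fun h => absurd h hG⟩
  choose sel' hsel' using ex
  have hrule : ∀ G, G ⊆ edges n → Largest n G (sel' G) := by
    intro G hG
    rw [edges_eq] at hG
    obtain ⟨F, hF, rfl, h2⟩ := hsel' G hG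
    rw [h2]
    exact h.largest hF (hs' F hF)
  have h1 := rules hn hs hrule A
  have h2 : prob n (fun F => φ '' body F (sel F) ∈ A) = prob n (fun F => body F (sel' F) ∈ A) := by
    rw [prob_eq, prob_eq]
    conv_rhs => rw [← h.t1]
    rw [Pr_map]
    apply Pr_congr
    intro F hF
    have hFm : F.map τ ⊆ RE 0 n 0 n := by
      rw [← h.t1]; exact Finset.map_subset_map.mpr hF
    obtain ⟨F', hF', h3, h4⟩ := hsel' (F.map τ) hFm
    have h5 : F' = F := Finset.map_injective τ h3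
    rw [h4, h5, h.body hF (hs' F hF).1]
  rw [h2]
  exact h1

end Symm

end Pool.Agent.H99.DR
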