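import Pool.Agent.H99.DR.Tip2

/-!
Level sets of the distance to the farthest point of a set.
-/

set_option maxHeartbeats 400000

namespace H99L

open Finset

/-- Euclidean distance. -/
noncomputable def ed (u v : Vtx) : ℝ := Real.sqrt ((sq u v : ℤ) : ℝ)

theorem sq_nonneg' (u v : Vtx) : 0 ≤ sq u v := by unfold sq; positivity

theorem ed_nonneg (u v : Vtx) : 0 ≤ ed u v := Real.sqrt_nonneg _

theorem ed_sq (u v : Vtx) : (ed u v)^2 = ((sq u v : ℤ) : ℝ) := by
  unfold ed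
  rw [Real.sq_sqrt]
  exact_mod_cast sq_nonneg' u v

theorem sq_comm (u v : Vtx) : sq u v = sq v u := by unfold sq; ring

theorem ed_comm (u v : Vtx) : ed u v = ed v u := by unfold ed; rw [sq_comm]

theorem ed_le_iff {u v u' v' : Vtx} : ed u v ≤ ed u' v' ↔ sq u v ≤ sq u' v' := by
  unfold ed
  rw [Real.sqrt_le_sqrt_iff (by exact_mod_cast sq_nonneg' u' v')]
  exact_mod_cast Iff.rfl

theorem ed_sq' (u v : Vtx) :
    (ed u v)^2 = ((u.1 : ℝ) - v.1)^2 + ((u.2 : ℝ) - v.2)^2 := by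
  rw [ed_sq]
  unfold sq
  push_cast
  ring

theorem ed_triangle (u v w : Vtx) : ed u w ≤ ed u v + ed v w := by
  have h1 := ed_sq' u w
  have h2 := ed_sq' u v
  have h3 := ed_sq' v w
  have n1 := ed_nonneg u w
  have n2 := ed_nonneg u v
  have n3 := ed_nonneg v w
  apply le_of_sq_le_sq _ (by positivity)
  rw [h1]
  set a1 := (u.1 : ℝ) - v.1
  set a2 := (u.2 : ℝ) - v.2
  set b1 := (v.1 : ℝ) - w.1
  set b2 := (v.2 : ℝ) - w.2
  have e1 : (u.1 : ℝ) - w.1 = a1 + b1 := by simp only [a1, b1]; ring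
  have e2 : (u.2 : ℝ) - w.2 = a2 + b2 := by simp only [a2, b2]; ring
  rw [e1, e2]
  have hcs : a1 * b1 + a2 * b2 ≤ ed u v * ed v w := by
    apply le_of_sq_le_sq _ (by positivity)
    rw [mul_pow, h2, h3]
    nlinarith [sq_nonneg (a1 * b2 - a2 * b1)]
  nlinarith

/-- The box with lower left corner `b` and side `m`. -/
noncomputable def Bx (b : Vtx) (m : ℕ) : Finset Vtx :=
  Finset.Ico b.1 (b.1 + m) ×ˢ Finset.Ico b.2 (b.2 + m)

theorem mem_Bx {b x : Vtx} {m : ℕ} :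
    x ∈ Bx b m ↔ (b.1 ≤ x.1 ∧ x.1 < b.1 + m) ∧ (b.2 ≤ x.2 ∧ x.2 < b.2 + m) := by
  unfold Bx
  rw [Finset.mem_product, Finset.mem_Ico, Finset.mem_Ico]

theorem move {x x' y d : Vtx} {h : ℤ} (h0 : 0 ≤ h) (hd : d.1^2 + d.2^2 = 1)
    (hx' : x' = (x.1 + h * d.1, x.2 + h * d.2))
    (hcl : (2/3 : ℝ) * ed x y ≤ (d.1 : ℝ) * ((x.1 : ℝ) - y.1) + (d.2 : ℝ) * ((x.2 : ℝ) - y.2)) :
    ed x y + (2/3 : ℝ) * h ≤ ed x' y := by
  have h1 := ed_sq' x y
  have h2 := ed_sq' x' y
  have n1 := ed_nonneg x y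
  have hh : (0 : ℝ) ≤ h := by exact_mod_cast h0
  have hd' : (d.1 : ℝ)^2 + (d.2 : ℝ)^2 = 1 := by exact_mod_cast hd
  apply le_of_sq_le_sq _ (ed_nonneg _ _)
  rw [h2, hx']
  push_cast
  set a := (x.1 : ℝ) - y.1
  set b := (x.2 : ℝ) - y.2
  have e1 : (x.1 : ℝ) + h * d.1 - y.1 = a + h * d.1 := by simp only [a]; ring
  have e2 : (x.2 : ℝ) + h * d.2 - y.2 = b + h * d.2 := by simp only [b]; ring
  rw [e1, e2]
  have e3 : (a + h * d.1)^2 + (b + h * d.2)^2 =
      (a^2 + b^2) + 2 * h * (d.1 * a + d.2 * b) + h^2 * ((d.1 : ℝ)^2 + (d.2 : ℝ)^2) := by ring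
  rw [e3, hd', ← h1]
  nlinarith [mul_le_mul_of_nonneg_left hcl hh, sq_nonneg (h : ℝ)]

/-- Level sets in one direction. -/
theorem lev_dir {T : Set Vtx} {y' : Vtx → Vtx}
    (hy : ∀ x, y' x ∈ T ∧ ∀ z ∈ T, ed x z ≤ ed x (y' x)) {S : Finset Vtx} {a t : ℝ} (ht : 0 ≤ t)
    (hS : ∀ x ∈ S, |ed x (y' x) - a| ≤ t) {d : Vtx} (hd : d.1^2 + d.2^2 = 1)
    (hcl : ∀ x ∈ S, (2/3 : ℝ) * ed x (y' x) ≤
      (d.1 : ℝ) * ((x.1 : ℝ) - (y' x).1) + (d.2 : ℝ) * ((x.2 : ℝ) - (y' x).2))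
    (line pos : Vtx → ℤ)
    (hlp : ∀ x x', line x = line x' →
      x' = (x.1 + (pos x' - pos x) * d.1, x.2 + (pos x' - pos x) * d.2))
    {I : Finset ℤ} (hI : ∀ x ∈ S, line x ∈ I) :
    (S.card : ℝ) ≤ I.card * (3 * t + 1) := by
  classical
  rw [Finset.card_eq_sum_card_fiberwise (f := line) (t := I) (fun x hx => hI x hx)]
  push_cast
  have : ∀ v ∈ I, ((S.filter (fun x => line x = v)).card : ℝ) ≤ 3 * t + 1 := by
    intro v _
    have hinj : Set.InjOn pos ↑(S.filter (fun x => line x = v)) := by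
      intro x hx x' hx' hxx
      rw [Finset.mem_coe, Finset.mem_filter] at hx hx'
      have := hlp x x' (hx.2.trans hx'.2.symm)
      rw [hxx, sub_self, zero_mul, zero_mul, add_zero, add_zero] at this
      exact this.symm
    rw [← Finset.card_image_of_injOn hinj]
    apply card_close (by positivity)
    intro p hp p' hp'
    rw [Finset.mem_image] at hp hp'
    obtain ⟨x, hx, rfl⟩ := hp
    obtain ⟨x', hx', rfl⟩ := hp'
    rw [Finset.mem_filter] at hx hx'
    have hl := hlp x x' (hx.2.trans hx'.2.symm)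
    by_cases hpos : 0 ≤ pos x' - pos x
    · have h1 := move hpos hd hl (hcl x hx.1)
      have h2 := (hy x').2 (y' x) (hy x).1
      have h3 := abs_le.mp (hS x hx.1)
      have h4 := abs_le.mp (hS x' hx'.1)
      push_cast at h1
      linarith [h3.1, h4.2]
    · push Not at hpos
      have : ((pos x' - pos x : ℤ) : ℝ) < 0 := by exact_mod_cast hpos
      push_cast at this
      linarith
  calc ∑ v ∈ I, ((S.filter (fun x => line x = v)).card : ℝ) ≤ ∑ _v ∈ I, (3 * t + 1) :=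
        Finset.sum_le_sum this
    _ = I.card * (3 * t + 1) := by rw [Finset.sum_const, nsmul_eq_mul]

/-- Level sets of the farthest distance are thin. -/
theorem lev {T : Set Vtx} {y' : Vtx → Vtx}
    (hy : ∀ x, y' x ∈ T ∧ ∀ z ∈ T, ed x z ≤ ed x (y' x)) (b : Vtx) (m : ℕ) {a t : ℝ} (ht : 0 ≤ t)
    {S : Finset Vtx} (hSB : S ⊆ Bx b m) (hS : ∀ x ∈ S, |ed x (y' x) - a| ≤ t) :
    (S.card : ℝ) ≤ 4 * m * (3 * t + 1) := by
  classical
  set cl : Vtx → Vtx → Prop := fun d x => (2/3 : ℝ) * ed x (y' x) ≤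
      (d.1 : ℝ) * ((x.1 : ℝ) - (y' x).1) + (d.2 : ℝ) * ((x.2 : ℝ) - (y' x).2) with hcl
  have cover : S ⊆ (S.filter (cl (1, 0)) ∪ S.filter (cl (-1, 0))) ∪
      (S.filter (cl (0, 1)) ∪ S.filter (cl (0, -1))) := by
    intro x hx
    simp only [Finset.mem_union, Finset.mem_filter, hx, true_and, hcl]
    have h1 := ed_sq' x (y' x)
    have n1 := ed_nonneg x (y' x)
    push_cast
    set X := (x.1 : ℝ) - (y' x).1
    set Y := (x.2 : ℝ) - (y' x).2
    set r := ed x (y' x)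
    by_contra hcon
    push Not at hcon
    obtain ⟨⟨a1, a2⟩, a3, a4⟩ := hcon
    have k1 : X^2 ≤ (2/3 * r)^2 := by
      apply sq_le_sq'
      · linarith
      · linarith
    have k2 : Y^2 ≤ (2/3 * r)^2 := by
      apply sq_le_sq'
      · linarith
      · linarith
    have k3 : r^2 ≤ 8/9 * r^2 := by nlinarith
    have k4 : r^2 ≤ 0 := by linarith
    have k5 : r = 0 := by nlinarith
    rw [k5] at a1 a2
    linarith
  have cI1 : (Finset.Ico b.1 (b.1 + m)).card = m := by rw [Int.card_Ico]; omega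
  have cI2 : (Finset.Ico b.2 (b.2 + m)).card = m := by rw [Int.card_Ico]; omega
  have hmem : ∀ d, ∀ x ∈ S.filter (cl d), x ∈ S ∧ cl d x := fun d x hx => Finset.mem_filter.mp hx
  have c1 : ((S.filter (cl (1, 0))).card : ℝ) ≤ m * (3 * t + 1) := by
    have := lev_dir hy (S := S.filter (cl (1, 0))) ht (fun x hx => hS x (hmem _ x hx).1)
      (d := (1, 0)) (by norm_num) (fun x hx => (hmem _ x hx).2) (fun x => x.2) (fun x => x.1)
      (by intro x x' h; ext <;> simp only at h ⊢ <;> omega) (I := Finset.Ico b.2 (b.2 + m))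
      (by intro x hx; rw [Finset.mem_Ico]; exact (mem_Bx.mp (hSB (hmem _ x hx).1)).2)
    rwa [cI2] at this
  have c2 : ((S.filter (cl (-1, 0))).card : ℝ) ≤ m * (3 * t + 1) := by
    have := lev_dir hy (S := S.filter (cl (-1, 0))) ht (fun x hx => hS x (hmem _ x hx).1)
      (d := (-1, 0)) (by norm_num) (fun x hx => (hmem _ x hx).2) (fun x => x.2) (fun x => -x.1)
      (by intro x x' h; ext <;> simp only at h ⊢ <;> omega) (I := Finset.Ico b.2 (b.2 + m))
      (by intro x hx; rw [Finset.mem_Ico]; exact (mem_Bx.mp (hSB (hmem _ x hx).1)).2)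
    rwa [cI2] at this
  have c3 : ((S.filter (cl (0, 1))).card : ℝ) ≤ m * (3 * t + 1) := by
    have := lev_dir hy (S := S.filter (cl (0, 1))) ht (fun x hx => hS x (hmem _ x hx).1)
      (d := (0, 1)) (by norm_num) (fun x hx => (hmem _ x hx).2) (fun x => x.1) (fun x => x.2)
      (by intro x x' h; ext <;> simp only at h ⊢ <;> omega) (I := Finset.Ico b.1 (b.1 + m))
      (by intro x hx; rw [Finset.mem_Ico]; exact (mem_Bx.mp (hSB (hmem _ x hx).1)).1)
    rwa [cI1] at this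
  have c4 : ((S.filter (cl (0, -1))).card : ℝ) ≤ m * (3 * t + 1) := by
    have := lev_dir hy (S := S.filter (cl (0, -1))) ht (fun x hx => hS x (hmem _ x hx).1)
      (d := (0, -1)) (by norm_num) (fun x hx => (hmem _ x hx).2) (fun x => x.1) (fun x => -x.2)
      (by intro x x' h; ext <;> simp only at h ⊢ <;> omega) (I := Finset.Ico b.1 (b.1 + m))
      (by intro x hx; rw [Finset.mem_Ico]; exact (mem_Bx.mp (hSB (hmem _ x hx).1)).1)
    rwa [cI1] at this
  have u1 := Finset.card_le_card cover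
  have u2 := Finset.card_union_le (S.filter (cl (1, 0)) ∪ S.filter (cl (-1, 0)))
    (S.filter (cl (0, 1)) ∪ S.filter (cl (0, -1)))
  have u3 := Finset.card_union_le (S.filter (cl (1, 0))) (S.filter (cl (-1, 0)))
  have u4 := Finset.card_union_le (S.filter (cl (0, 1))) (S.filter (cl (0, -1)))
  have u5 : S.card ≤ (S.filter (cl (1, 0))).card + (S.filter (cl (-1, 0))).card +
      ((S.filter (cl (0, 1))).card + (S.filter (cl (0, -1))).card) := by omega
  have u6 : (S.card : ℝ) ≤ (S.filter (cl (1, 0))).card + (S.filter (cl (-1, 0))).card +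
      ((S.filter (cl (0, 1))).card + (S.filter (cl (0, -1))).card) := by exact_mod_cast u5
  linarith

end H99L
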