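import Pool.Agent.H99.DR.Par

/-!
The largest diameter is of order `n`.
-/

set_option maxHeartbeats 400000

namespace H99L

open Finset

theorem low (n : ℕ) {s : ℕ} (hs : 0 < s) (k : ℕ) (hk : k * (s + 1) ≤ n + 1) (hsn : s ≤ n) :
    Pr hf (RE 0 n 0 n) (fun F => ∀ i < k, ¬ LRc (i * (s + 1)) (i * (s + 1) + s) 0 s F) ≤
      (1/2 : ℝ)^k := by
  induction k with
  | zero =>
    simp only [pow_zero]
    exact Pr_le_one okh _ _
  | succ k ih =>
    have hk' : k * (s + 1) ≤ n + 1 := le_trans (Nat.mul_le_mul_right _ (by omega)) hk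
    have i1 := ih hk'
    have hkz : ((k : ℤ) + 1) * ((s : ℤ) + 1) ≤ n + 1 := by exact_mod_cast hk
    have hkz' : ((k : ℤ) + 1) * ((s : ℤ) + 1) = (k : ℤ) * (s + 1) + s + 1 := by ring
    have hkk : (0 : ℤ) ≤ (k : ℤ) * (s + 1) := by positivity
    have hsz : (s : ℤ) ≤ n := by exact_mod_cast hsn
    set a : ℤ := (k : ℤ) * (s + 1) with ha
    set T1 : Finset Edg := RE 0 (a - 1) 0 s with hT1
    set T2 : Finset Edg := LRE a (a + s) 0 s with hT2
    have hsub1 : T1 ⊆ RE 0 n 0 n := RE_subset le_rfl (by omega) le_rfl hsz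
    have hsub2 : T2 ⊆ RE 0 n 0 n := by
      refine Finset.Subset.trans LRE_subset_RE ?_
      exact RE_subset (by omega) (by omega) le_rfl hsz
    have hd : Disjoint T1 T2 := by
      rw [Finset.disjoint_left]
      rintro ⟨x, y, _ | _⟩ h1 h2
      · rw [hT1, mem_RE_false] at h1
        rw [hT2, mem_LRE_false] at h2
        omega
      · rw [hT1, mem_RE_true] at h1
        rw [hT2, mem_LRE_true] at h2
        omega
    have e1 : Pr hf (RE 0 n 0 n) (fun F => ∀ i < k + 1,
          ¬ LRc (i * (s + 1)) (i * (s + 1) + s) 0 s F) =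
        Pr hf (RE 0 n 0 n) (fun F => (∀ i < k, ¬ LRc (i * (s + 1)) (i * (s + 1) + s) 0 s F) ∧
          ¬ LRc a (a + s) 0 s F) := by
      apply Pr_congr
      intro F _
      constructor
      · intro h
        exact ⟨fun i hi => h i (by omega), h k (by omega)⟩
      · rintro ⟨h, h'⟩ i hi
        rcases Nat.lt_or_ge i k with hlt | hge
        · exact h i hlt
        · have : i = k := by omega
          rw [this]; exact h'
    have i2 := Pr_indep (p := hf)
      (A := fun F => ∀ i < k, ¬ LRc (i * (s + 1)) (i * (s + 1) + s) 0 s F)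
      (B := fun F => ¬ LRc a (a + s) 0 s F) hsub1 hsub2 hd
      (fun F _ => forall_congr' fun i => forall_congr' fun hi => not_congr
        (LRc_local (by
          refine Finset.Subset.trans LRE_subset_RE ?_
          have h1 : ((i : ℤ) + 1) * ((s : ℤ) + 1) ≤ (k : ℤ) * (s + 1) :=
            mul_le_mul_of_nonneg_right (by exact_mod_cast hi) (by positivity)
          have h2 : ((i : ℤ) + 1) * ((s : ℤ) + 1) = (i : ℤ) * (s + 1) + s + 1 := by ring
          have h3 : (0 : ℤ) ≤ (i : ℤ) * (s + 1) := by positivity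
          exact RE_subset (by omega) (by omega) le_rfl le_rfl)))
      (fun F _ => not_congr (LRc_local (Finset.Subset.refl _)))
    rw [e1, i2, Pr_not, pow_succ]
    have hsq : (1/2 : ℝ) ≤ Pr hf (RE 0 n 0 n) (fun F => LRc a (a + s) 0 s F) := by
      have h1 : Pr (fun _ => (1/2 : ℝ)) (RE 0 n 0 n) (LRc a (a + s) 0 s) = hh (1/2) (a + s - a) (s - 0) :=
        pr_LRc (1/2) hsub2
      have h2 : (a + s - a : ℤ) = s := by ring
      rw [h2, sub_zero] at h1
      have h3 := hh_square (s : ℤ) (by exact_mod_cast hs)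
      calc (1/2 : ℝ) ≤ hh (1/2) s s := h3
        _ = _ := h1.symm
    apply mul_le_mul i1
    · linarith
    · have := Pr_le_one okh (RE 0 n 0 n) (fun F => LRc a (a + s) 0 s F)
      linarith
    · positivity

/-- A small largest diameter is unlikely. -/
theorem small_diam {n : ℕ} {ε : ℝ} (hε : 0 < ε) (hn : 1 ≤ ε * n) :
    Pr hf (RE 0 n 0 n) (fun F => ∀ x y, Reach (↑F) x y → ed x y < ε * n) ≤ 4 * ε := by
  by_cases hε1 : 1 / 4 < ε
  · exact (Pr_le_one okh _ _).trans (by linarith)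
  push Not at hε1
  have hn0 : (0 : ℝ) < n := by
    by_contra h
    push Not at h
    have : ε * n ≤ 0 := mul_nonpos_of_nonneg_of_nonpos hε.le h
    linarith
  set s := ⌈ε * n⌉₊ with hs
  have s1 : ε * n ≤ s := Nat.le_ceil _
  have s2 : (s : ℝ) ≤ ε * n + 1 := (Nat.ceil_lt_add_one (by positivity)).le
  have hs0 : 0 < s := by
    have : (0 : ℝ) < s := by linarith
    exact_mod_cast this
  set k := (n + 1) / (s + 1) with hk
  have hk1 : k * (s + 1) ≤ n + 1 := Nat.div_mul_le_self _ _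
  have hk2 : n + 1 < (k + 1) * (s + 1) := by
    have := Nat.lt_mul_div_succ (n + 1) (Nat.succ_pos s)
    rw [hk, mul_comm]
    exact this
  have hsn : s ≤ n := by
    have : (s : ℝ) ≤ n := by
      by_cases h4 : (4 : ℝ) ≤ n
      · nlinarith
      · push Not at h4
        nlinarith
    exact_mod_cast this
  have h1 := low n hs0 k hk1 hsn
  have h2 : Pr hf (RE 0 n 0 n) (fun F => ∀ x y, Reach (↑F) x y → ed x y < ε * n) ≤
      Pr hf (RE 0 n 0 n) (fun F => ∀ i < k, ¬ LRc (i * (s + 1)) (i * (s + 1) + s) 0 s F) := by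
    apply Pr_mono okh
    rintro F _ h i _ ⟨y1, y2, -, -, hr⟩
    have h3 := h _ _ (hr.mono Set.inter_subset_left)
    have h4 : (s : ℝ) ≤ ed ((i * (s + 1) : ℤ), y1) ((i * (s + 1) + s : ℤ), y2) := by
      apply le_of_sq_le_sq _ (ed_nonneg _ _)
      rw [ed_sq']
      push_cast
      nlinarith [sq_nonneg ((y1 : ℝ) - y2)]
    linarith
  refine h2.trans (h1.trans ?_)
  -- (1/2)^k ≤ 1/(k+1) ≤ 4 ε
  have h3 : (k : ℝ) + 1 ≤ 2^k := by
    have := @Nat.lt_two_pow_self k
    exact_mod_cast this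
  have h4 : (n : ℝ) + 1 < ((k : ℝ) + 1) * (s + 1) := by exact_mod_cast hk2
  have h5 : (s : ℝ) + 1 ≤ 3 * (ε * n) := by linarith
  have h6 : (n : ℝ) ≤ ((k : ℝ) + 1) * (3 * (ε * n)) := by
    have : ((k : ℝ) + 1) * (s + 1) ≤ ((k : ℝ) + 1) * (3 * (ε * n)) :=
      mul_le_mul_of_nonneg_left h5 (by positivity)
    linarith
  have h7 : 1 ≤ ((k : ℝ) + 1) * (3 * ε) := by
    have e : ((k : ℝ) + 1) * (3 * (ε * n)) = (((k : ℝ) + 1) * (3 * ε)) * n := by ring
    rw [e] at h6
    by_contra hcon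
    push Not at hcon
    nlinarith
  rw [one_div, inv_pow]
  have h8 : (2^k : ℝ)⁻¹ ≤ ((k : ℝ) + 1)⁻¹ := inv_anti₀ (by positivity) h3
  have h9 : ((k : ℝ) + 1)⁻¹ ≤ 3 * ε := by
    rw [inv_le_iff_one_le_mul₀ (by positivity)]
    linarith
  linarith

end H99L
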