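import Pool.Agent.H99.DR.Expl

/-!
Near ties of the diameters.
-/

set_option maxHeartbeats 400000

namespace H99L

open Finset

/-- `x` is far from the corners of the box. -/
def NotCor (n κ : ℕ) (x : Vtx) : Prop :=
  ∀ c : Vtx, (c.1 = 0 ∨ c.1 = n) → (c.2 = 0 ∨ c.2 = n) → ¬ In c (13 * κ) x

/-- Some diameter of a cluster has length close to `a`, and its ends are free. -/
def FAev (n κ : ℕ) (U : Finset Edg) (a t L : ℝ) (G : Finset Edg) : Prop :=
  ∃ x y, inR 0 n 0 n x ∧ inR 0 n 0 n y ∧ NotCor n κ x ∧ NotCor n κ y ∧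
    Free n (12 * κ) U x ∧ Free n (12 * κ) U y ∧ Tip G x y ∧ L ≤ ed x y ∧ |ed x y - a| ≤ t

/-- The bound for a tip in the bulk. -/
noncomputable def TI (n m : ℕ) (t : ℝ) : ℝ :=
  ((n : ℝ) / m + 1)^2 * (N2 * (4 * m * (3 * t + 1) * (N2 / (m : ℝ)^2)))

/-- The bound for two tips at the boundary. -/
noncomputable def TII (n m κ : ℕ) (t : ℝ) : ℝ :=
  32 * ((n : ℝ) / (12 * m) + 1) * (2 * Real.sqrt (2 * n * (t + 36 * m)) / (12 * m) + 1) *
        (84 * m * N2 / κ)^2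

theorem TI_nonneg (n m : ℕ) {t : ℝ} (ht : 0 ≤ t) : 0 ≤ TI n m t := by
  unfold TI
  have := N2_pos
  positivity

theorem TII_nonneg (n m κ : ℕ) (t : ℝ) : 0 ≤ TII n m κ t := by
  unfold TII
  positivity

theorem near_or_int {n m κ : ℕ} (hmκ : 12 * m ≤ κ) {U : Finset Edg} {x : Vtx}
    (hx : inR 0 n 0 n x) (hc : NotCor n κ x) (hf : Free n (12 * κ) U x) :
    RE (x.1 - 12 * m) (x.1 + 12 * m) (x.2 - 12 * m) (x.2 + 12 * m) ⊆ U ∨
      ∃ s, NearS n (12 * m : ℕ) (11 * κ) s x := by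
  simp only [inR] at hx
  have c1 := hc (0, 0) (Or.inl rfl) (Or.inl rfl)
  have c2 := hc (0, n) (Or.inl rfl) (Or.inr rfl)
  have c3 := hc (n, 0) (Or.inr rfl) (Or.inl rfl)
  have c4 := hc (n, n) (Or.inr rfl) (Or.inr rfl)
  simp only [In] at c1 c2 c3 c4
  have hmκ' : 12 * (m : ℤ) ≤ κ := by exact_mod_cast hmκ
  by_cases h1 : x.1 < 12 * m
  · right
    refine ⟨(true, false), ?_, ?_, ?_, ?_⟩
    · simp only [inR]; omega
    · simp only [In, ctr, along, if_true, Bool.false_eq_true, if_false]; push_cast; omega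
    · simp only [along, if_true]; omega
    · simp only [along, if_true]; omega
  by_cases h2 : n - 12 * m < x.1
  · right
    refine ⟨(true, true), ?_, ?_, ?_, ?_⟩
    · simp only [inR]; omega
    · simp only [In, ctr, along, if_true]; push_cast; omega
    · simp only [along, if_true]; omega
    · simp only [along, if_true]; omega
  by_cases h3 : x.2 < 12 * m
  · right
    refine ⟨(false, false), ?_, ?_, ?_, ?_⟩
    · simp only [inR]; omega
    · simp only [In, ctr, along, Bool.false_eq_true, if_false]; push_cast; omega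
    · simp only [along, Bool.false_eq_true, if_false]; omega
    · simp only [along, Bool.false_eq_true, if_false]; omega
  by_cases h4 : n - 12 * m < x.2
  · right
    refine ⟨(false, true), ?_, ?_, ?_, ?_⟩
    · simp only [inR]; omega
    · simp only [In, ctr, along, if_true, Bool.false_eq_true, if_false]; push_cast; omega
    · simp only [along, Bool.false_eq_true, if_false]; omega
    · simp only [along, Bool.false_eq_true, if_false]; omega
  left
  intro e he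
  apply hf e
  · exact RE_subset (by omega) (by omega) (by omega) (by omega) he
  · exact RE_subset (by omega) (by omega) (by omega) (by omega) he

theorem FA_bound {U : Finset Edg} {n m κ : ℕ} (hU : U ⊆ RE 0 n 0 n) (hm : 5 ≤ m)
    (hmκ : 12 * m ≤ κ) {a t L : ℝ} (ht : 0 ≤ t) (htn : 2 * t ≤ n) (hL : 40 * (κ : ℝ) ≤ L)
    (hL2 : 2 * t + 36 * m ≤ L) :
    Pr hf U (FAev n κ U a t L) ≤ 2 * TI n m t + TII n m κ t := by
  have hTI := TI_nonneg n m ht
  have hTII := TII_nonneg n m κ t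
  have hm0 : (0 : ℝ) < m := by exact_mod_cast (by omega : 0 < m)
  have hmκ' : 12 * (m : ℝ) ≤ κ := by exact_mod_cast hmκ
  have hempty : (a < t + 36 * m ∨ 2 * n < a) → Pr hf U (FAev n κ U a t L) = 0 := by
    intro ha
    unfold Pr
    rw [Ex_congr (g := fun _ => 0), Ex_const]
    intro F _
    apply ind_not_of
    rintro ⟨x, y, hx, hy, -, -, -, -, -, h1, h2⟩
    have h3 := abs_le.mp h2
    rcases ha with ha | ha
    · linarith [h3.2]
    · have : In x (n : ℤ) y := by simp only [In, inR] at hx hy ⊢; omega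
      have h4 := ed_le_of_in this
      push_cast at h4
      linarith [h3.1]
  by_cases ha : a < t + 36 * m ∨ 2 * n < a
  · rw [hempty ha]; linarith
  push Not at ha
  obtain ⟨ha1, ha2⟩ := ha
  have hI := typeI (U := U) (n := n) (m := m) (a := a) (t := t) (L := L) hU hm ht (by linarith)
  have hII := typeII (U := U) (n := n) (κ := κ) (ρ := 12 * m) (a := a) (t := t) (L := L) hU
    (by omega) hmκ (by omega) ht hL (by push_cast; linarith)
  have hII' : 32 * ((n : ℝ) / (12 * m : ℕ) + 1) *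
      (2 * Real.sqrt (a * (t + 3 * (12 * m : ℕ))) / (12 * m : ℕ) + 1) *
        (7 * (12 * m : ℕ) * N2 / κ)^2 ≤ TII n m κ t := by
    unfold TII
    push_cast
    have e1 : (7 * (12 * (m : ℝ)) * N2 / κ) = 84 * m * N2 / κ := by ring
    have e2 : (t + 3 * (12 * (m : ℝ))) = t + 36 * m := by ring
    rw [e1, e2]
    apply mul_le_mul_of_nonneg_right _ (by positivity)
    apply mul_le_mul_of_nonneg_left _ (by positivity)
    have : Real.sqrt (a * (t + 36 * m)) ≤ Real.sqrt (2 * n * (t + 36 * m)) := by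
      apply Real.sqrt_le_sqrt
      apply mul_le_mul_of_nonneg_right ha2 (by positivity)
    gcongr
  set EI : Vtx → Vtx → Finset Edg → Prop := fun x y F =>
    RE (x.1 - 12 * m) (x.1 + 12 * m) (x.2 - 12 * m) (x.2 + 12 * m) ⊆ U ∧
      Tip F x y ∧ L ≤ ed x y ∧ |ed x y - a| ≤ t with hEI
  have s1 : Pr hf U (FAev n κ U a t L) ≤ Pr hf U (fun F => (∃ x y, EI x y F) ∨
      (∃ x y, (∃ s, NearS n (12 * m : ℕ) (11 * κ) s x) ∧ (∃ s, NearS n (12 * m : ℕ) (11 * κ) s y) ∧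
      Free n (12 * κ) U x ∧ Free n (12 * κ) U y ∧
      Tip F x y ∧ L ≤ ed x y ∧ |ed x y - a| ≤ t)) := by
    apply Pr_mono okh
    rintro F _ ⟨x, y, hx, hy, hcx, hcy, hfx, hfy, hT, h1, h2⟩
    rcases near_or_int hmκ hx hcx hfx with k | k
    · exact Or.inl ⟨x, y, k, hT, h1, h2⟩
    · rcases near_or_int hmκ hy hcy hfy with k' | k'
      · left
        exact ⟨y, x, k', hT.symm, by rw [ed_comm]; exact h1, by rw [ed_comm]; exact h2⟩
      · exact Or.inr ⟨x, y, k, k', hfx, hfy, hT, h1, h2⟩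
  refine s1.trans ((Pr_or_le okh U _ _).trans ?_)
  have h1 : Pr hf U (fun F => ∃ x y, EI x y F) ≤ TI n m t := hI
  linarith [hII.trans hII']

/-- The corners of the box. -/
noncomputable def cors (n : ℕ) : Finset Vtx := {(0, 0), (0, (n : ℤ)), ((n : ℤ), 0), ((n : ℤ), (n : ℤ))}

theorem cors_card (n : ℕ) : (cors n).card ≤ 4 := by
  unfold cors
  exact Finset.card_le_four

/-- A cluster joins a neighbourhood of a corner to distance `13 κ 3 ^ K`. -/
def Cor (n κ K : ℕ) (F : Finset Edg) : Prop :=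
  ∃ c ∈ cors n, ∃ u v, In c (13 * κ : ℕ) u ∧ Out c ((13 * κ) * 3^K : ℕ) v ∧ Reach (↑F) u v

theorem pr_Cor {n κ K : ℕ} (hκ : 5 ≤ κ) (S : Finset Edg) : Pr hf S (Cor n κ K) ≤ 4 * lam^K := by
  classical
  unfold Cor
  refine (Pr_exists_le okh S (cors n) (fun c F => ∃ u v, In c (13 * κ : ℕ) u ∧
    Out c ((13 * κ) * 3^K : ℕ) v ∧ Reach (↑F) u v)).trans ?_
  calc ∑ c ∈ cors n, Pr hf S (fun F => ∃ u v, In c (13 * κ : ℕ) u ∧
    Out c ((13 * κ) * 3^K : ℕ) v ∧ Reach (↑F) u v) ≤ ∑ _c ∈ cors n, lam^K :=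
        Finset.sum_le_sum (fun c _ => annK S c (by omega) K)
    _ = (cors n).card * lam^K := by rw [Finset.sum_const, nsmul_eq_mul]
    _ ≤ 4 * lam^K := by
        apply mul_le_mul_of_nonneg_right _ (pow_nonneg lam_nonneg _)
        exact_mod_cast cors_card n

theorem far_out {κ K : ℕ} {c x y : Vtx} {L : ℝ} (hL : 60 * (κ : ℝ) * 3^K ≤ L)
    (hx : In c (13 * κ : ℕ) x) (hxy : L ≤ ed x y) : Out c ((13 * κ) * 3^K : ℕ) y := by
  apply out_of_ed (by positivity)
  have h1 := ed_le_of_in hx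
  have h2 := ed_triangle x c y
  rw [ed_comm x c] at h2
  have h3 : (1 : ℝ) ≤ 3^K := one_le_pow₀ (by norm_num)
  have h4 : (0 : ℝ) ≤ κ := Nat.cast_nonneg _
  push_cast at h1 ⊢
  nlinarith [mul_le_mul_of_nonneg_left h3 h4]

theorem cor_of {n κ K : ℕ} {F : Finset Edg} {x y : Vtx} {L : ℝ} (hL : 60 * (κ : ℝ) * 3^K ≤ L)
    (hx : ¬ NotCor n κ x) (hxy : L ≤ ed x y) (hr : Reach (↑F) x y) : Cor n κ K F := by
  unfold NotCor at hx
  push Not at hx
  obtain ⟨c, h1, h2, h3⟩ := hx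
  refine ⟨c, ?_, x, y, by push_cast; exact h3, far_out hL (by push_cast; exact h3) hxy, hr⟩
  unfold cors
  rcases h1 with h1 | h1 <;> rcases h2 with h2 | h2
  · have : c = (0, 0) := Prod.ext h1 h2
    rw [this]; simp
  · have : c = (0, (n : ℤ)) := Prod.ext h1 h2
    rw [this]; simp
  · have : c = ((n : ℤ), 0) := Prod.ext h1 h2
    rw [this]; simp
  · have : c = ((n : ℤ), (n : ℤ)) := Prod.ext h1 h2
    rw [this]; simp

theorem IsCl_unique {Z Z' : Finset Vtx} {F : Finset Edg} (h : IsCl Z F) (h' : IsCl Z' F) {z : Vtx}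
    (hz : z ∈ Z) (hz' : z ∈ Z') : Z = Z' := by
  ext w
  rw [← h.reach hz, ← h'.reach hz']

theorem reach_inR {n : ℕ} {F : Finset Edg} (hF : F ⊆ RE 0 n 0 n) {x y : Vtx}
    (h : Reach (↑F) x y) (hne : x ≠ y) : inR 0 n 0 n x := by
  rcases Relation.ReflTransGen.cases_head h with h | ⟨z, ⟨e, he, hc⟩, -⟩
  · exact absurd h hne
  · obtain ⟨h1, h2⟩ := RE_ends (hF he)
    rcases hc with ⟨h3, _⟩ | ⟨_, h3⟩
    · rw [← h3]; exact h1
    · rw [← h3]; exact h2

theorem ed_self (x : Vtx) : ed x x = 0 := by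
  unfold ed sq
  simp

/-- The law of the diameters has no atoms. -/
theorem fixed_a {n m κ K : ℕ} (hm : 5 ≤ m) (hmκ : 12 * m ≤ κ) {a t L : ℝ} (ht : 0 ≤ t)
    (htn : 2 * t ≤ n) (hL : 60 * (κ : ℝ) * 3^K ≤ L) (hL2 : 2 * t + 36 * m ≤ L) :
    Pr hf (RE 0 n 0 n) (fun F => ∃ x y, Tip F x y ∧ L ≤ ed x y ∧ |ed x y - a| ≤ t) ≤
      4 * lam^K + (2 * TI n m t + TII n m κ t) := by
  have h3 : (1 : ℝ) ≤ 3^K := one_le_pow₀ (by norm_num)
  have h4 : (60 : ℝ) ≤ κ := by exact_mod_cast (by omega : 60 ≤ κ)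
  have hL' : 40 * (κ : ℝ) ≤ L := by nlinarith
  have hL0 : 0 < L := by linarith
  refine le_trans ?_ (add_le_add (pr_Cor (n := n) (κ := κ) (K := K) (by omega) (RE 0 n 0 n))
    (FA_bound (U := RE 0 n 0 n) (a := a) (Finset.Subset.refl _) hm hmκ ht htn hL' hL2))
  refine le_trans ?_ (Pr_or_le okh _ _ _)
  apply Pr_mono okh
  rintro F hF ⟨x, y, hT, h1, h2⟩
  by_cases hx : NotCor n κ x
  · by_cases hy : NotCor n κ y
    · right
      have hne : x ≠ y := by
        rintro rfl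
        rw [ed_self] at h1; linarith
      exact ⟨x, y, reach_inR hF hT.1 hne, reach_inR hF hT.1.symm hne.symm, hx, hy,
        fun e he _ => he, fun e he _ => he, hT, h1, h2⟩
    · left
      exact cor_of hL hy (by rw [ed_comm]; exact h1) hT.1.symm
  · left
    exact cor_of hL hx h1 hT.1

/-- A tip of `Z` is close to another macroscopic cluster. -/
def NIe (κ K : ℕ) (Z : Finset Vtx) (G : Finset Edg) : Prop :=
  (∃ u v, In (dp Z).1 (13 * κ : ℕ) u ∧ Out (dp Z).1 ((13 * κ) * 3^K : ℕ) v ∧ Reach (↑G) u v) ∨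
  (∃ u v, In (dp Z).2 (13 * κ : ℕ) u ∧ Out (dp Z).2 ((13 * κ) * 3^K : ℕ) v ∧ Reach (↑G) u v)

/-- Repulsion of the diameters, with all parameters. -/
theorem near_tie {n m κ s K : ℕ} (hm : 5 ≤ m) (hmκ : 12 * m ≤ κ) (hs : 5 ≤ s) {t L : ℝ}
    (hsL : 7 * (s : ℝ) ≤ L) (ht : 0 ≤ t) (htn : 2 * t ≤ n) (hL : 60 * (κ : ℝ) * 3^K ≤ L)
    (hL2 : 2 * t + 36 * m ≤ L) :
    Pr hf (RE 0 n 0 n) (fun F => ∃ Z ∈ mac n L, ∃ Z' ∈ mac n L, Z ≠ Z' ∧ IsCl Z F ∧ IsCl Z' F ∧
      |dm Z - dm Z'| ≤ t) ≤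
      4 * lam^K + (2 * lam^K + (2 * TI n m t + TII n m κ t)) * (((n : ℝ) / s + 1)^2 * N2) := by
  classical
  have h3 : (1 : ℝ) ≤ 3^K := one_le_pow₀ (by norm_num)
  have h4 : (60 : ℝ) ≤ κ := by exact_mod_cast (by omega : 60 ≤ κ)
  have hL' : 40 * (κ : ℝ) ≤ L := by nlinarith
  have hL0 : 0 < L := by linarith
  set S := RE 0 (n : ℤ) 0 n with hS
  have hmac := ex_mac S n hs hsL
  have hTI := TI_nonneg n m ht
  have hTII := TII_nonneg n m κ t
  have hlK : 0 ≤ lam^K := pow_nonneg lam_nonneg _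
  -- the three bounds
  have b1 := pr_Cor (n := n) (κ := κ) (K := K) (by omega) S
  have b2 : Pr hf S (fun F => ∃ Z ∈ mac n L, IsCl Z F ∧ NIe κ K Z (F \ EZ S Z)) ≤
      2 * lam^K * (((n : ℝ) / s + 1)^2 * N2) := by
    refine (condCl (S := S) (mac n L) (fun Z G => NIe κ K Z G) (q := 2 * lam^K) ?_).trans
      (mul_le_mul_of_nonneg_left hmac (by positivity))
    intro Z _
    refine (Pr_or_le okh _ _ _).trans ?_
    have i1 := annK (S \ EZ S Z) (dp Z).1 (m := 13 * κ) (by omega) K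
    have i2 := annK (S \ EZ S Z) (dp Z).2 (m := 13 * κ) (by omega) K
    linarith
  have b3 : Pr hf S (fun F => ∃ Z ∈ mac n L, IsCl Z F ∧
      FAev n κ (S \ EZ S Z) (dm Z) t L (F \ EZ S Z)) ≤
      (2 * TI n m t + TII n m κ t) * (((n : ℝ) / s + 1)^2 * N2) := by
    refine (condCl (S := S) (mac n L) (fun Z G => FAev n κ (S \ EZ S Z) (dm Z) t L G)
      (q := 2 * TI n m t + TII n m κ t) ?_).trans
      (mul_le_mul_of_nonneg_left hmac (by positivity))
    intro Z _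
    exact FA_bound Finset.sdiff_subset hm hmκ ht htn hL' hL2
  have hsum : 4 * lam^K + (2 * lam^K + (2 * TI n m t + TII n m κ t)) *
      (((n : ℝ) / s + 1)^2 * N2) = 4 * lam^K + (2 * lam^K * (((n : ℝ) / s + 1)^2 * N2) +
      (2 * TI n m t + TII n m κ t) * (((n : ℝ) / s + 1)^2 * N2)) := by ring
  rw [hsum]
  refine le_trans ?_ (add_le_add b1 (add_le_add b2 b3))
  refine le_trans ?_ (add_le_add_right (Pr_or_le okh _ _ _) _)
  refine le_trans ?_ (Pr_or_le okh _ _ _)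
  apply Pr_mono okh
  rintro F hF ⟨Z, hZ, Z', hZ', hne, hcl, hcl', hd⟩
  obtain ⟨hZne, hZL⟩ := mac_dm hZ
  obtain ⟨hZne', hZL'⟩ := mac_dm hZ'
  obtain ⟨hxZ, hyZ, -⟩ := dp_spec hZne
  obtain ⟨hxZ', hyZ', -⟩ := dp_spec hZne'
  have hT := Tip_of_cl hcl
  set x := (dp Z).1 with hx
  set y := (dp Z).2 with hy
  have hxy : L ≤ ed x y := hZL
  by_cases hcx : NotCor n κ x
  swap
  · exact Or.inl (cor_of hL hcx hxy hT.1)
  by_cases hcy : NotCor n κ y
  swap
  · exact Or.inl (cor_of hL hcy (by rw [ed_comm]; exact hxy) hT.1.symm)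
  right
  have hdisj : ∀ z ∈ Z', z ∉ Z := fun z hz' hz => hne (IsCl_unique hcl hcl' hz hz')
  have hdisj' : ∀ z ∈ Z, z ∉ Z' := fun z hz hz' => hne (IsCl_unique hcl hcl' hz hz')
  have far : ∀ p : Vtx, ∃ v ∈ Z', Out p ((13 * κ) * 3^K : ℕ) v := by
    intro p
    have t1 := ed_triangle (dp Z').1 p (dp Z').2
    rw [ed_comm (dp Z').1 p] at t1
    have hxy' : L ≤ ed (dp Z').1 (dp Z').2 := hZL'
    by_cases hh : L / 2 ≤ ed p (dp Z').1
    · refine ⟨_, hxZ', ?_⟩
      apply out_of_ed (by positivity)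
      push_cast
      nlinarith
    · refine ⟨_, hyZ', ?_⟩
      apply out_of_ed (by positivity)
      push_cast
      push Not at hh
      nlinarith
  by_cases hnx : ∃ z ∈ Z', In x (13 * κ : ℕ) z
  · left
    obtain ⟨z, hz, hzin⟩ := hnx
    obtain ⟨v, hv, hvo⟩ := far x
    refine ⟨Z, hZ, hcl, Or.inl ⟨z, v, hzin, hvo, ?_⟩⟩
    rw [← reach_sdiff hF hcl (hdisj z hz)]
    exact (hcl'.reach hz).mpr hv
  by_cases hny : ∃ z ∈ Z', In y (13 * κ : ℕ) z
  · left
    obtain ⟨z, hz, hzin⟩ := hny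
    obtain ⟨v, hv, hvo⟩ := far y
    refine ⟨Z, hZ, hcl, Or.inr ⟨z, v, hzin, hvo, ?_⟩⟩
    rw [← reach_sdiff hF hcl (hdisj z hz)]
    exact (hcl'.reach hz).mpr hv
  right
  have hZB := (mem_mac.mp hZ).1
  have hxZ'' : x ∉ Z' := hdisj' x hxZ
  have hfree : ∀ p, (¬ ∃ z ∈ Z', In p (13 * κ : ℕ) z) → Free n (12 * κ) (S \ EZ S Z') p := by
    intro p hp e heS heR
    rw [Finset.mem_sdiff, mem_EZ]
    refine ⟨heS, ?_⟩
    rintro ⟨-, h | h⟩
    · apply hp
      refine ⟨_, h, ?_⟩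
      have := (RE_ends heR).1
      simp only [inR, In] at this ⊢
      push_cast
      omega
    · apply hp
      refine ⟨_, h, ?_⟩
      have := (RE_ends heR).2
      simp only [inR, In] at this ⊢
      push_cast
      omega
  refine ⟨Z', hZ', hcl', x, y, mem_bxV.mp (hZB hxZ), mem_bxV.mp (hZB hyZ), hcx, hcy,
    hfree x hnx, hfree y hny, ⟨?_, ?_⟩, hxy, ?_⟩
  · rw [← reach_sdiff hF hcl' hxZ'']
    exact hT.1
  · intro z z' h1 h2
    rw [← reach_sdiff hF hcl' hxZ''] at h1 h2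
    exact hT.2 z z' h1 h2
  · exact hd

end H99L
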