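import Pool.Agent.H99.DR.NT

/-!
Choice of the parameters.
-/

set_option maxHeartbeats 400000

namespace H99L

open Finset

/-- The exponent of the one-arm bound. -/
noncomputable def cz : ℝ := -Real.log lam / Real.log 3

theorem log3_pos : 0 < Real.log 3 := Real.log_pos (by norm_num)

theorem cz_pos : 0 < cz := by
  unfold cz
  apply div_pos _ log3_pos
  have := Real.log_neg lam_pos lam_lt
  linarith

theorem cz_le : cz ≤ 1 := by
  unfold cz
  rw [div_le_one log3_pos]
  have h : (1/3 : ℝ) ≤ lam := by unfold lam; norm_num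
  have h2 : Real.log (1/3) ≤ Real.log lam := Real.log_le_log (by norm_num) h
  have h3 : Real.log (1/3 : ℝ) = - Real.log 3 := by
    rw [one_div, Real.log_inv]
  linarith

theorem lam_eq : lam = (3 : ℝ)^(-cz) := by
  rw [Real.rpow_def_of_pos (by norm_num)]
  have : Real.log 3 * -cz = Real.log lam := by
    unfold cz
    have := log3_pos.ne'
    field_simp
  rw [this, Real.exp_log lam_pos]

theorem lam_pow {X : ℝ} {K : ℕ} (hX : 0 < X) (hK : X < 3^(K+1)) :
    lam^K ≤ (3 / X)^cz := by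
  have h1 : lam^K = ((3 : ℝ)^K)^(-cz) := by
    rw [lam_eq, ← Real.rpow_natCast, ← Real.rpow_mul (by norm_num), ← Real.rpow_natCast (3:ℝ) K,
      ← Real.rpow_mul (by norm_num), mul_comm]
  rw [h1]
  have h2 : X / 3 ≤ 3^K := by
    rw [pow_succ] at hK
    linarith
  have h3 : ((3 : ℝ)^K)^(-cz) ≤ (X / 3)^(-cz) :=
    Real.rpow_le_rpow_of_nonpos (by positivity) h2 (by linarith [cz_pos])
  refine h3.trans (le_of_eq ?_)
  rw [Real.rpow_neg (by positivity), ← Real.inv_rpow (by positivity), inv_div]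

/-- The parameters. -/
structure Par (n : ℕ) (ε η : ℝ) (m κ s K : ℕ) : Prop where
  hm : 5 ≤ m
  hmκ : 12 * m ≤ κ
  hs : 5 ≤ s
  hsL : 7 * (s : ℝ) ≤ ε * n
  htn : 2 * (η^48 * n) ≤ n
  hL : 60 * (κ : ℝ) * 3^K ≤ ε * n
  hL2 : 2 * (η^48 * n) + 36 * m ≤ ε * n
  hlam : lam^K ≤ 180 * η^cz * ε⁻¹
  hTI : TI n m (η^48 * n) ≤ 64 * N2^2 * η^2
  hTII : TII n m κ (η^48 * n) ≤ 30000000 * N2^2 * η^2
  hns : ((n : ℝ) / s + 1)^2 ≤ 225 * ε⁻¹^2

theorem exists_par {n : ℕ} {ε η : ℝ} (hε : 0 < ε) (hε1 : ε ≤ 1) (hη : 0 < η)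
    (hηε : 1000 * η ≤ ε) (hn : 1 ≤ η^48 * n) : ∃ m κ s K, Par n ε η m κ s K := by
  have hη1 : η ≤ 1/1000 := by linarith
  have hn0 : (0 : ℝ) < n := by
    by_contra h
    push Not at h
    have : η^48 * n ≤ 0 := mul_nonpos_of_nonneg_of_nonpos (by positivity) h
    linarith
  have p1 : η^7 ≤ η := by
    calc η^7 ≤ η^1 := pow_le_pow_of_le_one hη.le (by linarith) (by norm_num)
      _ = η := pow_one η
  have p8 : η^8 ≤ η := by
    calc η^8 ≤ η^1 := pow_le_pow_of_le_one hη.le (by linarith) (by norm_num)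
      _ = η := pow_one η
  have p40 : η^40 ≤ η := by
    calc η^40 ≤ η^1 := pow_le_pow_of_le_one hη.le (by linarith) (by norm_num)
      _ = η := pow_one η
  have p48 : η^48 ≤ η^8 := pow_le_pow_of_le_one hη.le (by linarith) (by norm_num)
  have p47 : η^47 ≤ 1 := pow_le_one₀ hη.le (by linarith)
  set N : ℝ := (n : ℝ) with hN
  -- sizes
  have a1 : 1000 ≤ η^8 * N := by
    by_contra h
    push Not at h
    have h1 : η^48 * N = η^40 * (η^8 * N) := by ring
    have h2 : η^40 * (η^8 * N) ≤ η * (η^8 * N) :=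
      mul_le_mul_of_nonneg_right p40 (by positivity)
    have h3 : η * (η^8 * N) ≤ 1/1000 * (η^8 * N) :=
      mul_le_mul_of_nonneg_right hη1 (by positivity)
    linarith
  have a2 : η^8 * N ≤ η * N := mul_le_mul_of_nonneg_right p8 hn0.le
  have a3 : 1000 * (η * N) ≤ ε * N := by nlinarith
  have a4 : η^48 * N ≤ η^8 * N := mul_le_mul_of_nonneg_right p48 hn0.le
  have a5 : 48 * (η^8 * N) ≤ η * N := by
    have h1 : η^8 = η^7 * η := by ring
    have h2 : η^7 ≤ 1/1000 := p1.trans hη1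
    rw [h1, mul_assoc]
    have h3 : η^7 * (η * N) ≤ 1/1000 * (η * N) := mul_le_mul_of_nonneg_right h2 (by positivity)
    have h4 : 0 ≤ η * N := by positivity
    linarith
  set m := ⌈η^8 * N⌉₊ with hm
  set κ := ⌊η * N⌋₊ with hκ
  set s := ⌊ε * N / 7⌋₊ with hs
  have m1 : η^8 * N ≤ m := Nat.le_ceil _
  have m2 : (m : ℝ) ≤ η^8 * N + 1 := (Nat.ceil_lt_add_one (by positivity)).le
  have k1 : (κ : ℝ) ≤ η * N := Nat.floor_le (by positivity)
  have k2 : η * N - 1 ≤ κ := by
    have := Nat.lt_floor_add_one (η * N)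
    linarith
  have s1 : (s : ℝ) ≤ ε * N / 7 := Nat.floor_le (by positivity)
  have s2 : ε * N / 7 - 1 ≤ s := by
    have := Nat.lt_floor_add_one (ε * N / 7)
    linarith
  have m3 : (m : ℝ) ≤ 2 * (η^8 * N) := by linarith
  have k3 : η * N / 2 ≤ κ := by linarith
  have s3 : ε * N / 14 ≤ s := by linarith
  have hm0 : (0 : ℝ) < m := by linarith
  have hκ0 : (0 : ℝ) < κ := by linarith
  have hs0 : (0 : ℝ) < s := by
    have : 0 < ε * N / 14 := by positivity
    linarith
  set X : ℝ := ε / (60 * η) with hX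
  have hX0 : 0 < X := by rw [hX]; positivity
  have hX1 : 1 ≤ X := by
    rw [hX, le_div_iff₀ (by positivity)]; linarith
  obtain ⟨K, hK1, hK2⟩ := exists_nat_pow_near hX1 (by norm_num : (1:ℝ) < 3)
  have hNN := N2_pos
  refine ⟨m, κ, s, K, ?_, ?_, ?_, ?_, ?_, ?_, ?_, ?_, ?_, ?_, ?_⟩
  · have : (5 : ℝ) ≤ m := by linarith
    exact_mod_cast this
  · have : 12 * (m : ℝ) ≤ κ := by linarith
    exact_mod_cast this
  · have : (5 : ℝ) ≤ s := by linarith
    exact_mod_cast this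
  · linarith
  · have : η^48 ≤ 1/2 := by
      have := p48.trans p8
      linarith
    have h2 : η^48 * N ≤ 1/2 * N := mul_le_mul_of_nonneg_right this hn0.le
    linarith
  · have h1 : 60 * (κ : ℝ) * 3^K ≤ 60 * (η * N) * X := by
      apply mul_le_mul _ hK1 (by positivity) (by positivity)
      linarith
    have h2 : 60 * (η * N) * X = ε * N := by
      rw [hX]; field_simp
    linarith
  · linarith
  · refine (lam_pow hX0 hK2).trans ?_
    have e1 : 3 / X = 180 * η * ε⁻¹ := by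
      rw [hX]; field_simp; norm_num
    rw [e1, Real.mul_rpow (by positivity) (by positivity), Real.mul_rpow (by norm_num) hη.le]
    have h1 : (180 : ℝ)^cz ≤ 180 := by
      calc (180 : ℝ)^cz ≤ (180 : ℝ)^(1 : ℝ) :=
            Real.rpow_le_rpow_of_exponent_le (by norm_num) cz_le
        _ = 180 := Real.rpow_one _
    have h2 : (ε⁻¹)^cz ≤ ε⁻¹ := by
      calc (ε⁻¹)^cz ≤ (ε⁻¹)^(1 : ℝ) :=
            Real.rpow_le_rpow_of_exponent_le ((one_le_inv₀ hε).mpr hε1) cz_le
        _ = ε⁻¹ := Real.rpow_one _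
    have h3 : 0 ≤ η^cz := Real.rpow_nonneg hη.le _
    have h4 : 0 ≤ (ε⁻¹)^cz := Real.rpow_nonneg (by positivity) _
    exact mul_le_mul (mul_le_mul_of_nonneg_right h1 h3) h2 h4 (by positivity)
  · -- TI
    unfold TI
    have h1 : N / m ≤ 1 / η^8 := by
      rw [div_le_div_iff₀ hm0 (by positivity)]
      linarith
    have h2 : (1 : ℝ) ≤ 1 / η^8 := by
      rw [le_div_iff₀ (by positivity)]
      linarith [p8.trans hη1]
    have h3 : (N / m + 1)^2 ≤ (2 / η^8)^2 := by
      apply pow_le_pow_left₀ (by positivity)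
      have : 2 / η^8 = 1 / η^8 + 1 / η^8 := by ring
      linarith
    have h4 : 4 * (m : ℝ) * (3 * (η^48 * N) + 1) * (N2 / (m : ℝ)^2) ≤ 16 * η^40 * N2 := by
      have e1 : 4 * (m : ℝ) * (3 * (η^48 * N) + 1) * (N2 / (m : ℝ)^2) =
          4 * (3 * (η^48 * N) + 1) * N2 / m := by
        field_simp
      rw [e1, div_le_iff₀ hm0]
      have e2 : 4 * (3 * (η^48 * N) + 1) * N2 ≤ 16 * (η^48 * N) * N2 := by
        apply mul_le_mul_of_nonneg_right _ hNN.le
        linarith
      have e3 : 16 * (η^48 * N) * N2 = 16 * η^40 * N2 * (η^8 * N) := by ring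
      have e4 : 16 * η^40 * N2 * (η^8 * N) ≤ 16 * η^40 * N2 * m :=
        mul_le_mul_of_nonneg_left m1 (by positivity)
      linarith
    calc (N / m + 1)^2 * (N2 * (4 * m * (3 * (η^48 * N) + 1) * (N2 / (m : ℝ)^2)))
        ≤ (2 / η^8)^2 * (N2 * (16 * η^40 * N2)) := by
          apply mul_le_mul h3 _ (by positivity) (by positivity)
          exact mul_le_mul_of_nonneg_left h4 hNN.le
      _ = 64 * N2^2 * η^24 := by field_simp; ring
      _ ≤ 64 * N2^2 * η^2 := by
          apply mul_le_mul_of_nonneg_left _ (by positivity)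
          exact pow_le_pow_of_le_one hη.le (by linarith) (by norm_num)
  · -- TII
    unfold TII
    have h1 : N / (12 * m) + 1 ≤ 2 / η^8 := by
      have e1 : N / (12 * m) ≤ 1 / η^8 := by
        rw [div_le_div_iff₀ (by positivity) (by positivity)]
        linarith
      have e2 : (1 : ℝ) ≤ 1 / η^8 := by
        rw [le_div_iff₀ (by positivity)]
        linarith [p8.trans hη1]
      have : 2 / η^8 = 1 / η^8 + 1 / η^8 := by ring
      linarith
    have h2 : Real.sqrt (2 * N * (η^48 * N + 36 * m)) ≤ 13 * (η^4 * N) := by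
      apply Real.sqrt_le_iff.mpr
      constructor
      · positivity
      · have e1 : η^48 * N + 36 * m ≤ 73 * (η^8 * N) := by linarith
        calc 2 * N * (η^48 * N + 36 * m) ≤ 2 * N * (73 * (η^8 * N)) :=
              mul_le_mul_of_nonneg_left e1 (by positivity)
          _ = 146 * (η^4 * N)^2 := by ring
          _ ≤ (13 * (η^4 * N))^2 := by nlinarith [sq_nonneg (η^4 * N)]
    have h3 : 2 * Real.sqrt (2 * N * (η^48 * N + 36 * m)) / (12 * m) + 1 ≤ 4 / η^4 := by
      have e1 : 2 * Real.sqrt (2 * N * (η^48 * N + 36 * m)) / (12 * m) ≤ 3 / η^4 := by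
        rw [div_le_div_iff₀ (by positivity) (by positivity)]
        have k1 : 2 * Real.sqrt (2 * N * (η^48 * N + 36 * m)) * η^4 ≤
            2 * (13 * (η^4 * N)) * η^4 := by
          apply mul_le_mul_of_nonneg_right _ (by positivity)
          linarith
        have k2 : 2 * (13 * (η^4 * N)) * η^4 = 26 * (η^8 * N) := by ring
        nlinarith
      have e2 : (1 : ℝ) ≤ 1 / η^4 := by
        rw [le_div_iff₀ (by positivity)]
        have : η^4 ≤ 1 := pow_le_one₀ hη.le (by linarith)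
        linarith
      have : 4 / η^4 = 3 / η^4 + 1 / η^4 := by ring
      linarith
    have h4 : 84 * (m : ℝ) * N2 / κ ≤ 336 * η^7 * N2 := by
      rw [div_le_iff₀ hκ0]
      have e1 : 84 * (m : ℝ) * N2 ≤ 84 * (2 * (η^8 * N)) * N2 := by
        apply mul_le_mul_of_nonneg_right _ hNN.le
        linarith
      have e2 : 84 * (2 * (η^8 * N)) * N2 = 336 * η^7 * N2 * (η * N / 2) := by ring
      have e3 : 336 * η^7 * N2 * (η * N / 2) ≤ 336 * η^7 * N2 * κ :=
        mul_le_mul_of_nonneg_left k3 (by positivity)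
      linarith
    have h5 : (84 * (m : ℝ) * N2 / κ)^2 ≤ (336 * η^7 * N2)^2 :=
      pow_le_pow_left₀ (by positivity) h4 2
    calc 32 * (N / (12 * m) + 1) * (2 * Real.sqrt (2 * N * (η^48 * N + 36 * m)) / (12 * m) + 1) *
        (84 * m * N2 / κ)^2 ≤ 32 * (2 / η^8) * (4 / η^4) * (336 * η^7 * N2)^2 := by
          apply mul_le_mul _ h5 (by positivity) (by positivity)
          apply mul_le_mul _ h3 (by positivity) (by positivity)
          linarith
      _ = 28901376 * N2^2 * η^2 := by field_simp; ring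
      _ ≤ 30000000 * N2^2 * η^2 := by
          apply mul_le_mul_of_nonneg_right _ (by positivity)
          apply mul_le_mul_of_nonneg_right (by norm_num) (by positivity)
  · have h1 : N / s ≤ 14 * ε⁻¹ := by
      rw [div_le_iff₀ hs0]
      have : 14 * ε⁻¹ * s ≥ 14 * ε⁻¹ * (ε * N / 14) :=
        mul_le_mul_of_nonneg_left s3 (by positivity)
      have e2 : 14 * ε⁻¹ * (ε * N / 14) = N := by field_simp
      linarith
    have h2 : 1 ≤ ε⁻¹ := (one_le_inv₀ hε).mpr hε1
    calc (N / s + 1)^2 ≤ (15 * ε⁻¹)^2 := by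
          apply pow_le_pow_left₀ (by positivity)
          linarith
      _ = 225 * ε⁻¹^2 := by ring

/-- The constant. -/
noncomputable def CCst : ℝ := 1000 + 720 + 360 * 225 * N2 + (128 + 30000000) * 225 * N2^3 +
  128 * N2^2 + 30000000 * N2^2

theorem CCst_ge : 1000 ≤ CCst := by
  unfold CCst
  have := N2_pos
  have h1 : 0 ≤ 360 * 225 * N2 := by positivity
  have h2 : 0 ≤ (128 + 30000000) * 225 * N2^3 := by positivity
  have h3 : 0 ≤ 128 * N2^2 := by positivity
  have h4 : 0 ≤ 30000000 * N2^2 := by positivity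
  linarith

theorem eta_pow {η : ℝ} (hη : 0 < η) (hη1 : η ≤ 1) : η^2 ≤ η^cz := by
  calc η^2 = η^(2 : ℝ) := by rw [Real.rpow_ofNat]
    _ ≤ η^cz := Real.rpow_le_rpow_of_exponent_ge hη hη1 (by linarith [cz_le])

theorem trivial_case {ε η : ℝ} (hε : 0 < ε) (hε1 : ε ≤ 1) (hη : 0 < η) (h : ε < 1000 * η) :
    1 ≤ CCst * ε⁻¹^3 * η^cz := by
  have hi : 1 ≤ ε⁻¹ := (one_le_inv₀ hε).mpr hε1
  have h1 : (ε / 1000)^cz ≤ η^cz := by
    apply Real.rpow_le_rpow (by positivity) (by linarith) cz_pos.le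
  have h2 : ε / 1000 ≤ (ε / 1000)^cz := by
    calc ε / 1000 = (ε / 1000)^(1 : ℝ) := (Real.rpow_one _).symm
      _ ≤ (ε / 1000)^cz := Real.rpow_le_rpow_of_exponent_ge (by positivity) (by linarith) cz_le
  have h3 : (1000 : ℝ) * ε⁻¹ ≤ CCst * ε⁻¹^3 := by
    apply mul_le_mul CCst_ge _ (by positivity) (by linarith [CCst_ge])
    calc ε⁻¹ = ε⁻¹^1 := (pow_one _).symm
      _ ≤ ε⁻¹^3 := pow_le_pow_right₀ hi (by norm_num)
  calc (1 : ℝ) = 1000 * ε⁻¹ * (ε / 1000) := by field_simp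
    _ ≤ (CCst * ε⁻¹^3) * η^cz := mul_le_mul h3 (h2.trans h1) (by positivity)
        (by have := CCst_ge; positivity)

/-- Repulsion of the diameters. -/
theorem repulsion {n : ℕ} {ε η : ℝ} (hε : 0 < ε) (hε1 : ε ≤ 1) (hη : 0 < η)
    (hn : 1 ≤ η^48 * n) :
    Pr hf (RE 0 n 0 n) (fun F => ∃ Z ∈ mac n (ε * n), ∃ Z' ∈ mac n (ε * n), Z ≠ Z' ∧
      IsCl Z F ∧ IsCl Z' F ∧ |dm Z - dm Z'| ≤ η^48 * n) ≤ CCst * ε⁻¹^3 * η^cz := by
  by_cases h : ε < 1000 * η
  · exact (Pr_le_one okh _ _).trans (trivial_case hε hε1 hη h)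
  push Not at h
  obtain ⟨m, κ, s, K, P⟩ := exists_par hε hε1 hη h hn
  refine (near_tie P.hm P.hmκ P.hs P.hsL (by positivity) P.htn P.hL P.hL2).trans ?_
  have hN := N2_pos
  have hη1 : η ≤ 1 := by linarith
  have hi : 1 ≤ ε⁻¹ := (one_le_inv₀ hε).mpr hε1
  have he := eta_pow hη hη1
  set Q := η^cz with hQ
  have hQ0 : 0 ≤ Q := Real.rpow_nonneg hη.le _
  set I := ε⁻¹ with hI
  have hI13 : I ≤ I^3 := by
    calc I = I^1 := (pow_one _).symm
      _ ≤ I^3 := pow_le_pow_right₀ hi (by norm_num)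
  have hI23 : I^2 ≤ I^3 := pow_le_pow_right₀ hi (by norm_num)
  have g1 : 4 * lam^K ≤ 720 * (Q * I^3) := by
    have := P.hlam
    have h2 : Q * I ≤ Q * I^3 := mul_le_mul_of_nonneg_left hI13 hQ0
    linarith
  have g2 : 2 * lam^K + (2 * TI n m (η^48 * n) + TII n m κ (η^48 * n)) ≤
      360 * Q * I + (128 + 30000000) * N2^2 * Q := by
    have i1 := P.hlam
    have i2 := P.hTI
    have i3 := P.hTII
    have i4 : 64 * N2^2 * η^2 ≤ 64 * N2^2 * Q := mul_le_mul_of_nonneg_left he (by positivity)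
    have i5 : 30000000 * N2^2 * η^2 ≤ 30000000 * N2^2 * Q :=
      mul_le_mul_of_nonneg_left he (by positivity)
    linarith
  have g3 : (2 * lam^K + (2 * TI n m (η^48 * n) + TII n m κ (η^48 * n))) *
      (((n : ℝ) / s + 1)^2 * N2) ≤
      (360 * Q * I + (128 + 30000000) * N2^2 * Q) * (225 * I^2 * N2) := by
    apply mul_le_mul g2 _ (by positivity) (by positivity)
    exact mul_le_mul_of_nonneg_right P.hns hN.le
  have g4 : (360 * Q * I + (128 + 30000000) * N2^2 * Q) * (225 * I^2 * N2) ≤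
      (360 * 225 * N2 + (128 + 30000000) * 225 * N2^3) * (Q * I^3) := by
    have e1 : (360 * Q * I + (128 + 30000000) * N2^2 * Q) * (225 * I^2 * N2) =
      360 * 225 * N2 * (Q * I^3) + (128 + 30000000) * 225 * N2^3 * (Q * I^2) := by ring
    rw [e1, add_mul]
    have e2 : Q * I^2 ≤ Q * I^3 := mul_le_mul_of_nonneg_left hI23 hQ0
    have e3 : (128 + 30000000) * 225 * N2^3 * (Q * I^2) ≤
        (128 + 30000000) * 225 * N2^3 * (Q * I^3) := mul_le_mul_of_nonneg_left e2 (by positivity)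
    linarith
  have g5 : CCst * I^3 * Q = CCst * (Q * I^3) := by ring
  rw [g5]
  have g6 : (720 + (360 * 225 * N2 + (128 + 30000000) * 225 * N2^3)) * (Q * I^3) ≤
      CCst * (Q * I^3) := by
    apply mul_le_mul_of_nonneg_right _ (by positivity)
    unfold CCst
    have h3 : 0 ≤ 128 * N2^2 := by positivity
    have h4 : 0 ≤ 30000000 * N2^2 := by positivity
    linarith
  linarith

/-- Anti-concentration of the diameters. -/
theorem anticonc {n : ℕ} {ε η : ℝ} (hε : 0 < ε) (hε1 : ε ≤ 1) (hη : 0 < η)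
    (hn : 1 ≤ η^48 * n) (a : ℝ) :
    Pr hf (RE 0 n 0 n) (fun F => ∃ x y, Tip F x y ∧ ε * n ≤ ed x y ∧ |ed x y - a| ≤ η^48 * n) ≤
      CCst * ε⁻¹^3 * η^cz := by
  by_cases h : ε < 1000 * η
  · exact (Pr_le_one okh _ _).trans (trivial_case hε hε1 hη h)
  push Not at h
  obtain ⟨m, κ, s, K, P⟩ := exists_par hε hε1 hη h hn
  refine (fixed_a P.hm P.hmκ (by positivity) P.htn P.hL P.hL2).trans ?_
  have hN := N2_pos
  have hη1 : η ≤ 1 := by linarith
  have hi : 1 ≤ ε⁻¹ := (one_le_inv₀ hε).mpr hε1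
  have he := eta_pow hη hη1
  set Q := η^cz with hQ
  have hQ0 : 0 ≤ Q := Real.rpow_nonneg hη.le _
  set I := ε⁻¹ with hI
  have hI13 : I ≤ I^3 := by
    calc I = I^1 := (pow_one _).symm
      _ ≤ I^3 := pow_le_pow_right₀ hi (by norm_num)
  have hI3 : 1 ≤ I^3 := one_le_pow₀ hi
  have g1 : 4 * lam^K ≤ 720 * (Q * I^3) := by
    have := P.hlam
    have h2 : Q * I ≤ Q * I^3 := mul_le_mul_of_nonneg_left hI13 hQ0
    linarith
  have g2 : 2 * TI n m (η^48 * n) + TII n m κ (η^48 * n) ≤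
      (128 * N2^2 + 30000000 * N2^2) * (Q * I^3) := by
    have i2 := P.hTI
    have i3 := P.hTII
    have i4 : 64 * N2^2 * η^2 ≤ 64 * N2^2 * Q := mul_le_mul_of_nonneg_left he (by positivity)
    have i5 : 30000000 * N2^2 * η^2 ≤ 30000000 * N2^2 * Q :=
      mul_le_mul_of_nonneg_left he (by positivity)
    have i6 : Q ≤ Q * I^3 := le_mul_of_one_le_right hQ0 hI3
    have i7 : (128 * N2^2 + 30000000 * N2^2) * Q ≤ (128 * N2^2 + 30000000 * N2^2) * (Q * I^3) :=
      mul_le_mul_of_nonneg_left i6 (by positivity)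
    linarith
  have g5 : CCst * I^3 * Q = CCst * (Q * I^3) := by ring
  rw [g5]
  have g6 : (720 + (128 * N2^2 + 30000000 * N2^2)) * (Q * I^3) ≤ CCst * (Q * I^3) := by
    apply mul_le_mul_of_nonneg_right _ (by positivity)
    unfold CCst
    have h3 : 0 ≤ 360 * 225 * N2 := by positivity
    have h4 : 0 ≤ (128 + 30000000) * 225 * N2^3 := by positivity
    linarith
  linarith

end H99L
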