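import Pool.Agent.H99.DR.Ann

/-!
The probability that a box contains the tip of a diameter of a cluster.
-/

set_option maxHeartbeats 400000

namespace H99L

open Finset

/-- Squared distance. -/
def sq (u v : Vtx) : ℤ := (u.1 - v.1)^2 + (u.2 - v.2)^2

/-- Some `q ∈ Q` is connected far inside `R`, and it is a farthest vertex of its cluster in `R`
from some `p ∈ P`. -/
def TipEv (R : Finset Edg) (Q P : Finset Vtx) (r : ℤ) (F : Finset Edg) : Prop :=
  ∃ q ∈ Q, ∃ p ∈ P, (∃ z, Out q r z ∧ Reach (↑F ∩ ↑R) q z) ∧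
    ∀ z, Reach (↑F ∩ ↑R) q z → sq z p ≤ sq q p

open Classical in
/-- The part of the box of radius `k` around `c` in `H`. -/
noncomputable def Rg (H : Edg → Prop) (c : Vtx) (k : ℤ) : Finset Edg :=
  (RE (c.1 - k) (c.1 + k) (c.2 - k) (c.2 + k)).filter H

theorem mem_Rg {H : Edg → Prop} {c : Vtx} {k : ℤ} {e : Edg} :
    e ∈ Rg H c k ↔ e ∈ RE (c.1 - k) (c.1 + k) (c.2 - k) (c.2 + k) ∧ H e := by
  classical
  simp only [Rg, Finset.mem_filter]

theorem Rg_mono {H : Edg → Prop} {c c' : Vtx} {k k' : ℤ} (h1 : c.1 - k ≤ c'.1 - k')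
    (h2 : c'.1 + k' ≤ c.1 + k) (h3 : c.2 - k ≤ c'.2 - k') (h4 : c'.2 + k' ≤ c.2 + k) :
    Rg H c' k' ⊆ Rg H c k := by
  rintro ⟨x, y, _ | _⟩ h
  · simp only [mem_Rg, mem_RE_false] at h ⊢; exact ⟨by omega, h.2⟩
  · simp only [mem_Rg, mem_RE_true] at h ⊢; exact ⟨by omega, h.2⟩

/-- Translated tip event. -/
def TipS (R : Finset Edg) (Q P : Finset Vtx) (r : ℤ) (w : Vtx) (F : Finset Edg) : Prop :=
  ∃ q ∈ Q, ∃ p ∈ P, (∃ z, Out (q + w) r z ∧ Reach (↑F ∩ ↑R) (q + w) z) ∧
    ∀ z, Reach (↑F ∩ ↑R) (q + w) z → sq z (p + w) ≤ sq (q + w) (p + w)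

theorem trl_Rg {H : Edg → Prop} {w : Vtx} (hH : ∀ x y b, H (x + w.1, y + w.2, b) ↔ H (x, y, b))
    (c : Vtx) (k : ℤ) : (trl w.1 w.2).mp (Rg H c k) = Rg H (c + w) k := by
  ext ⟨x, y, b⟩
  rw [LSym.mem_mp, trl_φs, mem_Rg, mem_Rg, ← hH (x - w.1) (y - w.2) b, sub_add_cancel,
    sub_add_cancel]
  have : ((x - w.1, y - w.2, b) : Edg) ∈ RE (c.1 - k) (c.1 + k) (c.2 - k) (c.2 + k) ↔
      ((x, y, b) : Edg) ∈ RE ((c + w).1 - k) ((c + w).1 + k) ((c + w).2 - k) ((c + w).2 + k) := by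
    simp only [Prod.fst_add, Prod.snd_add]
    cases b
    · simp only [mem_RE_false]; omega
    · simp only [mem_RE_true]; omega
  rw [this]

theorem TipS_trl {R : Finset Edg} {Q P : Finset Vtx} {r : ℤ} {w : Vtx} {F : Finset Edg} :
    TipS ((trl w.1 w.2).mp R) Q P r w ((trl w.1 w.2).mp F) ↔ TipEv R Q P r F := by
  unfold TipS TipEv
  have hR : ∀ u v : Vtx, Reach (↑((trl w.1 w.2).mp F) ∩ ↑((trl w.1 w.2).mp R)) (u + w) (v + w) ↔
      Reach (↑F ∩ ↑R) u v := by
    intro u v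
    rw [← LSym.image_inter]
    exact (trl w.1 w.2).reach_iff (u := u) (v := v)
  apply exists_congr; intro q
  apply and_congr_right; intro _
  apply exists_congr; intro p
  apply and_congr_right; intro _
  apply and_congr
  · constructor
    · rintro ⟨z, h1, h2⟩
      refine ⟨z - w, ?_, ?_⟩
      · simp only [Out, Prod.fst_add, Prod.snd_add, Prod.fst_sub, Prod.snd_sub] at h1 ⊢; omega
      · rw [← hR, sub_add_cancel]; exact h2
    · rintro ⟨z, h1, h2⟩
      refine ⟨z + w, ?_, (hR _ _).mpr h2⟩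
      simp only [Out, Prod.fst_add, Prod.snd_add] at h1 ⊢; omega
  · have hsq : ∀ u v : Vtx, sq (u + w) (v + w) = sq u v := by
      intro u v; simp only [sq, Prod.fst_add, Prod.snd_add]; ring
    constructor
    · intro h z hz
      have := h (z + w) ((hR _ _).mpr hz)
      rwa [hsq, hsq] at this
    · intro h z hz
      have h1 := h (z - w) (by rw [← hR, sub_add_cancel]; exact hz)
      rw [← hsq, ← hsq q p, sub_add_cancel] at h1
      exact h1

/-- The tip estimate. -/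
theorem tip_gen {H : Edg → Prop} {W Q P : Finset Vtx} {c : Vtx} {k : ℕ} {Nd : ℕ} (hk : 5 ≤ k)
    (hH : ∀ w ∈ W, ∀ x y b, H (x + w.1, y + w.2, b) ↔ H (x, y, b))
    (hQ : ∀ w ∈ W, ∀ q ∈ Q, In c k (q + w)) (hW : ∀ w ∈ W, In (0, 0) k w)
    (hNd : ∀ A ⊆ W, (∀ w ∈ A, ∀ w' ∈ A, ∃ q ∈ Q, ∃ q' ∈ Q, ∃ p ∈ P, ∃ p' ∈ P,
      sq (q' + w') (p + w) ≤ sq (q + w) (p + w) ∧
      sq (q + w) (p' + w') ≤ sq (q' + w') (p' + w')) → A.card ≤ Nd) :
    (W.card : ℝ) * Pr hf (Rg H c (5 * k)) (TipEv (Rg H c (5 * k)) Q P (4 * k)) ≤ Nd * N2 := by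
  classical
  set S := Rg H c (6 * k) with hS
  set M := Rg H c (3 * k) with hM
  set K : Finset Vtx := Finset.Icc (c.1 - k) (c.1 + k) ×ˢ Finset.Icc (c.2 - k) (c.2 + k) with hK
  set B : Set Vtx := {v | Out c (3 * k : ℕ) v} with hB
  have hRw : ∀ w ∈ W, Rg H (c + w) (5 * k) ⊆ S := by
    intro w hw
    have := hW w hw
    apply Rg_mono <;> simp only [In, Prod.fst_add, Prod.snd_add] at this ⊢ <;> omega
  have hMR : ∀ w ∈ W, M ⊆ Rg H (c + w) (5 * k) := by
    intro w hw
    have := hW w hw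
    apply Rg_mono <;> simp only [In, Prod.fst_add, Prod.snd_add] at this ⊢ <;> omega
  have hMS : M ⊆ S := by
    apply Rg_mono <;> omega
  -- all the translated events have the same probability
  have e1 : ∀ w ∈ W, Pr hf S (TipS (Rg H (c + w) (5 * k)) Q P (4 * k) w) =
      Pr hf (Rg H c (5 * k)) (TipEv (Rg H c (5 * k)) Q P (4 * k)) := by
    intro w hw
    have e2 : Pr hf S (TipS (Rg H (c + w) (5 * k)) Q P (4 * k) w) =
        Pr hf (Rg H (c + w) (5 * k)) (TipS (Rg H (c + w) (5 * k)) Q P (4 * k) w) := by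
      apply Pr_local (hRw w hw)
      intro F _
      unfold TipS
      rw [coe_inter_eq (Finset.Subset.refl _)]
    rw [e2, ← trl_Rg (hH w hw), LSym.pr]
    apply Pr_congr
    intro F _
    exact TipS_trl
  have e3 : (W.card : ℝ) * Pr hf (Rg H c (5 * k)) (TipEv (Rg H c (5 * k)) Q P (4 * k)) =
      Ex hf S (fun F => ∑ w ∈ W, ind (TipS (Rg H (c + w) (5 * k)) Q P (4 * k) w F)) := by
    have e2' : ∀ w ∈ W, Ex hf S (fun F => ind (TipS (Rg H (c + w) (5 * k)) Q P (4 * k) w F)) =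
        Pr hf (Rg H c (5 * k)) (TipEv (Rg H c (5 * k)) Q P (4 * k)) := e1
    rw [Ex_sum hf S W (fun w F => ind (TipS (Rg H (c + w) (5 * k)) Q P (4 * k) w F)),
      Finset.sum_congr rfl e2', Finset.sum_const, nsmul_eq_mul]
  rw [e3]
  -- pointwise bound
  have key : ∀ F : Finset Edg, F ⊆ S →
      ∑ w ∈ W, ind (TipS (Rg H (c + w) (5 * k)) Q P (4 * k) w F) ≤
        (Nd : ℝ) * ((NC src tgt K B (↑(F ∩ M) : Set Edg) : ℕ) : ℝ) := by
    intro F _
    set A := W.filter (fun w => TipS (Rg H (c + w) (5 * k)) Q P (4 * k) w F) with hA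
    have c1 : ∑ w ∈ W, ind (TipS (Rg H (c + w) (5 * k)) Q P (4 * k) w F) = (A.card : ℝ) := by
      rw [hA, Finset.card_filter]
      push_cast
      apply Finset.sum_congr rfl
      intro w _
      by_cases h : TipS (Rg H (c + w) (5 * k)) Q P (4 * k) w F
      · rw [ind_of h, if_pos h]
      · rw [ind_not_of h, if_neg h]
    rw [c1]
    have hA' : ∀ w ∈ A, w ∈ W ∧ TipS (Rg H (c + w) (5 * k)) Q P (4 * k) w F := by
      intro w hw
      rw [hA, Finset.mem_filter] at hw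
      exact hw
    choose! q hq using fun w hw => (hA' w hw).2
    set f : Vtx → Set Vtx := fun w => clu src tgt (↑(F ∩ M) : Set Edg) (q w + w) with hf'
    have c2 : A.card ≤ Nd * (A.image f).card := by
      apply Finset.card_le_mul_card_image
      intro C _
      apply hNd
      · exact (Finset.filter_subset _ _).trans (Finset.filter_subset _ _)
      · intro w hw w' hw'
        rw [Finset.mem_filter] at hw hw'
        obtain ⟨p, hp, -, h3⟩ := (hq w hw.1).2
        obtain ⟨p', hp', -, h3'⟩ := (hq w' hw'.1).2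
        have hcl : Reach (↑(F ∩ M) : Set Edg) (q w + w) (q w' + w') := by
          have : q w' + w' ∈ clu src tgt (↑(F ∩ M) : Set Edg) (q w + w) := by
            have h5 : clu src tgt (↑(F ∩ M) : Set Edg) (q w + w) =
              clu src tgt (↑(F ∩ M) : Set Edg) (q w' + w') := hw.2.trans hw'.2.symm
            rw [h5]
            exact Reach.refl _ _
          exact this
        have hsub : ∀ v ∈ W, (↑(F ∩ M) : Set Edg) ⊆ ↑F ∩ ↑(Rg H (c + v) (5 * k)) := by
          intro v hv e he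
          rw [Finset.coe_inter] at he
          exact ⟨he.1, hMR v hv he.2⟩
        exact ⟨q w, (hq w hw.1).1, q w', (hq w' hw'.1).1, p, hp, p', hp',
          h3 _ (hcl.mono (hsub w (hA' w hw.1).1)),
          h3' _ (hcl.symm.mono (hsub w' (hA' w' hw'.1).1))⟩
    have c3 : A.image f ⊆ TC src tgt K B (↑(F ∩ M) : Set Edg) := by
      intro C hC
      rw [Finset.mem_image] at hC
      obtain ⟨w, hw, rfl⟩ := hC
      obtain ⟨hwW, -⟩ := hA' w hw
      obtain ⟨p, hp, ⟨z, hz, hr⟩, -⟩ := (hq w hw).2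
      have hin := hQ w hwW (q w) (hq w hw).1
      have hw0 := hW w hwW
      rw [mem_TC]
      refine ⟨q w + w, ?_, ?_, rfl⟩
      · rw [hK, Finset.mem_product, Finset.mem_Icc, Finset.mem_Icc]
        simp only [In] at hin
        omega
      · obtain ⟨v, k1, k2, k3⟩ := first_exit (a := c.1 - 3 * k) (b := c.1 + 3 * k)
          (c := c.2 - 3 * k) (d := c.2 + 3 * k) (u := q w + w) (v := z)
          (by simp only [In, inR] at hin ⊢; omega) hr
          (by simp only [In, Out] at hin hz ⊢; omega)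
        refine ⟨v, ?_, ?_⟩
        · simp only [hB, Set.mem_setOf_eq, Out, inR] at k1 k2 ⊢
          push_cast
          omega
        · apply k3.mono
          rintro e ⟨⟨h1, h2⟩, h3⟩
          rw [Finset.coe_inter]
          refine ⟨h1, ?_⟩
          rw [Finset.mem_coe, mem_Rg] at h2 ⊢
          exact ⟨by exact_mod_cast h3, h2.2⟩
    have c4 : A.card ≤ Nd * NC src tgt K B (↑(F ∩ M) : Set Edg) :=
      c2.trans (Nat.mul_le_mul_left _ (Finset.card_le_card c3))
    exact_mod_cast c4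
  refine (Ex_mono okh key).trans ?_
  rw [Ex_mul_left]
  apply mul_le_mul_of_nonneg_left _ (Nat.cast_nonneg _)
  have e4 : Ex hf S (fun F => ((NC src tgt K B (↑(F ∩ M) : Set Edg) : ℕ) : ℝ)) =
      Ex hf M (fun F => ((NC src tgt K B (↑(F ∩ M) : Set Edg) : ℕ) : ℝ)) := by
    apply Ex_local hMS
    intro F _
    rw [Finset.inter_assoc, Finset.inter_self]
  have e5 : Ex hf M (fun F => ((NC src tgt K B (↑(F ∩ M) : Set Edg) : ℕ) : ℝ)) =
      Ex hf M (fun F => ((NC src tgt K B (↑F : Set Edg) : ℕ) : ℝ)) := by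
    apply Ex_congr
    intro F hF
    rw [Finset.inter_eq_left.mpr hF]
  rw [e4, e5]
  apply exNC M c hk
  · intro u hu
    rw [hK, Finset.mem_product, Finset.mem_Icc, Finset.mem_Icc] at hu
    simp only [In]
    omega
  · intro v hv
    exact hv

end H99L
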