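import Pool.Agent.H99.DR.Tip

/-!
The tip estimate in the bulk and at a straight boundary.
-/

set_option maxHeartbeats 400000

namespace H99L

open Finset

/-- A set of integers with small pairwise differences is small. -/
theorem card_close {A : Finset ℤ} {D : ℝ} (hD : 0 ≤ D)
    (h : ∀ a ∈ A, ∀ b ∈ A, ((b : ℝ) - a) ≤ D) : (A.card : ℝ) ≤ D + 1 := by
  rcases A.eq_empty_or_nonempty with rfl | hne
  · simp; linarith
  · set a := A.min' hne with ha
    have haA : a ∈ A := A.min'_mem hne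
    have hsub : A ⊆ Finset.Icc a (a + ⌊D⌋) := by
      intro b hb
      rw [Finset.mem_Icc]
      refine ⟨A.min'_le b hb, ?_⟩
      have h1 := h a haA b hb
      have h2 : b - a ≤ ⌊D⌋ := by
        rw [Int.le_floor]
        push_cast
        exact h1
      omega
    have h3 := Finset.card_le_card hsub
    rw [Int.card_Icc] at h3
    have h4 : (0 : ℤ) ≤ ⌊D⌋ := Int.floor_nonneg.mpr hD
    have h5 : (A.card : ℤ) ≤ ⌊D⌋ + 1 := by
      have : ((a + ⌊D⌋ + 1 - a).toNat : ℤ) = ⌊D⌋ + 1 := by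
        rw [Int.toNat_of_nonneg (by omega)]; ring
      have h6 : (A.card : ℤ) ≤ ((a + ⌊D⌋ + 1 - a).toNat : ℤ) := by exact_mod_cast h3
      omega
    have h7 : (A.card : ℝ) ≤ (⌊D⌋ : ℝ) + 1 := by exact_mod_cast h5
    have h8 := Int.floor_le D
    linarith

theorem Rg_true (c : Vtx) (k : ℤ) :
    Rg (fun _ => True) c k = RE (c.1 - k) (c.1 + k) (c.2 - k) (c.2 + k) := by
  ext e
  rw [mem_Rg]
  simp

theorem pr_TipEv {R S : Finset Edg} (h : R ⊆ S) (Q P : Finset Vtx) (r : ℤ) :
    Pr hf S (TipEv R Q P r) = Pr hf R (TipEv R Q P r) := by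
  apply Pr_local h
  intro F _
  unfold TipEv
  rw [coe_inter_eq (Finset.Subset.refl _)]

/-- The tip estimate in the bulk. -/
theorem tip_int (x y : Vtx) {m : ℕ} (hm : 5 ≤ m) :
    Pr hf (Rg (fun _ => True) x (5 * m)) (TipEv (Rg (fun _ => True) x (5 * m)) {x} {y} (4 * m)) ≤
      N2 / (m : ℝ)^2 := by
  set W : Finset Vtx := Finset.Icc 0 (m : ℤ) ×ˢ Finset.Icc 0 (m : ℤ) with hW
  have h := tip_gen (H := fun _ => True) (W := W) (Q := {x}) (P := {y}) (c := x) (k := m) (Nd := 1)
    hm (fun _ _ _ _ _ => Iff.rfl)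
    (by
      intro w hw q hq
      rw [Finset.mem_singleton] at hq
      subst hq
      rw [hW, Finset.mem_product, Finset.mem_Icc, Finset.mem_Icc] at hw
      simp only [In, Prod.fst_add, Prod.snd_add]
      omega)
    (by
      intro w hw
      rw [hW, Finset.mem_product, Finset.mem_Icc, Finset.mem_Icc] at hw
      simp only [In]
      omega)
    (by
      intro A _ hA
      rw [Finset.card_le_one]
      intro w hw w' hw'
      obtain ⟨q, hq, q', hq', p, hp, p', hp', h1, h2⟩ := hA w hw w' hw'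
      rw [Finset.mem_singleton] at hq hq' hp hp'
      subst hq hq' hp hp'
      simp only [sq, Prod.fst_add, Prod.snd_add] at h1 h2
      have h3 : (w'.1 - w.1)^2 + (w'.2 - w.2)^2 ≤ 0 := by nlinarith
      have h4 : w'.1 - w.1 = 0 := by nlinarith [sq_nonneg (w'.1 - w.1), sq_nonneg (w'.2 - w.2)]
      have h5 : w'.2 - w.2 = 0 := by nlinarith [sq_nonneg (w'.1 - w.1), sq_nonneg (w'.2 - w.2)]
      ext
      · omega
      · omega)
  have hc : (W.card : ℝ) = ((m : ℝ) + 1)^2 := by
    rw [hW, Finset.card_product, Int.card_Icc]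
    have : ((m : ℤ) + 1 - 0).toNat = m + 1 := by omega
    rw [this]
    push_cast
    ring
  rw [hc] at h
  have hm' : (0 : ℝ) < m := by exact_mod_cast (by omega : 0 < m)
  have hP := Pr_nonneg okh (Rg (fun _ => True) x (5 * m))
    (TipEv (Rg (fun _ => True) x (5 * m)) {x} {y} (4 * m))
  rw [le_div_iff₀ (by positivity)]
  push_cast at h
  nlinarith [mul_nonneg hP hm'.le]

/-- The arithmetic of two tips of the same cluster. -/
theorem bd_arith {A1 A2 X1 X2 Y1 Y2 t ρ : ℤ} (hρ : 1 ≤ ρ)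
    (h1 : (A1 + X1)^2 + (A2 + X2 + t)^2 ≤ A1^2 + A2^2)
    (h2 : (A1 - Y1)^2 + (A2 - Y2 - t)^2 ≤ (A1 + X1 - Y1)^2 + (A2 + X2 - Y2)^2)
    (bX1 : -(2 * ρ) ≤ X1 ∧ X1 ≤ 2 * ρ) (bX2 : -(2 * ρ) ≤ X2 ∧ X2 ≤ 2 * ρ)
    (bY1 : -(2 * ρ) ≤ Y1 ∧ Y1 ≤ 2 * ρ) (bY2 : -(2 * ρ) ≤ Y2 ∧ Y2 ≤ 2 * ρ) : t ≤ 6 * ρ := by
  by_contra hcon
  push Not at hcon
  have key : t^2 + t * (X2 + Y2) ≤ -(X1 * Y1) - X2 * Y2 := by linarith
  have m1 : -(X1 * Y1) ≤ 4 * ρ^2 := by nlinarith
  have m2 : -(X2 * Y2) ≤ 4 * ρ^2 := by nlinarith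
  have ht : 0 < t := by omega
  have k1 : t * (-(4 * ρ)) ≤ t * (X2 + Y2) := mul_le_mul_of_nonneg_left (by omega) ht.le
  have k2 : t * (6 * ρ) ≤ t * t := mul_le_mul_of_nonneg_left (by omega) ht.le
  have k3 : (6 * ρ) * (2 * ρ) ≤ t * (2 * ρ) := mul_le_mul_of_nonneg_right (by omega) (by omega)
  nlinarith

/-- The tip estimate at a straight boundary with direction `d`. -/
theorem tip_bd {H : Edg → Prop} {d : Vtx} (hd : d = (0, 1) ∨ d = (1, 0))
    (hH : ∀ (j : ℕ) x y b, H (x + j * d.1, y + j * d.2, b) ↔ H (x, y, b))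
    {c c' : Vtx} {κ ρ : ℕ} (hκ : 5 ≤ κ) (hρ : ρ ≤ κ) (hρ1 : 1 ≤ ρ) {Q P : Finset Vtx}
    (hQ : ∀ q ∈ Q, In c ρ q) (hP : ∀ p ∈ P, In c' ρ p) :
    Pr hf (Rg H c (10 * κ)) (TipEv (Rg H c (10 * κ)) Q P (8 * κ)) ≤ 7 * ρ * N2 / κ := by
  classical
  set g : ℕ → Vtx := fun j => ((j : ℤ) * d.1, (j : ℤ) * d.2) with hg
  have ginj : Function.Injective g := by
    intro i j hij
    simp only [hg, Prod.mk.injEq] at hij
    rcases hd with rfl | rfl
    · simpa using hij.2
    · simpa using hij.1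
  set W : Finset Vtx := (Finset.range (κ + 1)).image g with hW
  have memW : ∀ w ∈ W, ∃ j : ℕ, j ≤ κ ∧ g j = w := by
    intro w hw
    rw [hW, Finset.mem_image] at hw
    obtain ⟨j, hj, rfl⟩ := hw
    exact ⟨j, by rw [Finset.mem_range] at hj; omega, rfl⟩
  have h := tip_gen (H := H) (W := W) (Q := Q) (P := P) (c := c) (k := 2 * κ) (Nd := 6 * ρ + 1)
    (by omega)
    (by
      intro w hw x y b
      obtain ⟨j, -, rfl⟩ := memW w hw
      exact hH j x y b)
    (by
      intro w hw q hq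
      obtain ⟨j, hj, rfl⟩ := memW w hw
      have h1 := hQ q hq
      simp only [In, Prod.fst_add, Prod.snd_add, hg] at h1 ⊢
      rcases hd with rfl | rfl
      · simp only; push_cast; omega
      · simp only; push_cast; omega)
    (by
      intro w hw
      obtain ⟨j, hj, rfl⟩ := memW w hw
      simp only [In, hg]
      rcases hd with rfl | rfl
      · simp only; push_cast; omega
      · simp only; push_cast; omega)
    (by
      intro A hAW hA
      set A' : Finset ℤ := ((Finset.range (κ + 1)).filter (fun j => g j ∈ A)).image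
        (fun j : ℕ => (j : ℤ)) with hA'
      have hcard : A.card = A'.card := by
        rw [hA', Finset.card_image_of_injective _ Nat.cast_injective]
        have : A = ((Finset.range (κ + 1)).filter (fun j => g j ∈ A)).image g := by
          ext w
          rw [Finset.mem_image]
          constructor
          · intro hw
            obtain ⟨j, hj, rfl⟩ := memW w (hAW hw)
            exact ⟨j, Finset.mem_filter.mpr ⟨Finset.mem_range.mpr (by omega), hw⟩, rfl⟩
          · rintro ⟨j, hj, rfl⟩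
            exact (Finset.mem_filter.mp hj).2
        conv_lhs => rw [this]
        rw [Finset.card_image_of_injective _ ginj]
      rw [hcard]
      have hclose : ∀ a ∈ A', ∀ b ∈ A', ((b : ℝ) - a) ≤ 6 * (ρ : ℝ) := by
        intro a ha b hb
        rw [hA', Finset.mem_image] at ha hb
        obtain ⟨i, hi, rfl⟩ := ha
        obtain ⟨j, hj, rfl⟩ := hb
        obtain ⟨q, hq, q', hq', p, hp, p', hp', h1, h2⟩ := hA (g i) (Finset.mem_filter.mp hi).2
          (g j) (Finset.mem_filter.mp hj).2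
        have kq := hQ q hq
        have kq' := hQ q' hq'
        have kp := hP p hp
        have kp' := hP p' hp'
        simp only [In] at kq kq' kp kp'
        simp only [sq, hg, Prod.fst_add, Prod.snd_add] at h1 h2
        have hρ0 : (1 : ℤ) ≤ ρ := by exact_mod_cast hρ1
        have hle : (j : ℤ) - i ≤ 6 * (ρ : ℤ) := by
          rcases hd with rfl | rfl
          · simp only [mul_zero, mul_one, add_zero] at h1 h2
            refine bd_arith (A1 := q.1 - p.1) (A2 := q.2 - p.2) (X1 := q'.1 - q.1)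
              (X2 := q'.2 - q.2) (Y1 := p'.1 - p.1) (Y2 := p'.2 - p.2) hρ0 ?_ ?_ ?_ ?_ ?_ ?_
            · convert h1 using 2 <;> ring
            · convert h2 using 2 <;> ring
            · omega
            · omega
            · omega
            · omega
          · simp only [mul_zero, mul_one, add_zero] at h1 h2
            refine bd_arith (A1 := q.2 - p.2) (A2 := q.1 - p.1) (X1 := q'.2 - q.2)
              (X2 := q'.1 - q.1) (Y1 := p'.2 - p.2) (Y2 := p'.1 - p.1) hρ0 ?_ ?_ ?_ ?_ ?_ ?_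
            · rw [add_comm, add_comm ((q.2 - p.2)^2)]
              convert h1 using 2 <;> ring
            · rw [add_comm, add_comm ((q.2 - p.2 + (q'.2 - q.2) - (p'.2 - p.2))^2)]
              convert h2 using 2 <;> ring
            · omega
            · omega
            · omega
            · omega
        have : ((j : ℤ) : ℝ) - (i : ℤ) ≤ 6 * (ρ : ℝ) := by exact_mod_cast hle
        exact this
      have h9 := card_close (by positivity) hclose
      exact_mod_cast h9)
  have hc : (W.card : ℝ) = (κ : ℝ) + 1 := by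
    rw [hW, Finset.card_image_of_injective _ ginj, Finset.card_range]
    push_cast; ring
  have e1 : (5 * ((2 * κ : ℕ) : ℤ)) = 10 * (κ : ℤ) := by push_cast; ring
  have e2 : (4 * ((2 * κ : ℕ) : ℤ)) = 8 * (κ : ℤ) := by push_cast; ring
  rw [hc, e1, e2] at h
  have hκ' : (0 : ℝ) < κ := by exact_mod_cast (by omega : 0 < κ)
  have hρ' : (1 : ℝ) ≤ ρ := by exact_mod_cast hρ1
  have hPr := Pr_nonneg okh (Rg H c (10 * κ)) (TipEv (Rg H c (10 * κ)) Q P (8 * κ))
  have hN := N2_pos
  rw [le_div_iff₀ hκ']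
  push_cast at h
  nlinarith [mul_nonneg hN.le (by linarith : (0:ℝ) ≤ ρ - 1)]

end H99L
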