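import Pool.Agent.H99.DR.Lev

/-!
A diameter with one tip in the bulk.
-/

set_option maxHeartbeats 400000

namespace H99L

open Finset

/-- `x, y` are the two ends of a diameter of a cluster. -/
def Tip (F : Finset Edg) (x y : Vtx) : Prop :=
  Reach (↑F) x y ∧ ∀ z z', Reach (↑F) x z → Reach (↑F) x z' → sq z z' ≤ sq x y

theorem Tip.symm {F : Finset Edg} {x y : Vtx} (h : Tip F x y) : Tip F y x := by
  refine ⟨h.1.symm, fun z z' h1 h2 => ?_⟩
  rw [sq_comm y x]
  exact h.2 z z' (h.1.trans h1) (h.1.trans h2)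

theorem RE_ends {a b c d : ℤ} {e : Edg} (h : e ∈ RE a b c d) :
    inR a b c d (src e) ∧ inR a b c d (tgt e) := by
  obtain ⟨x, y, _ | _⟩ := e
  · rw [mem_RE_false] at h
    simp only [inR, src_mk, tgt_false]
    omega
  · rw [mem_RE_true] at h
    simp only [inR, src_mk, tgt_true]
    omega

/-- A path ending in a rectangle reaches it from outside. -/
theorem entrance {G : Set Edg} {a b c d : ℤ} {y x : Vtx} (h : Reach G y x)
    (hx : inR a b c d x) : ∃ w, inR a b c d w ∧ Reach (G \ ↑(RE a b c d)) y w := by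
  have key : ∀ z, Reach G y z → (∃ w, inR a b c d w ∧ Reach (G \ ↑(RE a b c d)) y w) ∨
      Reach (G \ ↑(RE a b c d)) y z := by
    intro z hz
    induction hz with
    | refl => exact Or.inr (Reach.refl _ _)
    | @tail z z' _ hs ih =>
      rcases ih with ih | ih
      · exact Or.inl ih
      · obtain ⟨e, heG, hcase⟩ := hs
        by_cases he : e ∈ RE a b c d
        · left
          obtain ⟨h1, h2⟩ := RE_ends he
          refine ⟨z, ?_, ih⟩
          rcases hcase with ⟨h3, _⟩ | ⟨_, h3⟩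
          · rw [← h3]; exact h1
          · rw [← h3]; exact h2
        · right
          exact ih.trans (Adj.reach ⟨e, ⟨heG, by exact_mod_cast he⟩, hcase⟩)
  rcases key x h with h1 | h1
  · exact h1
  · exact ⟨x, hx, h1⟩

theorem out_of_ed {c v : Vtx} {k : ℤ} (hk : 0 ≤ k) (h : (3/2 : ℝ) * k ≤ ed c v) : Out c k v := by
  by_contra hcon
  simp only [Out, not_or, not_le] at hcon
  obtain ⟨h1, h2, h3, h4⟩ := hcon
  have hsq : sq c v ≤ 2 * k^2 := by
    unfold sq
    have e1 : (c.1 - v.1)^2 ≤ k^2 := by apply sq_le_sq' <;> omega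
    have e2 : (c.2 - v.2)^2 ≤ k^2 := by apply sq_le_sq' <;> omega
    linarith
  have h5 := ed_sq c v
  have h6 : ((sq c v : ℤ) : ℝ) ≤ 2 * (k : ℝ)^2 := by exact_mod_cast hsq
  have hk' : (0 : ℝ) ≤ k := by exact_mod_cast hk
  have h7 : ((3/2 : ℝ) * k)^2 ≤ (ed c v)^2 := pow_le_pow_left₀ (by positivity) h 2
  have h8 : (k : ℝ)^2 ≤ 0 := by nlinarith
  have h9 : (k : ℝ) = 0 := by nlinarith
  have h10 : k = 0 := by exact_mod_cast h9
  omega

theorem ed_le_of_in {c v : Vtx} {k : ℤ} (h : In c k v) : ed c v ≤ (3/2 : ℝ) * k := by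
  simp only [In] at h
  have hk : 0 ≤ k := by omega
  have hk' : (0 : ℝ) ≤ k := by exact_mod_cast hk
  have hsq : sq c v ≤ 2 * k^2 := by
    unfold sq
    have e1 : (c.1 - v.1)^2 ≤ k^2 := by apply sq_le_sq' <;> omega
    have e2 : (c.2 - v.2)^2 ≤ k^2 := by apply sq_le_sq' <;> omega
    linarith
  have h6 : ((sq c v : ℤ) : ℝ) ≤ 2 * (k : ℝ)^2 := by exact_mod_cast hsq
  apply le_of_sq_le_sq _ (by positivity)
  rw [ed_sq]
  nlinarith

theorem clu_finite (A : Finset Edg) (v : Vtx) : (clu src tgt (↑A : Set Edg) v).Finite := by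
  classical
  apply Set.Finite.subset (({v} ∪ (A.image src ∪ A.image tgt) : Finset Vtx).finite_toSet)
  intro w hw
  have hw' : Reach (↑A) v w := hw
  rw [Finset.mem_coe, Finset.mem_union, Finset.mem_union]
  induction hw' with
  | refl => left; simp
  | @tail z z' _ hs _ =>
    right
    obtain ⟨e, he, hcase⟩ := hs
    rw [Finset.mem_image, Finset.mem_image]
    rcases hcase with ⟨_, h⟩ | ⟨h, _⟩
    · right; exact ⟨e, by exact_mod_cast he, h⟩
    · left; exact ⟨e, by exact_mod_cast he, h⟩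

theorem Rg_true_sub {x : Vtx} {k : ℤ} {a b c d : ℤ} (h1 : a ≤ x.1 - k) (h2 : x.1 + k ≤ b)
    (h3 : c ≤ x.2 - k) (h4 : x.2 + k ≤ d) : Rg (fun _ => True) x k ⊆ RE a b c d := by
  rw [Rg_true]
  rintro ⟨x0, y0, _ | _⟩ h
  · simp only [mem_RE_false] at h ⊢; omega
  · simp only [mem_RE_true] at h ⊢; omega

/-- One coarse box. -/
theorem typeI_box {U : Finset Edg} {b : Vtx} {m : ℕ} (hm : 5 ≤ m)
    (hI : RE (b.1 - 5 * m) (b.1 + 6 * m) (b.2 - 5 * m) (b.2 + 6 * m) ⊆ U) {a t L : ℝ}
    (ht : 0 ≤ t) (hL : 40 * (m : ℝ) ≤ L) :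
    Pr hf U (fun F => ∃ x y, x ∈ Bx b m ∧ Tip F x y ∧ L ≤ ed x y ∧ |ed x y - a| ≤ t) ≤
      N2 * (4 * m * (3 * t + 1) * (N2 / (m : ℝ)^2)) := by
  classical
  set I := RE (b.1 - 5 * m) (b.1 + 6 * m) (b.2 - 5 * m) (b.2 + 6 * m) with hIdef
  set O := U \ I with hO
  set E : Finset Edg → Prop := fun F => ∃ x y, x ∈ Bx b m ∧ Tip F x y ∧ L ≤ ed x y ∧
    |ed x y - a| ≤ t with hE
  have hUO : U = O ∪ I := by rw [hO, Finset.sdiff_union_of_subset hI]
  have hd : Disjoint O I := Finset.sdiff_disjoint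
  have e0 : Pr hf U E = Ex hf O (fun A => Pr hf I (fun B => E (A ∪ B))) := by
    conv_lhs => rw [hUO]
    unfold Pr
    rw [Ex_union hd]
  rw [e0]
  set K : Finset Vtx := Finset.Icc (b.1 - 6 * m) (b.1 + 6 * m) ×ˢ
    Finset.Icc (b.2 - 6 * m) (b.2 + 6 * m) with hK
  set Bd : Set Vtx := {v | Out b (3 * (6 * m) : ℕ) v} with hBd
  have hm0 : (0 : ℝ) < m := by exact_mod_cast (by omega : 0 < m)
  have hN := N2_pos
  set G : ℝ := 4 * m * (3 * t + 1) * (N2 / (m : ℝ)^2) with hG
  have hG0 : 0 ≤ G := by rw [hG]; positivity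
  have key : ∀ A : Finset Edg, A ⊆ O → Pr hf I (fun B => E (A ∪ B)) ≤
      ((NC src tgt K Bd (↑A : Set Edg) : ℕ) : ℝ) * G := by
    intro A hA
    -- farthest points
    have hfar : ∀ T ∈ TC src tgt K Bd (↑A : Set Edg), ∃ y' : Vtx → Vtx,
        ∀ x, y' x ∈ T ∧ ∀ z ∈ T, ed x z ≤ ed x (y' x) := by
      intro T hT
      obtain ⟨v, -, -, rfl⟩ := mem_TC.mp hT
      have hfin := clu_finite A v
      have hne : (clu src tgt (↑A : Set Edg) v).Nonempty := ⟨v, Reach.refl _ _⟩
      have h1 : ∀ x, ∃ y ∈ clu src tgt (↑A : Set Edg) v,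
          ∀ z ∈ clu src tgt (↑A : Set Edg) v, ed x z ≤ ed x y := fun x =>
        Set.exists_max_image _ (fun z => ed x z) hfin hne
      choose y' hy' using h1
      exact ⟨y', hy'⟩
    choose! y' hy' using hfar
    set ST : Set Vtx → Finset Vtx := fun T => (Bx b m).filter (fun x => |ed x (y' T x) - a| ≤ t)
      with hST
    have u1 : Pr hf I (fun B => E (A ∪ B)) ≤ Pr hf I (fun B =>
        ∃ T ∈ TC src tgt K Bd (↑A : Set Edg), ∃ x ∈ ST T,
          TipEv (Rg (fun _ => True) x (5 * m)) {x} {y' T x} (4 * m) B) := by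
      apply Pr_mono okh
      rintro B hB ⟨x, y, hx, hT, hLxy, hat⟩
      rw [mem_Bx] at hx
      have hOx : Out x (19 * m : ℕ) y := by
        apply out_of_ed (by positivity)
        push_cast
        linarith
      have hOb : Out b (18 * m : ℕ) y := by
        simp only [Out] at hOx ⊢
        push_cast at hOx ⊢
        omega
      have hinx : inR (b.1 - 5 * m) (b.1 + 6 * m) (b.2 - 5 * m) (b.2 + 6 * m) x := by
        simp only [inR]; omega
      obtain ⟨w, hw1, hw2⟩ := entrance hT.1.symm hinx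
      have hAI : ∀ e, e ∈ A → e ∉ I := fun e he => (Finset.mem_sdiff.mp (hA he)).2
      have hw3 : Reach (↑A) y w := by
        apply hw2.mono
        rintro e ⟨h1, h2⟩
        rw [Finset.mem_coe, Finset.mem_union] at h1
        rcases h1 with h1 | h1
        · exact h1
        · exact absurd (hB h1) h2
      have hTC : clu src tgt (↑A : Set Edg) y ∈ TC src tgt K Bd (↑A : Set Edg) := by
        rw [mem_TC]
        refine ⟨w, ?_, ⟨y, ?_, hw3.symm⟩, clu_eq hw3.symm⟩
        · rw [hK, Finset.mem_product, Finset.mem_Icc, Finset.mem_Icc]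
          simp only [inR] at hw1
          omega
        · simp only [hBd, Set.mem_ofPred_eq]
          simp only [Out] at hOb ⊢
          push_cast at hOb ⊢
          omega
      set T := clu src tgt (↑A : Set Edg) y with hTdef
      have hsub : (↑A : Set Edg) ⊆ ↑(A ∪ B) := by
        rw [Finset.coe_union]; exact Set.subset_union_left
      obtain ⟨hy1, hy2⟩ := hy' T hTC x
      have hyT : y ∈ T := Reach.refl _ _
      have hRy : Reach (↑(A ∪ B)) x (y' T x) := by
        have h1 : Reach (↑A) y (y' T x) := hy1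
        exact hT.1.trans (h1.mono hsub)
      have le1 : sq x (y' T x) ≤ sq x y := hT.2 x _ (Reach.refl _ _) hRy
      have le2 : sq x y ≤ sq x (y' T x) := ed_le_iff.mp (hy2 y hyT)
      have heq : sq x (y' T x) = sq x y := le_antisymm le1 le2
      have heq' : ed x (y' T x) = ed x y := by unfold ed; rw [heq]
      refine ⟨T, hTC, x, ?_, x, Finset.mem_singleton_self _, y' T x,
        Finset.mem_singleton_self _, ?_, ?_⟩
      · simp only [hST, Finset.mem_filter]
        refine ⟨mem_Bx.mpr hx, ?_⟩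
        rw [heq']; exact hat
      · obtain ⟨v, k1, k2, k3⟩ := first_exit (a := x.1 - 4 * m) (b := x.1 + 4 * m)
          (c := x.2 - 4 * m) (d := x.2 + 4 * m) (u := x) (v := y)
          (by simp only [inR]; omega) hT.1
          (by simp only [Out] at hOx; push_cast at hOx; omega)
        refine ⟨v, ?_, ?_⟩
        · simp only [Out, inR] at k1 k2 ⊢
          omega
        · apply k3.mono
          rintro e ⟨h1, h2⟩
          have heI : e ∈ I := by
            obtain ⟨x0, y0, _ | _⟩ := e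
            · simp only [Finset.mem_coe, mem_RE_false, hIdef] at h2 ⊢; omega
            · simp only [Finset.mem_coe, mem_RE_true, hIdef] at h2 ⊢; omega
          have heR : e ∈ Rg (fun _ => True) x (5 * m) := by
            rw [Rg_true]
            obtain ⟨x0, y0, _ | _⟩ := e
            · simp only [Finset.mem_coe, mem_RE_false] at h2 ⊢; omega
            · simp only [Finset.mem_coe, mem_RE_true] at h2 ⊢; omega
          rw [Finset.mem_coe, Finset.mem_union] at h1
          rcases h1 with h1 | h1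
          · exact absurd heI (hAI e h1)
          · exact ⟨by exact_mod_cast h1, by exact_mod_cast heR⟩
      · intro z hz
        have hz' : Reach (↑(A ∪ B)) x z := by
          apply hz.mono
          rintro e ⟨h1, -⟩
          rw [Finset.coe_union]
          exact Or.inr h1
        rw [heq]
        exact hT.2 z _ hz' hRy
    refine u1.trans ?_
    refine (Pr_exists_le okh I (TC src tgt K Bd (↑A : Set Edg)) (fun T B => ∃ x ∈ ST T,
      TipEv (Rg (fun _ => True) x (5 * m)) {x} {y' T x} (4 * m) B)).trans ?_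
    have u2 : ∀ T ∈ TC src tgt K Bd (↑A : Set Edg), Pr hf I (fun B => ∃ x ∈ ST T,
        TipEv (Rg (fun _ => True) x (5 * m)) {x} {y' T x} (4 * m) B) ≤ G := by
      intro T hT
      refine (Pr_exists_le okh I (ST T) (fun x B =>
        TipEv (Rg (fun _ => True) x (5 * m)) {x} {y' T x} (4 * m) B)).trans ?_
      have u3 : ∀ x ∈ ST T, Pr hf I
          (TipEv (Rg (fun _ => True) x (5 * m)) {x} {y' T x} (4 * m)) ≤ N2 / (m : ℝ)^2 := by
        intro x hx
        have hx' := mem_Bx.mp (Finset.mem_filter.mp hx).1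
        rw [pr_TipEv (Rg_true_sub (by omega) (by omega) (by omega) (by omega))]
        exact tip_int x (y' T x) hm
      calc ∑ x ∈ ST T, Pr hf I (TipEv (Rg (fun _ => True) x (5 * m)) {x} {y' T x} (4 * m))
          ≤ ∑ _x ∈ ST T, N2 / (m : ℝ)^2 := Finset.sum_le_sum u3
        _ = (ST T).card * (N2 / (m : ℝ)^2) := by rw [Finset.sum_const, nsmul_eq_mul]
        _ ≤ 4 * m * (3 * t + 1) * (N2 / (m : ℝ)^2) := by
            apply mul_le_mul_of_nonneg_right _ (by positivity)
            exact lev (hy' T hT) b m ht (Finset.filter_subset _ _)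
              (fun x hx => (Finset.mem_filter.mp hx).2)
    calc ∑ T ∈ TC src tgt K Bd (↑A : Set Edg), Pr hf I (fun B => ∃ x ∈ ST T,
        TipEv (Rg (fun _ => True) x (5 * m)) {x} {y' T x} (4 * m) B)
        ≤ ∑ _T ∈ TC src tgt K Bd (↑A : Set Edg), G := Finset.sum_le_sum u2
      _ = ((NC src tgt K Bd (↑A : Set Edg) : ℕ) : ℝ) * G := by
          rw [Finset.sum_const, nsmul_eq_mul]; rfl
  refine (Ex_mono okh key).trans ?_
  rw [Ex_mul_right]
  apply mul_le_mul_of_nonneg_right _ hG0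
  apply exNC O b (m := 6 * m) (by omega)
  · intro u hu
    rw [hK, Finset.mem_product, Finset.mem_Icc, Finset.mem_Icc] at hu
    simp only [In]
    push_cast
    omega
  · intro v hv
    exact hv

/-- The grid of coarse boxes. -/
noncomputable def grid (n m : ℕ) : Finset Vtx :=
  (Finset.range (n / m + 1) ×ˢ Finset.range (n / m + 1)).image
    (fun p => ((m : ℤ) * (p.1 : ℤ), (m : ℤ) * (p.2 : ℤ)))

theorem grid_card (n m : ℕ) : (grid n m).card ≤ (n / m + 1)^2 := by
  unfold grid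
  refine Finset.card_image_le.trans ?_
  rw [Finset.card_product, Finset.card_range, pow_two]

theorem grid_cover {n m : ℕ} (hm : 0 < m) {x : Vtx} (h1 : 0 ≤ x.1 ∧ x.1 ≤ n)
    (h2 : 0 ≤ x.2 ∧ x.2 ≤ n) : ∃ b ∈ grid n m, x ∈ Bx b m := by
  have hm' : (0 : ℤ) < m := by exact_mod_cast hm
  refine ⟨((m : ℤ) * (x.1 / m), (m : ℤ) * (x.2 / m)), ?_, ?_⟩
  · unfold grid
    rw [Finset.mem_image]
    have q1 : 0 ≤ x.1 / m := Int.ediv_nonneg h1.1 hm'.le
    have q2 : 0 ≤ x.2 / m := Int.ediv_nonneg h2.1 hm'.le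
    refine ⟨((x.1 / m).toNat, (x.2 / m).toNat), ?_, ?_⟩
    · rw [Finset.mem_product, Finset.mem_range, Finset.mem_range]
      have r1 : x.1 / m ≤ ((n / m : ℕ) : ℤ) := by
        push_cast
        exact Int.ediv_le_ediv hm' h1.2
      have r2 : x.2 / m ≤ ((n / m : ℕ) : ℤ) := by
        push_cast
        exact Int.ediv_le_ediv hm' h2.2
      simp only
      omega
    · simp only
      rw [Int.toNat_of_nonneg q1, Int.toNat_of_nonneg q2]
  · rw [mem_Bx]
    have a1 := Int.emod_nonneg x.1 hm'.ne'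
    have a2 := Int.emod_lt_of_pos x.1 hm'
    have a3 := Int.emod_nonneg x.2 hm'.ne'
    have a4 := Int.emod_lt_of_pos x.2 hm'
    have b1 := Int.mul_ediv_add_emod x.1 m
    have b2 := Int.mul_ediv_add_emod x.2 m
    simp only
    omega

/-- A diameter with one tip in the bulk and given length is unlikely. -/
theorem typeI {U : Finset Edg} {n m : ℕ} (hU : U ⊆ RE 0 n 0 n) (hm : 5 ≤ m) {a t L : ℝ}
    (ht : 0 ≤ t) (hL : 40 * (m : ℝ) ≤ L) :
    Pr hf U (fun F => ∃ x y, RE (x.1 - 12 * m) (x.1 + 12 * m) (x.2 - 12 * m) (x.2 + 12 * m) ⊆ U ∧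
      Tip F x y ∧ L ≤ ed x y ∧ |ed x y - a| ≤ t) ≤
      ((n : ℝ) / m + 1)^2 * (N2 * (4 * m * (3 * t + 1) * (N2 / (m : ℝ)^2))) := by
  classical
  have hm0 : (0 : ℝ) < m := by exact_mod_cast (by omega : 0 < m)
  have hN := N2_pos
  set G : ℝ := N2 * (4 * m * (3 * t + 1) * (N2 / (m : ℝ)^2)) with hG
  have hG0 : 0 ≤ G := by rw [hG]; positivity
  set Q : Vtx → Finset Edg → Prop := fun b F => (∃ x y, x ∈ Bx b m ∧
      RE (x.1 - 12 * m) (x.1 + 12 * m) (x.2 - 12 * m) (x.2 + 12 * m) ⊆ U ∧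
      Tip F x y ∧ L ≤ ed x y ∧ |ed x y - a| ≤ t) with hQ
  have s1 : Pr hf U (fun F => ∃ x y,
      RE (x.1 - 12 * m) (x.1 + 12 * m) (x.2 - 12 * m) (x.2 + 12 * m) ⊆ U ∧
      Tip F x y ∧ L ≤ ed x y ∧ |ed x y - a| ≤ t) ≤ Pr hf U (fun F => ∃ b ∈ grid n m, Q b F) := by
    apply Pr_mono okh
    rintro F _ ⟨x, y, h1, h2, h3, h4⟩
    have k1 : ((x.1 - 12 * m, x.2, true) : Edg) ∈ RE 0 n 0 n := hU (h1 (by
      rw [mem_RE_true]; omega))
    have k2 : ((x.1 + 12 * m - 1, x.2, true) : Edg) ∈ RE 0 n 0 n := hU (h1 (by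
      rw [mem_RE_true]; omega))
    rw [mem_RE_true] at k1 k2
    obtain ⟨b, hb, hxb⟩ := grid_cover (n := n) (m := m) (by omega) (x := x) (by omega) (by omega)
    exact ⟨b, hb, x, y, hxb, h1, h2, h3, h4⟩
  refine s1.trans ?_
  refine (Pr_exists_le okh U (grid n m) Q).trans ?_
  have s2 : ∀ b ∈ grid n m, Pr hf U (Q b) ≤ G := by
    intro b _
    by_cases hI : RE (b.1 - 5 * m) (b.1 + 6 * m) (b.2 - 5 * m) (b.2 + 6 * m) ⊆ U
    · refine le_trans ?_ (typeI_box (a := a) hm hI ht hL)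
      apply Pr_mono okh
      rintro F _ ⟨x, y, h0, h1, h2, h3, h4⟩
      exact ⟨x, y, h0, h2, h3, h4⟩
    · have : Pr hf U (Q b) = 0 := by
        unfold Pr
        rw [Ex_congr (g := fun _ => 0), Ex_const]
        intro F _
        apply ind_not_of
        rintro ⟨x, y, h0, h1, h2, h3, h4⟩
        apply hI
        refine Finset.Subset.trans ?_ h1
        rw [mem_Bx] at h0
        apply RE_subset <;> omega
      rw [this]
      exact hG0
  calc ∑ b ∈ grid n m, Pr hf U (Q b) ≤ ∑ _b ∈ grid n m, G := Finset.sum_le_sum s2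
    _ = (grid n m).card * G := by rw [Finset.sum_const, nsmul_eq_mul]
    _ ≤ ((n : ℝ) / m + 1)^2 * G := by
        apply mul_le_mul_of_nonneg_right _ hG0
        have h1 : ((grid n m).card : ℝ) ≤ (((n / m : ℕ) : ℝ) + 1)^2 := by
          exact_mod_cast grid_card n m
        refine h1.trans ?_
        have h2 : ((n / m : ℕ) : ℝ) ≤ (n : ℝ) / m := Nat.cast_div_le
        have h3 : (0 : ℝ) ≤ ((n / m : ℕ) : ℝ) := Nat.cast_nonneg _
        apply pow_le_pow_left₀ (by positivity)
        linarith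

end H99L
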