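import Pool.Agent.H99.DR.TypeI

/-!
A diameter with both tips near the sides of the box.
-/

set_option maxHeartbeats 400000

namespace H99L

open Finset

/-- Points of an arithmetic progression on a line with nearly the same distance to `c`. -/
theorem line_count {c : Vtx} {g : ℕ → Vtx} {h u0 : ℤ} {ρ : ℕ} (hρ : 1 ≤ ρ)
    (hg : ∀ k : ℕ, sq c (g k) = h^2 + ((ρ : ℤ) * k - u0)^2) {a τ : ℝ} (hτ : 0 ≤ τ) (ha : τ ≤ a)
    {I : Finset ℕ} (hI : ∀ k ∈ I, |ed c (g k) - a| ≤ τ) :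
    (I.card : ℝ) ≤ 2 * (2 * Real.sqrt (a * τ) / ρ + 1) := by
  classical
  have hρ' : (0 : ℝ) < ρ := by exact_mod_cast hρ
  have ha0 : 0 ≤ a := hτ.trans ha
  set D : ℝ := 2 * Real.sqrt (a * τ) / ρ with hD
  have hD0 : 0 ≤ D := by rw [hD]; positivity
  have hdiff : ∀ k ∈ I, ∀ l ∈ I, (((sq c (g l)) : ℤ) : ℝ) - ((sq c (g k) : ℤ) : ℝ) ≤ 4 * (a * τ) := by
    intro k hk l hl
    have h1 := abs_le.mp (hI k hk)
    have h2 := abs_le.mp (hI l hl)
    have n1 := ed_nonneg c (g k)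
    have n2 := ed_nonneg c (g l)
    rw [← ed_sq, ← ed_sq]
    have h3 : (ed c (g l))^2 ≤ (a + τ)^2 := pow_le_pow_left₀ n2 (by linarith [h2.2]) 2
    have h4 : (a - τ)^2 ≤ (ed c (g k))^2 := pow_le_pow_left₀ (by linarith) (by linarith [h1.1]) 2
    nlinarith
  have fin : ∀ x : ℤ, 0 ≤ x → ((ρ : ℝ) * x)^2 ≤ 4 * (a * τ) → (x : ℝ) ≤ D := by
    intro x hx h1
    rw [hD, le_div_iff₀ hρ']
    have hx' : (0 : ℝ) ≤ x := by exact_mod_cast hx
    have h2 : (ρ : ℝ) * x ≤ Real.sqrt (4 * (a * τ)) := Real.le_sqrt_of_sq_le h1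
    have h3 : Real.sqrt (4 * (a * τ)) = 2 * Real.sqrt (a * τ) := by
      rw [Real.sqrt_mul (by norm_num)]
      have : Real.sqrt 4 = 2 := by
        rw [show (4:ℝ) = 2^2 by norm_num]; exact Real.sqrt_sq (by norm_num)
      rw [this]
    rw [h3] at h2
    linarith
  have half1 : ((I.filter (fun k : ℕ => u0 ≤ (ρ : ℤ) * k)).card : ℝ) ≤ D + 1 := by
    rw [← Finset.card_image_of_injective _ (Nat.cast_injective : Function.Injective (Nat.cast : ℕ → ℤ))]
    apply card_close hD0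
    intro x hx y hy
    rw [Finset.mem_image] at hx hy
    obtain ⟨k, hk, rfl⟩ := hx
    obtain ⟨l, hl, rfl⟩ := hy
    rw [Finset.mem_filter] at hk hl
    by_cases hkl : (k : ℤ) ≤ l
    · have := fin ((l : ℤ) - k) (by omega) (by
        refine le_trans ?_ (hdiff k hk.1 l hl.1)
        rw [hg, hg]
        have h0 : (0 : ℤ) ≤ (l : ℤ) - k := by omega
        have h1 : (0 : ℤ) ≤ (ρ : ℤ) * k - u0 := by linarith [hk.2]
        have h2 : ((ρ : ℤ) * ((l : ℤ) - k))^2 ≤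
            (h^2 + ((ρ : ℤ) * l - u0)^2) - (h^2 + ((ρ : ℤ) * k - u0)^2) := by
          have h3 : (0 : ℤ) ≤ (ρ : ℤ) * ((l : ℤ) - k) := by positivity
          nlinarith [mul_nonneg h3 h1]
        exact_mod_cast h2)
      push_cast at this ⊢
      exact this
    · have : ((l : ℤ) : ℝ) - ((k : ℤ) : ℝ) ≤ 0 := by
        have : (l : ℤ) - k ≤ 0 := by omega
        exact_mod_cast this
      linarith
  have half2 : ((I.filter (fun k : ℕ => ¬ u0 ≤ (ρ : ℤ) * k)).card : ℝ) ≤ D + 1 := by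
    rw [← Finset.card_image_of_injective _ (Nat.cast_injective : Function.Injective (Nat.cast : ℕ → ℤ))]
    apply card_close hD0
    intro x hx y hy
    rw [Finset.mem_image] at hx hy
    obtain ⟨k, hk, rfl⟩ := hx
    obtain ⟨l, hl, rfl⟩ := hy
    rw [Finset.mem_filter] at hk hl
    by_cases hkl : (k : ℤ) ≤ l
    · have := fin ((l : ℤ) - k) (by omega) (by
        refine le_trans ?_ (hdiff l hl.1 k hk.1)
        rw [hg, hg]
        have h0 : (0 : ℤ) ≤ (l : ℤ) - k := by omega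
        have h1 : (0 : ℤ) ≤ u0 - (ρ : ℤ) * l := by
          have := hl.2
          push Not at this
          linarith
        have h2 : ((ρ : ℤ) * ((l : ℤ) - k))^2 ≤
            (h^2 + ((ρ : ℤ) * k - u0)^2) - (h^2 + ((ρ : ℤ) * l - u0)^2) := by
          have h3 : (0 : ℤ) ≤ (ρ : ℤ) * ((l : ℤ) - k) := by positivity
          nlinarith [mul_nonneg h3 h1]
        exact_mod_cast h2)
      push_cast at this ⊢
      exact this
    · have : ((l : ℤ) : ℝ) - ((k : ℤ) : ℝ) ≤ 0 := by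
        have : (l : ℤ) - k ≤ 0 := by omega
        exact_mod_cast this
      linarith
  have hsum := Finset.card_filter_add_card_filter_not (s := I) (fun k : ℕ => u0 ≤ (ρ : ℤ) * k)
  have hsum' : (I.card : ℝ) = ((I.filter (fun k : ℕ => u0 ≤ (ρ : ℤ) * k)).card : ℝ) +
      ((I.filter (fun k : ℕ => ¬ u0 ≤ (ρ : ℤ) * k)).card : ℝ) := by exact_mod_cast hsum.symm
  rw [hsum']
  linarith

/-- The four sides of the square. -/
abbrev Sd := Bool × Bool

/-- Point of a side. -/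
def ctr (n : ℕ) (s : Sd) (j : ℤ) : Vtx :=
  if s.1 then (if s.2 then (n : ℤ) else 0, j) else (j, if s.2 then (n : ℤ) else 0)

/-- The half plane of a side. -/
def HH (n : ℕ) (s : Sd) (e : Edg) : Prop :=
  if s.1 then (if s.2 then (tgt e).1 ≤ n else 0 ≤ e.1)
  else (if s.2 then (tgt e).2 ≤ n else 0 ≤ e.2.1)

/-- Direction of a side. -/
def dirS (s : Sd) : Vtx := if s.1 then (0, 1) else (1, 0)

/-- Coordinate along a side. -/
def along (s : Sd) (x : Vtx) : ℤ := if s.1 then x.2 else x.1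

theorem HH_inv (n : ℕ) (s : Sd) (j : ℕ) (x y : ℤ) (b : Bool) :
    HH n s (x + j * (dirS s).1, y + j * (dirS s).2, b) ↔ HH n s (x, y, b) := by
  obtain ⟨v, o⟩ := s
  cases v <;> cases o <;> cases b <;> simp [HH, dirS]

theorem RE_HH {n : ℕ} {e : Edg} (h : e ∈ RE 0 n 0 n) (s : Sd) : HH n s e := by
  obtain ⟨h1, h2⟩ := RE_ends h
  obtain ⟨x, y, b⟩ := e
  obtain ⟨v, o⟩ := s
  simp only [inR] at h1 h2
  simp only [src_mk] at h1
  cases v <;> cases o <;> simp only [HH, if_true, Bool.false_eq_true, if_false] <;> omega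

theorem Rg_HH_sub {n : ℕ} {s : Sd} {j k : ℤ} (h0 : 0 ≤ k) (h1 : k ≤ j) (h2 : j + k ≤ n)
    {e : Edg} (he : e ∈ Rg (HH n s) (ctr n s j) k) : e ∈ RE 0 n 0 n := by
  rw [mem_Rg] at he
  obtain ⟨h3, h4⟩ := he
  obtain ⟨x, y, b⟩ := e
  obtain ⟨v, o⟩ := s
  cases v <;> cases o <;> cases b <;>
    simp only [HH, ctr, if_true, Bool.false_eq_true, if_false, tgt_true, tgt_false, mem_RE_true,
      mem_RE_false] at h3 h4 ⊢ <;> omega

/-- All edges of the big box near `x` are present in `U`. -/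
def Free (n : ℕ) (κ : ℤ) (U : Finset Edg) (x : Vtx) : Prop :=
  ∀ e ∈ RE 0 n 0 n, e ∈ RE (x.1 - κ) (x.1 + κ) (x.2 - κ) (x.2 + κ) → e ∈ U

/-- The vertex `x` is close to the side `s` and far from its ends. -/
def NearS (n : ℕ) (ρ κ : ℤ) (s : Sd) (x : Vtx) : Prop :=
  inR 0 n 0 n x ∧ In (ctr n s (along s x)) ρ x ∧ κ ≤ along s x ∧ along s x + κ ≤ n

/-- Vertices near a point of a side. -/
noncomputable def Qf (n ρ : ℕ) (p : Sd × ℕ) : Finset Vtx :=
  Finset.Icc ((ctr n p.1 (ρ * p.2)).1 - ρ) ((ctr n p.1 (ρ * p.2)).1 + ρ) ×ˢ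
    Finset.Icc ((ctr n p.1 (ρ * p.2)).2 - ρ) ((ctr n p.1 (ρ * p.2)).2 + ρ)

theorem mem_Qf {n ρ : ℕ} {p : Sd × ℕ} {x : Vtx} :
    x ∈ Qf n ρ p ↔ In (ctr n p.1 (ρ * p.2)) ρ x := by
  unfold Qf
  rw [Finset.mem_product, Finset.mem_Icc, Finset.mem_Icc]
  simp only [In]
  omega

/-- The event that `p` contains a tip with respect to `q`. -/
def TE (n κ ρ : ℕ) (p q : Sd × ℕ) : Finset Edg → Prop :=
  TipEv (Rg (HH n p.1) (ctr n p.1 (ρ * p.2)) (10 * κ)) (Qf n ρ p) (Qf n ρ q) (8 * κ)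

theorem pr_TE {n κ ρ : ℕ} (hκ : 5 ≤ κ) (hρ : ρ ≤ κ) (hρ1 : 1 ≤ ρ) (p q : Sd × ℕ)
    {U : Finset Edg} (hU : Rg (HH n p.1) (ctr n p.1 (ρ * p.2)) (10 * κ) ⊆ U) :
    Pr hf U (TE n κ ρ p q) ≤ 7 * ρ * N2 / κ := by
  unfold TE
  rw [pr_TipEv hU]
  apply tip_bd (d := dirS p.1) (c' := ctr n q.1 (ρ * q.2)) _ (HH_inv n p.1) hκ hρ hρ1
    (fun x hx => mem_Qf.mp hx) (fun x hx => mem_Qf.mp hx)
  obtain ⟨⟨v, o⟩, k⟩ := p
  cases v
  · right; rfl
  · left; rfl

theorem TE_of_tip {n κ ρ : ℕ} (hκ : 5 ≤ κ) (hρ : ρ ≤ κ) {p q : Sd × ℕ} {U F : Finset Edg}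
    (hU : U ⊆ RE 0 n 0 n) (hFU : F ⊆ U) {x y : Vtx} (hx : x ∈ Qf n ρ p) (hy : y ∈ Qf n ρ q)
    (hT : Tip F x y) (hL : 40 * (κ : ℝ) ≤ ed x y) : TE n κ ρ p q F := by
  rw [mem_Qf] at hx
  have hO : Out x (8 * κ : ℕ) y := by
    apply out_of_ed (by positivity)
    push_cast
    have : (0 : ℝ) ≤ κ := Nat.cast_nonneg _
    linarith
  refine ⟨x, mem_Qf.mpr hx, y, hy, ?_, ?_⟩
  · obtain ⟨v, k1, k2, k3⟩ := first_exit (a := x.1 - 8 * κ) (b := x.1 + 8 * κ)
      (c := x.2 - 8 * κ) (d := x.2 + 8 * κ) (u := x) (v := y)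
      (by simp only [inR]; omega) hT.1
      (by simp only [Out] at hO; push_cast at hO; omega)
    refine ⟨v, ?_, ?_⟩
    · simp only [Out, inR] at k1 k2 ⊢
      omega
    · apply k3.mono
      rintro e ⟨h1, h2⟩
      refine ⟨h1, ?_⟩
      rw [Finset.mem_coe, mem_Rg]
      refine ⟨?_, RE_HH (hU (hFU h1)) _⟩
      simp only [In] at hx
      apply RE_subset _ _ _ _ (by exact_mod_cast h2) <;> omega
  · intro z hz
    exact hT.2 z y (hz.mono Set.inter_subset_left) hT.1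

/-- Both tips near the sides. -/
theorem typeII {U : Finset Edg} {n κ ρ : ℕ} (hU : U ⊆ RE 0 n 0 n) (hκ : 5 ≤ κ) (hρ : ρ ≤ κ)
    (hρ1 : 1 ≤ ρ) {a t L : ℝ} (ht : 0 ≤ t) (hL : 40 * (κ : ℝ) ≤ L) (ha : t + 3 * ρ ≤ a) :
    Pr hf U (fun F => ∃ x y, (∃ s, NearS n ρ (11 * κ) s x) ∧ (∃ s, NearS n ρ (11 * κ) s y) ∧
      Free n (12 * κ) U x ∧ Free n (12 * κ) U y ∧
      Tip F x y ∧ L ≤ ed x y ∧ |ed x y - a| ≤ t) ≤
      32 * ((n : ℝ) / ρ + 1) * (2 * Real.sqrt (a * (t + 3 * ρ)) / ρ + 1) *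
        (7 * ρ * N2 / κ)^2 := by
  classical
  have hκ0 : (0 : ℝ) < κ := by exact_mod_cast (by omega : 0 < κ)
  have hρ0 : (0 : ℝ) < ρ := by exact_mod_cast (by omega : 0 < ρ)
  have hρ0' : (0 : ℤ) < ρ := by exact_mod_cast (by omega : 0 < ρ)
  have hN := N2_pos
  set Y : ℝ := (7 * ρ * N2 / κ)^2 with hY
  have hY0 : 0 ≤ Y := by rw [hY]; positivity
  set cc : Sd × ℕ → Vtx := fun p => ctr n p.1 (ρ * p.2) with hcc
  set RR : Sd × ℕ → Finset Edg := fun p => Rg (HH n p.1) (cc p) (10 * κ) with hRR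
  set Good : Sd × ℕ → Sd × ℕ → Prop := fun p q => RR p ⊆ U ∧ RR q ⊆ U ∧ Out (cc p) (21 * κ) (cc q)
    with hGood
  set Ev : Sd × ℕ → Sd × ℕ → Finset Edg → Prop := fun p q F => Good p q ∧ TE n κ ρ p q F ∧
    TE n κ ρ q p F with hEv
  set Idx : Finset (Sd × ℕ) := Finset.univ ×ˢ Finset.range (n / ρ + 1) with hIdx
  set Cp : Sd × ℕ → Sd → Finset ℕ := fun p s' => (Finset.range (n / ρ + 1)).filter
    (fun k => |ed (cc p) (cc (s', k)) - a| ≤ t + 3 * ρ) with hCp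
  -- the probability of a pair
  have pair : ∀ p q, Pr hf U (Ev p q) ≤ Y := by
    intro p q
    by_cases hg : Good p q
    · have hdisj : Disjoint (RR p) (RR q) := by
        rw [Finset.disjoint_left]
        intro e he1 he2
        simp only [hRR, mem_Rg] at he1 he2
        have k1 := (RE_ends he1.1).1
        have k2 := (RE_ends he2.1).1
        have k3 := hg.2.2
        simp only [inR, Out] at k1 k2 k3
        omega
      have loc : ∀ p q : Sd × ℕ, ∀ F, F ⊆ U → (TE n κ ρ p q F ↔ TE n κ ρ p q (F ∩ RR p)) := by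
        intro p q F _
        unfold TE TipEv
        rw [coe_inter_eq (Finset.Subset.refl _)]
      have e1 : Pr hf U (fun F => TE n κ ρ p q F ∧ TE n κ ρ q p F) =
          Pr hf U (TE n κ ρ p q) * Pr hf U (TE n κ ρ q p) :=
        Pr_indep hg.1 hg.2.1 hdisj (loc p q) (loc q p)
      calc Pr hf U (Ev p q) ≤ Pr hf U (fun F => TE n κ ρ p q F ∧ TE n κ ρ q p F) :=
            Pr_mono okh (fun F _ h => h.2)
        _ = Pr hf U (TE n κ ρ p q) * Pr hf U (TE n κ ρ q p) := e1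
        _ ≤ (7 * ρ * N2 / κ) * (7 * ρ * N2 / κ) :=
            mul_le_mul (pr_TE hκ hρ hρ1 p q hg.1) (pr_TE hκ hρ hρ1 q p hg.2.1)
              (Pr_nonneg okh _ _) (by positivity)
        _ = Y := by rw [hY]; ring
    · have : Pr hf U (Ev p q) = 0 := by
        unfold Pr
        rw [Ex_congr (g := fun _ => 0), Ex_const]
        intro F _
        exact ind_not_of (fun h => hg h.1)
      rw [this]; exact hY0
  -- the covering
  have cover : ∀ x : Vtx, ∀ s, NearS n ρ (11 * κ) s x → ∃ k ∈ Finset.range (n / ρ + 1),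
      x ∈ Qf n ρ (s, k) ∧ 10 * (κ : ℤ) ≤ ρ * k ∧ (ρ : ℤ) * k + 10 * κ ≤ n := by
    intro x s hx
    obtain ⟨h1, h2, h3, h4⟩ := hx
    have hκz : (5 : ℤ) ≤ κ := by exact_mod_cast hκ
    have hρz : (ρ : ℤ) ≤ κ := by exact_mod_cast hρ
    set u := along s x with hu
    have hu0 : 0 ≤ u := by omega
    have q1 : 0 ≤ u / ρ := Int.ediv_nonneg hu0 hρ0'.le
    have a1 := Int.emod_nonneg u hρ0'.ne'
    have a2 := Int.emod_lt_of_pos u hρ0'
    have b1 := Int.mul_ediv_add_emod u ρ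
    have hk : ((u / ρ).toNat : ℤ) = u / ρ := Int.toNat_of_nonneg q1
    refine ⟨(u / ρ).toNat, ?_, ?_, ?_, ?_⟩
    · rw [Finset.mem_range]
      have r1 : u / ρ ≤ ((n / ρ : ℕ) : ℤ) := by
        push_cast
        exact Int.ediv_le_ediv hρ0' (by omega)
      omega
    · rw [mem_Qf]
      simp only
      rw [hk]
      obtain ⟨v, o⟩ := s
      cases v <;> cases o <;>
        simp only [In, ctr, along, if_true, Bool.false_eq_true, if_false] at h2 hu ⊢ <;> omega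
    · rw [hk]; omega
    · rw [hk]; omega
  have s1 : Pr hf U (fun F => ∃ x y, (∃ s, NearS n ρ (11 * κ) s x) ∧
      (∃ s, NearS n ρ (11 * κ) s y) ∧ Free n (12 * κ) U x ∧ Free n (12 * κ) U y ∧
      Tip F x y ∧ L ≤ ed x y ∧ |ed x y - a| ≤ t) ≤
      Pr hf U (fun F => ∃ p ∈ Idx, ∃ s' ∈ (Finset.univ : Finset Sd), ∃ k' ∈ Cp p s',
        Ev p (s', k') F) := by
    apply Pr_mono okh
    rintro F hFU ⟨x, y, ⟨s, hsx⟩, ⟨s', hsy⟩, hfx, hfy, hT, hLxy, hat⟩
    obtain ⟨k, hk, hxQ, k1, k2⟩ := cover x s hsx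
    obtain ⟨k', hk', hyQ, k1', k2'⟩ := cover y s' hsy
    have ix := mem_Qf.mp hxQ
    have iy := mem_Qf.mp hyQ
    have d1 : ed (cc (s, k)) x ≤ 3/2 * ρ := by
      have := ed_le_of_in ix
      exact_mod_cast this
    have d2 : ed (cc (s', k')) y ≤ 3/2 * ρ := by
      have := ed_le_of_in iy
      exact_mod_cast this
    have t1 := ed_triangle (cc (s, k)) x (cc (s', k'))
    have t2 := ed_triangle x y (cc (s', k'))
    have t3 := ed_triangle x (cc (s, k)) y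
    have t4 := ed_triangle (cc (s, k)) (cc (s', k')) y
    have c1 := ed_comm y (cc (s', k'))
    have c2 := ed_comm x (cc (s, k))
    have hab := abs_le.mp hat
    have hρκ : (ρ : ℝ) ≤ κ := by exact_mod_cast hρ
    refine ⟨(s, k), ?_, s', Finset.mem_univ _, k', ?_, ⟨?_, ?_, ?_⟩, ?_, ?_⟩
    · rw [hIdx, Finset.mem_product]
      exact ⟨Finset.mem_univ _, hk⟩
    · simp only [hCp, Finset.mem_filter]
      refine ⟨hk', ?_⟩
      rw [abs_le]
      constructor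
      · linarith [hab.1]
      · linarith [hab.2]
    · intro e he
      have he1 : e ∈ RE 0 n 0 n := Rg_HH_sub (by positivity) k1 k2 he
      apply hfx e he1
      simp only [hRR, mem_Rg] at he
      simp only [In] at ix
      have hρz : (ρ : ℤ) ≤ κ := by exact_mod_cast hρ
      apply RE_subset _ _ _ _ he.1 <;> simp only [hcc] <;> omega
    · intro e he
      have he1 : e ∈ RE 0 n 0 n := Rg_HH_sub (by positivity) k1' k2' he
      apply hfy e he1
      simp only [hRR, mem_Rg] at he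
      simp only [In] at iy
      have hρz : (ρ : ℤ) ≤ κ := by exact_mod_cast hρ
      apply RE_subset _ _ _ _ he.1 <;> simp only [hcc] <;> omega
    · apply out_of_ed (by positivity)
      push_cast
      linarith
    · exact TE_of_tip hκ hρ hU hFU hxQ hyQ hT (by linarith)
    · exact TE_of_tip hκ hρ hU hFU hyQ hxQ hT.symm (by rw [ed_comm]; linarith)
  refine s1.trans ?_
  refine (Pr_exists_le okh U Idx (fun p F => ∃ s' ∈ (Finset.univ : Finset Sd), ∃ k' ∈ Cp p s',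
        Ev p (s', k') F)).trans ?_
  set Dd : ℝ := 2 * Real.sqrt (a * (t + 3 * ρ)) / ρ with hDd
  have hDd0 : 0 ≤ Dd := by rw [hDd]; positivity
  have hcount : ∀ p s', ((Cp p s').card : ℝ) ≤ 2 * (Dd + 1) := by
    intro p s'
    apply line_count (c := cc p) (g := fun k => cc (s', k)) (h := if s'.1 then
      (cc p).1 - (if s'.2 then (n : ℤ) else 0) else (cc p).2 - (if s'.2 then (n : ℤ) else 0))
      (u0 := if s'.1 then (cc p).2 else (cc p).1) hρ1 _ (by positivity) ha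
      (fun k hk => (Finset.mem_filter.mp hk).2)
    intro k
    obtain ⟨v, o⟩ := s'
    simp only [hcc, sq]
    generalize ctr n p.1 (ρ * p.2) = c0
    cases v <;> cases o <;> simp only [ctr, if_true, Bool.false_eq_true, if_false] <;> ring
  have s2 : ∀ p ∈ Idx, Pr hf U (fun F => ∃ s' ∈ (Finset.univ : Finset Sd), ∃ k' ∈ Cp p s',
        Ev p (s', k') F) ≤ 4 * (2 * (Dd + 1) * Y) := by
    intro p _
    refine (Pr_exists_le okh U (Finset.univ : Finset Sd) (fun s' F => ∃ k' ∈ Cp p s',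
        Ev p (s', k') F)).trans ?_
    have s3 : ∀ s' ∈ (Finset.univ : Finset Sd), Pr hf U (fun F => ∃ k' ∈ Cp p s',
        Ev p (s', k') F) ≤ 2 * (Dd + 1) * Y := by
      intro s' _
      refine (Pr_exists_le okh U (Cp p s') (fun k' F => Ev p (s', k') F)).trans ?_
      calc ∑ k' ∈ Cp p s', Pr hf U (fun F => Ev p (s', k') F)
          ≤ ∑ _k' ∈ Cp p s', Y := Finset.sum_le_sum (fun k' _ => pair p (s', k'))
        _ = (Cp p s').card * Y := by rw [Finset.sum_const, nsmul_eq_mul]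
        _ ≤ 2 * (Dd + 1) * Y := mul_le_mul_of_nonneg_right (hcount p s') hY0
    calc ∑ s' ∈ (Finset.univ : Finset Sd), Pr hf U (fun F => ∃ k' ∈ Cp p s', Ev p (s', k') F)
        ≤ ∑ _s' ∈ (Finset.univ : Finset Sd), 2 * (Dd + 1) * Y := Finset.sum_le_sum s3
      _ = 4 * (2 * (Dd + 1) * Y) := by
          rw [Finset.sum_const, nsmul_eq_mul]
          norm_num [Finset.card_univ]
  calc ∑ p ∈ Idx, Pr hf U (fun F => ∃ s' ∈ (Finset.univ : Finset Sd), ∃ k' ∈ Cp p s',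
        Ev p (s', k') F)
      ≤ ∑ _p ∈ Idx, 4 * (2 * (Dd + 1) * Y) := Finset.sum_le_sum s2
    _ = Idx.card * (4 * (2 * (Dd + 1) * Y)) := by rw [Finset.sum_const, nsmul_eq_mul]
    _ ≤ (4 * ((n : ℝ) / ρ + 1)) * (4 * (2 * (Dd + 1) * Y)) := by
        apply mul_le_mul_of_nonneg_right _ (by positivity)
        rw [hIdx, Finset.card_product, Finset.card_range]
        have : (Finset.univ : Finset Sd).card = 4 := by norm_num [Finset.card_univ]
        rw [this]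
        push_cast
        have h2 : ((n / ρ : ℕ) : ℝ) ≤ (n : ℝ) / ρ := Nat.cast_div_le
        linarith
    _ = 32 * ((n : ℝ) / ρ + 1) * (Dd + 1) * Y := by ring

end H99L
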